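import Pool.Agent.Q236.E1.Lists

/-!
# The initial state
-/

namespace Pool.Agent.Q236.E1

theorem SS_count (a : ℕ) : SS (Nat.count Nat.Prime a) = ∑ p ∈ (Finset.range a).filter Nat.Prime, p := by
  induction a with
  | zero => simp [SS]
  | succ a ih =>
    rw [Nat.count_succ, Finset.range_add_one, Finset.filter_insert]
    split_ifs with h
    · rw [Finset.sum_insert (by simp), ← ih]
      unfold SS
      rw [Finset.sum_range_succ, Nat.nth_count h, add_comm]
    · rw [add_zero, ih]

theorem count115 : Nat.count Nat.Prime 115 = 30 := by
  decide +kernel

theorem sum115 : ∑ p ∈ (Finset.range 115).filter Nat.Prime, p = 1593 := by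
  decide +kernel

theorem r0 : St 115 1593 15 15 where
  odd := by decide
  three := by norm_num
  count := count115
  sum := by
    rw [← sum115, ← SS_count, count115]
  cn := by
    unfold cn
    exact le_trans (Finset.card_filter_le _ _) (by simp)

end Pool.Agent.Q236.E1
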