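import Mathlib
import Pool.Agent.Q236.E1.Def

/-!
# Bits, lowest set bits and the table
-/

namespace Pool.Agent.Q236.E1

theorem fc_eq (x : ℕ) (k : ℕ → Bool) : fc x k = k x := by
  cases x <;> rfl

/-- check of the table -/
noncomputable def tl (s : ℕ) : ℕ → Bool :=
  Nat.rec (fun _ => true) (fun _ ih e =>
    cond (Nat.beq (tab TB (Nat.pow 2 (Nat.add 128 e))) (Nat.mul 2 e)) (fc (Nat.succ e) fun e' => ih e')
      false) s

theorem cond_f {b x : Bool} (h : cond b x false = true) : b = true ∧ x = true := by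
  cases b
  · exact absurd h (by simp)
  · exact ⟨rfl, h⟩

theorem cond_t {b x : Bool} (h : cond b false x = true) : b = false ∧ x = true := by
  cases b
  · exact ⟨rfl, h⟩
  · exact absurd h (by simp)

theorem tl_sound (s : ℕ) : ∀ e, tl s e = true → ∀ j, e ≤ j → j < e + s →
    tab TB (2 ^ (128 + j)) = 2 * j := by
  induction s with
  | zero => intro e _ j h1 h2; omega
  | succ s ih =>
    intro e h j h1 h2
    have h' : cond (Nat.beq (tab TB (Nat.pow 2 (Nat.add 128 e))) (Nat.mul 2 e))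
      (fc (Nat.succ e) fun e' => tl s e') false = true := h
    obtain ⟨h3, h4⟩ := cond_f h'
    rw [fc_eq] at h4
    rcases Nat.eq_or_lt_of_le h1 with h5 | h5
    · subst h5
      exact Nat.eq_of_beq_eq_true h3
    · exact ih (e + 1) h4 j h5 (by omega)

set_option maxRecDepth 100000 in
theorem tl_true : tl 4096 0 = true := by
  decide +kernel

theorem tab_eq {j : ℕ} (hj : j < 4096) : tab TB (2 ^ (128 + j)) = 2 * j :=
  tl_sound 4096 0 tl_true j (Nat.zero_le _) (by omega)

theorem PW_eq : PW = 2 ^ 2112 := by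
  decide +kernel

/-- the lowest set bit -/
theorem low {w : ℕ} (hw : w ≠ 0) : ∃ i, w.testBit i = true ∧ (∀ j < i, w.testBit j = false) ∧
    2 ^ i ≤ w ∧ (∀ j, (w - 2 ^ i).testBit j = (w.testBit j && decide (j ≠ i))) ∧
    (∀ K, i ≤ K → Nat.gcd (2 ^ 64 * w) (2 ^ (64 + K)) = 2 ^ (64 + i)) := by
  obtain ⟨i, m, hm, hw'⟩ := Nat.exists_eq_two_pow_mul_odd hw
  obtain ⟨u, rfl⟩ := hm
  refine ⟨i, ?_, ?_, ?_, ?_, ?_⟩
  · rw [hw', Nat.testBit_two_pow_mul]
    simp
  · intro j hj
    rw [hw', Nat.testBit_two_pow_mul]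
    simp [Nat.not_le.2 hj]
  · rw [hw']
    exact Nat.le_mul_of_pos_right _ (by omega)
  · intro j
    have e1 : w - 2 ^ i = 2 ^ i * (2 * u) := by
      rw [hw', Nat.mul_add, Nat.mul_one, Nat.add_sub_cancel]
    rw [e1, hw', Nat.testBit_two_pow_mul, Nat.testBit_two_pow_mul]
    by_cases h1 : i ≤ j
    · obtain ⟨t, rfl⟩ := Nat.exists_eq_add_of_le h1
      rw [Nat.add_sub_cancel_left]
      cases t with
      | zero => simp
      | succ t =>
        rw [Nat.testBit_succ, Nat.testBit_succ]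
        have e2 : 2 * u / 2 = u := by omega
        have e3 : (2 * u + 1) / 2 = u := by omega
        rw [e2, e3]

        simp
    · simp [h1]
  · intro K hK
    obtain ⟨t, rfl⟩ := Nat.exists_eq_add_of_le hK
    rw [hw', ← mul_assoc, ← pow_add, ← add_assoc, pow_add 2 (64 + i) t, Nat.gcd_mul_left]
    have e1 : Nat.gcd (2 * u + 1) (2 ^ t) = 1 :=
      Nat.Coprime.pow_right t (by exact (Nat.coprime_two_right).2 ⟨u, rfl⟩)
    rw [e1, mul_one]

end Pool.Agent.Q236.E1
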