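import Pool.Agent.Q236.E1.Base
import Pool.Agent.Q236.E1.D00
import Pool.Agent.Q236.E1.D01
import Pool.Agent.Q236.E1.D02
import Pool.Agent.Q236.E1.D03
import Pool.Agent.Q236.E1.D04
import Pool.Agent.Q236.E1.D05
import Pool.Agent.Q236.E1.D06
import Pool.Agent.Q236.E1.D07
import Pool.Agent.Q236.E1.D08
import Pool.Agent.Q236.E1.D09
import Pool.Agent.Q236.E1.D10
import Pool.Agent.Q236.E1.D11
import Pool.Agent.Q236.E1.D12
import Pool.Agent.Q236.E1.D13
import Pool.Agent.Q236.E1.D14
import Pool.Agent.Q236.E1.D15
import Pool.Agent.Q236.E1.D16
import Pool.Agent.Q236.E1.D17
import Pool.Agent.Q236.E1.D18
import Pool.Agent.Q236.E1.D19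
import Pool.Agent.Q236.E1.D20
import Pool.Agent.Q236.E1.D21
import Pool.Agent.Q236.E1.D22
import Pool.Agent.Q236.E1.D23
import Pool.Agent.Q236.E1.D24

/-!
# The chain of states
-/

namespace Pool.Agent.Q236.E1

theorem r1 : St 16127 14194425 143 938 :=
  chk_sound good1 (by norm_num) (by norm_num) (by norm_num) r0 t0

theorem r2 : St 147047 948287941 781 6797 :=
  chk_sound good2 (by norm_num) (by norm_num) (by norm_num) r1 t1

theorem r3 : St 277897 3211217747 1318 12136 :=
  chk_sound good2 (by norm_num) (by norm_num) (by norm_num) r2 t2

theorem r4 : St 408787 6724237131 1726 17258 :=
  chk_sound good2 (by norm_num) (by norm_num) (by norm_num) r3 t3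

theorem r5 : St 539713 11482091973 2148 22277 :=
  chk_sound good2 (by norm_num) (by norm_num) (by norm_num) r4 t4

theorem r6 : St 670655 17414389359 2569 27180 :=
  chk_sound good2 (by norm_num) (by norm_num) (by norm_num) r5 t5

theorem r7 : St 801539 24562551357 2983 32036 :=
  chk_sound good2 (by norm_num) (by norm_num) (by norm_num) r6 t6

theorem r8 : St 932521 32866269743 3395 36825 :=
  chk_sound good2 (by norm_num) (by norm_num) (by norm_num) r7 t7

theorem r9 : St 1063409 42257250747 3773 41531 :=
  chk_sound good2 (by norm_num) (by norm_num) (by norm_num) r8 t8

theorem r10 : St 1194245 52944969751 4129 46265 :=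
  chk_sound good2 (by norm_num) (by norm_num) (by norm_num) r9 t9

theorem r11 : St 1325021 64628292899 4528 50902 :=
  chk_sound good2 (by norm_num) (by norm_num) (by norm_num) r10 t10

theorem r12 : St 1455929 77503062185 4896 55531 :=
  chk_sound good2 (by norm_num) (by norm_num) (by norm_num) r11 t11

theorem r13 : St 1586821 91439772887 5271 60112 :=
  chk_sound good2 (by norm_num) (by norm_num) (by norm_num) r12 t12

theorem r14 : St 1717637 106537411247 5608 64681 :=
  chk_sound good2 (by norm_num) (by norm_num) (by norm_num) r13 t13

theorem r15 : St 1848565 122721479897 5977 69219 :=
  chk_sound good2 (by norm_num) (by norm_num) (by norm_num) r14 t14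

theorem r16 : St 1979395 140050564699 6351 73747 :=
  chk_sound good2 (by norm_num) (by norm_num) (by norm_num) r15 t15

theorem r17 : St 2110311 158521760389 6711 78264 :=
  chk_sound good2 (by norm_num) (by norm_num) (by norm_num) r16 t16

theorem r18 : St 2241139 177993457713 7040 82739 :=
  chk_sound good2 (by norm_num) (by norm_num) (by norm_num) r17 t17

theorem r19 : St 2372081 198538858993 7360 87193 :=
  chk_sound good2 (by norm_num) (by norm_num) (by norm_num) r18 t18

theorem r20 : St 2502953 220203018365 7689 91637 :=
  chk_sound good2 (by norm_num) (by norm_num) (by norm_num) r19 t19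

theorem r21 : St 2633641 243020490661 8042 96079 :=
  chk_sound good2 (by norm_num) (by norm_num) (by norm_num) r20 t20

theorem r22 : St 2764549 266831395651 8400 100490 :=
  chk_sound good2 (by norm_num) (by norm_num) (by norm_num) r21 t21

theorem r23 : St 2895511 291824301147 8716 104906 :=
  chk_sound good2 (by norm_num) (by norm_num) (by norm_num) r22 t22

theorem r24 : St 3026307 317743968759 9059 109283 :=
  chk_sound good2 (by norm_num) (by norm_num) (by norm_num) r23 t23

theorem r25 : St 3157081 344828635843 9362 113663 :=
  chk_sound good2 (by norm_num) (by norm_num) (by norm_num) r24 t24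

theorem r26 : St 3287931 373140793081 9731 118056 :=
  chk_sound good2 (by norm_num) (by norm_num) (by norm_num) r25 t25

theorem r27 : St 3418821 402310397941 10004 122405 :=
  chk_sound good2 (by norm_num) (by norm_num) (by norm_num) r26 t26

theorem r28 : St 3549603 432188342905 10312 126693 :=
  chk_sound good2 (by norm_num) (by norm_num) (by norm_num) r27 t27

theorem r29 : St 3680563 463734329241 10612 131056 :=
  chk_sound good2 (by norm_num) (by norm_num) (by norm_num) r28 t28

theorem r30 : St 3811423 496084142969 10938 135374 :=
  chk_sound good2 (by norm_num) (by norm_num) (by norm_num) r29 t29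

theorem r31 : St 3942259 529586946905 11263 139695 :=
  chk_sound good2 (by norm_num) (by norm_num) (by norm_num) r30 t30

theorem r32 : St 4073101 564046041647 11569 143994 :=
  chk_sound good2 (by norm_num) (by norm_num) (by norm_num) r31 t31

theorem r33 : St 4203973 599604743413 11886 148290 :=
  chk_sound good2 (by norm_num) (by norm_num) (by norm_num) r32 t32

theorem r34 : St 4334879 635987784669 12179 152551 :=
  chk_sound good2 (by norm_num) (by norm_num) (by norm_num) r33 t33

theorem r35 : St 4465763 673815571371 12453 156849 :=
  chk_sound good2 (by norm_num) (by norm_num) (by norm_num) r34 t34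

theorem r36 : St 4596617 712503270041 12754 161118 :=
  chk_sound good2 (by norm_num) (by norm_num) (by norm_num) r35 t35

theorem r37 : St 4727501 752206356549 13062 165376 :=
  chk_sound good2 (by norm_num) (by norm_num) (by norm_num) r36 t36

theorem r38 : St 4858307 792830713499 13390 169614 :=
  chk_sound good2 (by norm_num) (by norm_num) (by norm_num) r37 t37

theorem r39 : St 4989209 835125479429 13684 173909 :=
  chk_sound good2 (by norm_num) (by norm_num) (by norm_num) r38 t38

theorem r40 : St 5120113 877736004075 13954 178124 :=
  chk_sound good2 (by norm_num) (by norm_num) (by norm_num) r39 t39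

theorem r41 : St 5250913 921814178413 14270 182374 :=
  chk_sound good2 (by norm_num) (by norm_num) (by norm_num) r40 t40

theorem r42 : St 5381773 966653202821 14556 186591 :=
  chk_sound good2 (by norm_num) (by norm_num) (by norm_num) r41 t41

theorem r43 : St 5512685 1012550902423 14852 190804 :=
  chk_sound good2 (by norm_num) (by norm_num) (by norm_num) r42 t42

theorem r44 : St 5643623 1059240354891 15152 194989 :=
  chk_sound good2 (by norm_num) (by norm_num) (by norm_num) r43 t43

theorem r45 : St 5774471 1107196151583 15447 199189 :=
  chk_sound good2 (by norm_num) (by norm_num) (by norm_num) r44 t44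

theorem r46 : St 5905319 1156242553121 15738 203388 :=
  chk_sound good2 (by norm_num) (by norm_num) (by norm_num) r45 t45

theorem r47 : St 6036169 1206358302627 16056 207585 :=
  chk_sound good2 (by norm_num) (by norm_num) (by norm_num) r46 t46

theorem r48 : St 6166813 1257355020305 16328 211764 :=
  chk_sound good2 (by norm_num) (by norm_num) (by norm_num) r47 t47

theorem r49 : St 6297779 1309671638921 16635 215961 :=
  chk_sound good2 (by norm_num) (by norm_num) (by norm_num) r48 t48

theorem r50 : St 6428647 1362522652613 16975 220114 :=
  chk_sound good2 (by norm_num) (by norm_num) (by norm_num) r49 t49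

theorem r51 : St 6559545 1416606031083 17280 224278 :=
  chk_sound good2 (by norm_num) (by norm_num) (by norm_num) r50 t50

theorem r52 : St 6690379 1471695570533 17590 228436 :=
  chk_sound good2 (by norm_num) (by norm_num) (by norm_num) r51 t51

theorem r53 : St 6821173 1528199064473 17885 232618 :=
  chk_sound good2 (by norm_num) (by norm_num) (by norm_num) r52 t52

theorem r54 : St 6951991 1585826512593 18166 236802 :=
  chk_sound good2 (by norm_num) (by norm_num) (by norm_num) r53 t53

theorem r55 : St 7082905 1644197552777 18475 240961 :=
  chk_sound good2 (by norm_num) (by norm_num) (by norm_num) r54 t54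

theorem r56 : St 7213709 1703313145867 18780 245096 :=
  chk_sound good2 (by norm_num) (by norm_num) (by norm_num) r55 t55

theorem r57 : St 7344599 1763437140169 19046 249226 :=
  chk_sound good2 (by norm_num) (by norm_num) (by norm_num) r56 t56

theorem r58 : St 7475557 1824761243917 19341 253364 :=
  chk_sound good2 (by norm_num) (by norm_num) (by norm_num) r57 t57

theorem r59 : St 7606397 1887067109987 19646 257495 :=
  chk_sound good2 (by norm_num) (by norm_num) (by norm_num) r58 t58

theorem r60 : St 7737287 1950374812131 19944 261621 :=
  chk_sound good2 (by norm_num) (by norm_num) (by norm_num) r59 t59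

theorem r61 : St 7868153 2014624555463 20228 265738 :=
  chk_sound good2 (by norm_num) (by norm_num) (by norm_num) r60 t60

theorem r62 : St 7999027 2080075524931 20517 269863 :=
  chk_sound good2 (by norm_num) (by norm_num) (by norm_num) r61 t61

theorem r63 : St 8129939 2146189736659 20800 273962 :=
  chk_sound good2 (by norm_num) (by norm_num) (by norm_num) r62 t62

theorem r64 : St 8260723 2213523206733 21091 278070 :=
  chk_sound good2 (by norm_num) (by norm_num) (by norm_num) r63 t63

theorem r65 : St 8391509 2281897397567 21374 282176 :=
  chk_sound good2 (by norm_num) (by norm_num) (by norm_num) r64 t64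

theorem r66 : St 8522309 2351094227789 21665 286267 :=
  chk_sound good2 (by norm_num) (by norm_num) (by norm_num) r65 t65

theorem r67 : St 8653093 2421820809983 21957 290385 :=
  chk_sound good2 (by norm_num) (by norm_num) (by norm_num) r66 t66

theorem r68 : St 8783963 2493662031745 22221 294505 :=
  chk_sound good2 (by norm_num) (by norm_num) (by norm_num) r67 t67

theorem r69 : St 8914679 2565501381001 22515 298564 :=
  chk_sound good2 (by norm_num) (by norm_num) (by norm_num) r68 t68

theorem r70 : St 9045497 2638632808643 22797 302636 :=
  chk_sound good2 (by norm_num) (by norm_num) (by norm_num) r69 t69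

theorem r71 : St 9176435 2712905629113 23091 306712 :=
  chk_sound good2 (by norm_num) (by norm_num) (by norm_num) r70 t70

theorem r72 : St 9307357 2788742902883 23384 310815 :=
  chk_sound good2 (by norm_num) (by norm_num) (by norm_num) r71 t71

theorem r73 : St 9438263 2864810252239 23644 314873 :=
  chk_sound good2 (by norm_num) (by norm_num) (by norm_num) r72 t72

theorem r74 : St 9569093 2942074351463 23915 318938 :=
  chk_sound good2 (by norm_num) (by norm_num) (by norm_num) r73 t73

theorem r75 : St 9699843 3020745985431 24200 323021 :=
  chk_sound good2 (by norm_num) (by norm_num) (by norm_num) r74 t74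

theorem r76 : St 9830609 3100176822499 24483 327088 :=
  chk_sound good2 (by norm_num) (by norm_num) (by norm_num) r75 t75

theorem r77 : St 9961539 3179880373367 24748 331115 :=
  chk_sound good2 (by norm_num) (by norm_num) (by norm_num) r76 t76

theorem r78 : St 10092343 3261160216607 25011 335168 :=
  chk_sound good2 (by norm_num) (by norm_num) (by norm_num) r77 t77

theorem r79 : St 10223127 3343008739757 25312 339197 :=
  chk_sound good2 (by norm_num) (by norm_num) (by norm_num) r78 t78

theorem r80 : St 10353903 3426467345539 25600 343253 :=
  chk_sound good2 (by norm_num) (by norm_num) (by norm_num) r79 t79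

theorem r81 : St 10484737 3511342997445 25879 347326 :=
  chk_sound good2 (by norm_num) (by norm_num) (by norm_num) r80 t80

theorem r82 : St 10615523 3596713618333 26133 351372 :=
  chk_sound good2 (by norm_num) (by norm_num) (by norm_num) r81 t81

theorem r83 : St 10746311 3683505505741 26408 355435 :=
  chk_sound good2 (by norm_num) (by norm_num) (by norm_num) r82 t82

theorem r84 : St 10877033 3770627703157 26698 359464 :=
  chk_sound good2 (by norm_num) (by norm_num) (by norm_num) r83 t83

theorem r85 : St 11007863 3858954916897 26986 363500 :=
  chk_sound good2 (by norm_num) (by norm_num) (by norm_num) r84 t84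

theorem r86 : St 11138761 3948182454051 27257 367529 :=
  chk_sound good2 (by norm_num) (by norm_num) (by norm_num) r85 t85

theorem r87 : St 11269607 4038709539371 27549 371569 :=
  chk_sound good2 (by norm_num) (by norm_num) (by norm_num) r86 t86

theorem r88 : St 11400473 4129548107417 27811 375576 :=
  chk_sound good2 (by norm_num) (by norm_num) (by norm_num) r87 t87

theorem r89 : St 11531269 4221939943379 28089 379605 :=
  chk_sound good2 (by norm_num) (by norm_num) (by norm_num) r88 t88

theorem r90 : St 11661911 4315894741227 28359 383656 :=
  chk_sound good2 (by norm_num) (by norm_num) (by norm_num) r89 t89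

theorem r91 : St 11792731 4409855795913 28639 387662 :=
  chk_sound good2 (by norm_num) (by norm_num) (by norm_num) r90 t90

theorem r92 : St 11923569 4505053398917 28917 391676 :=
  chk_sound good2 (by norm_num) (by norm_num) (by norm_num) r91 t91

theorem r93 : St 12054483 4601323014391 29201 395691 :=
  chk_sound good2 (by norm_num) (by norm_num) (by norm_num) r92 t92

theorem r94 : St 12185295 4698402555229 29490 399696 :=
  chk_sound good2 (by norm_num) (by norm_num) (by norm_num) r93 t93

theorem r95 : St 12316113 4797121054881 29754 403725 :=
  chk_sound good2 (by norm_num) (by norm_num) (by norm_num) r94 t94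

theorem r96 : St 12446893 4896619885659 30026 407743 :=
  chk_sound good2 (by norm_num) (by norm_num) (by norm_num) r95 t95

theorem r97 : St 12577807 4996117812135 30282 411719 :=
  chk_sound good2 (by norm_num) (by norm_num) (by norm_num) r96 t96

theorem r98 : St 12708551 5097235996235 30553 415718 :=
  chk_sound good2 (by norm_num) (by norm_num) (by norm_num) r97 t97

theorem r99 : St 12839357 5200319204927 30839 419753 :=
  chk_sound good2 (by norm_num) (by norm_num) (by norm_num) r98 t98

theorem r100 : St 12970277 5302756976153 31129 423722 :=
  chk_sound good2 (by norm_num) (by norm_num) (by norm_num) r99 t99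

theorem r101 : St 13101207 5405815534773 31414 427675 :=
  chk_sound good2 (by norm_num) (by norm_num) (by norm_num) r100 t100

theorem r102 : St 13232041 5511333458123 31677 431682 :=
  chk_sound good2 (by norm_num) (by norm_num) (by norm_num) r101 t101

theorem r103 : St 13362859 5617182917123 31957 435662 :=
  chk_sound good2 (by norm_num) (by norm_num) (by norm_num) r102 t102

theorem r104 : St 13493683 5723749018893 32203 439630 :=
  chk_sound good2 (by norm_num) (by norm_num) (by norm_num) r103 t103

theorem r105 : St 13624535 5831627383823 32472 443608 :=
  chk_sound good2 (by norm_num) (by norm_num) (by norm_num) r104 t104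

theorem r106 : St 13755277 5941201387175 32765 447610 :=
  chk_sound good2 (by norm_num) (by norm_num) (by norm_num) r105 t105

theorem r107 : St 13886189 6051520646183 33043 451601 :=
  chk_sound good2 (by norm_num) (by norm_num) (by norm_num) r106 t106

theorem r108 : St 14017009 6161679422455 33302 455549 :=
  chk_sound good2 (by norm_num) (by norm_num) (by norm_num) r107 t107

theorem r109 : St 14147827 6273973002945 33596 459536 :=
  chk_sound good2 (by norm_num) (by norm_num) (by norm_num) r108 t108

theorem r110 : St 14278687 6386630121915 33878 463499 :=
  chk_sound good2 (by norm_num) (by norm_num) (by norm_num) r109 t109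

theorem r111 : St 14409487 6501440887135 34157 467501 :=
  chk_sound good2 (by norm_num) (by norm_num) (by norm_num) r110 t110

theorem r112 : St 14540237 6615647557775 34407 471446 :=
  chk_sound good2 (by norm_num) (by norm_num) (by norm_num) r111 t111

theorem r113 : St 14670999 6731088631289 34674 475398 :=
  chk_sound good2 (by norm_num) (by norm_num) (by norm_num) r112 t112

theorem r114 : St 14801805 6848448785803 34928 479380 :=
  chk_sound good2 (by norm_num) (by norm_num) (by norm_num) r113 t113

theorem r115 : St 14932721 6965749422387 35188 483325 :=
  chk_sound good2 (by norm_num) (by norm_num) (by norm_num) r114 t114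

theorem r116 : St 15063661 7084415388465 35444 487281 :=
  chk_sound good2 (by norm_num) (by norm_num) (by norm_num) r115 t115

theorem r117 : St 15194449 7203723001879 35735 491224 :=
  chk_sound good2 (by norm_num) (by norm_num) (by norm_num) r116 t116

theorem r118 : St 15325339 7324918051617 35990 495195 :=
  chk_sound good2 (by norm_num) (by norm_num) (by norm_num) r117 t117

theorem r119 : St 15456253 7445366611869 36254 499108 :=
  chk_sound good2 (by norm_num) (by norm_num) (by norm_num) r118 t118

theorem r120 : St 15587227 7569199513321 36520 503097 :=
  chk_sound good2 (by norm_num) (by norm_num) (by norm_num) r119 t119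

theorem r121 : St 15718019 7693231320357 36768 507059 :=
  chk_sound good2 (by norm_num) (by norm_num) (by norm_num) r120 t120

theorem r122 : St 15848923 7817260051529 37046 510988 :=
  chk_sound good2 (by norm_num) (by norm_num) (by norm_num) r121 t121

theorem r123 : St 15979711 7943298639947 37338 514948 :=
  chk_sound good2 (by norm_num) (by norm_num) (by norm_num) r122 t122

theorem r124 : St 16110533 8069123643027 37638 518869 :=
  chk_sound good2 (by norm_num) (by norm_num) (by norm_num) r123 t123

theorem r125 : St 16241439 8197076749987 37890 522824 :=
  chk_sound good2 (by norm_num) (by norm_num) (by norm_num) r124 t124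

theorem r126 : St 16372333 8324693018867 38174 526737 :=
  chk_sound good2 (by norm_num) (by norm_num) (by norm_num) r125 t125

theorem r127 : St 16503065 8454683181073 38488 530691 :=
  chk_sound good2 (by norm_num) (by norm_num) (by norm_num) r126 t126

theorem r128 : St 16633753 8584482392149 38750 534608 :=
  chk_sound good2 (by norm_num) (by norm_num) (by norm_num) r127 t127

theorem r129 : St 16764661 8716440119833 39048 538559 :=
  chk_sound good2 (by norm_num) (by norm_num) (by norm_num) r128 t128

theorem r130 : St 16895561 8848723222615 39302 542489 :=
  chk_sound good2 (by norm_num) (by norm_num) (by norm_num) r129 t129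

theorem r131 : St 17026511 8983597665813 39552 546465 :=
  chk_sound good2 (by norm_num) (by norm_num) (by norm_num) r130 t130

theorem r132 : St 17157289 9117391902143 39821 550379 :=
  chk_sound good2 (by norm_num) (by norm_num) (by norm_num) r131 t131

theorem r133 : St 17288135 9251559379643 40089 554274 :=
  chk_sound good2 (by norm_num) (by norm_num) (by norm_num) r132 t132

theorem r134 : St 17419055 9389693086225 40354 558254 :=
  chk_sound good2 (by norm_num) (by norm_num) (by norm_num) r133 t133

theorem r135 : St 17549963 9527752810519 40627 562202 :=
  chk_sound good2 (by norm_num) (by norm_num) (by norm_num) r134 t134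

theorem r136 : St 17680643 9664939126235 40860 566096 :=
  chk_sound good2 (by norm_num) (by norm_num) (by norm_num) r135 t135

theorem r137 : St 17811439 9804211558545 41139 570020 :=
  chk_sound good2 (by norm_num) (by norm_num) (by norm_num) r136 t136

theorem r138 : St 17942369 9943869064183 41410 573926 :=
  chk_sound good2 (by norm_num) (by norm_num) (by norm_num) r137 t137

theorem r139 : St 18073295 10084937169237 41642 577843 :=
  chk_sound good2 (by norm_num) (by norm_num) (by norm_num) r138 t138

theorem r140 : St 18204029 10225582554677 41910 581720 :=
  chk_sound good2 (by norm_num) (by norm_num) (by norm_num) r139 t139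

theorem r141 : St 18334899 10370677415681 42181 585691 :=
  chk_sound good2 (by norm_num) (by norm_num) (by norm_num) r140 t140

theorem r142 : St 18465679 10513612961911 42423 589575 :=
  chk_sound good2 (by norm_num) (by norm_num) (by norm_num) r141 t141

theorem r143 : St 18596525 10658160138739 42686 593475 :=
  chk_sound good2 (by norm_num) (by norm_num) (by norm_num) r142 t142

theorem r144 : St 18727349 10803721549955 42946 597375 :=
  chk_sound good2 (by norm_num) (by norm_num) (by norm_num) r143 t143

theorem r145 : St 18858295 10951168647815 43214 601298 :=
  chk_sound good2 (by norm_num) (by norm_num) (by norm_num) r144 t144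

theorem r146 : St 18989071 11098850923865 43472 605200 :=
  chk_sound good2 (by norm_num) (by norm_num) (by norm_num) r145 t145

theorem r147 : St 19119903 11246675391695 43722 609079 :=
  chk_sound good2 (by norm_num) (by norm_num) (by norm_num) r146 t146

theorem r148 : St 19250653 11396050892605 43995 612972 :=
  chk_sound good2 (by norm_num) (by norm_num) (by norm_num) r147 t147

theorem r149 : St 19381423 11547025367573 44259 616880 :=
  chk_sound good2 (by norm_num) (by norm_num) (by norm_num) r148 t148

theorem r150 : St 19512281 11698785131603 44515 620782 :=
  chk_sound good2 (by norm_num) (by norm_num) (by norm_num) r149 t149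

theorem r151 : St 19643089 11850396761519 44801 624654 :=
  chk_sound good2 (by norm_num) (by norm_num) (by norm_num) r150 t150

theorem r152 : St 19773903 12004282952191 45055 628558 :=
  chk_sound good2 (by norm_num) (by norm_num) (by norm_num) r151 t151

theorem r153 : St 19904687 12158431876933 45295 632443 :=
  chk_sound good2 (by norm_num) (by norm_num) (by norm_num) r152 t152

theorem r154 : St 20035531 12315436144581 45573 636374 :=
  chk_sound good2 (by norm_num) (by norm_num) (by norm_num) r153 t153

theorem r155 : St 20166353 12471298674913 45821 640251 :=
  chk_sound good2 (by norm_num) (by norm_num) (by norm_num) r154 t154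

theorem r156 : St 20297213 12627891008759 46108 644121 :=
  chk_sound good2 (by norm_num) (by norm_num) (by norm_num) r155 t155

theorem r157 : St 20428069 12785944712883 46379 648002 :=
  chk_sound good2 (by norm_num) (by norm_num) (by norm_num) r156 t156

theorem r158 : St 20558861 12944647531191 46634 651874 :=
  chk_sound good2 (by norm_num) (by norm_num) (by norm_num) r157 t157

theorem r159 : St 20689703 13105972595729 46902 655785 :=
  chk_sound good2 (by norm_num) (by norm_num) (by norm_num) r158 t158

theorem r160 : St 20820491 13266655910007 47178 659656 :=
  chk_sound good2 (by norm_num) (by norm_num) (by norm_num) r159 t159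

theorem r161 : St 20951345 13428436987033 47446 663529 :=
  chk_sound good2 (by norm_num) (by norm_num) (by norm_num) r160 t160

theorem r162 : St 21082215 13592241036597 47709 667426 :=
  chk_sound good2 (by norm_num) (by norm_num) (by norm_num) r161 t161

theorem r163 : St 21213041 13754992896987 47942 671274 :=
  chk_sound good2 (by norm_num) (by norm_num) (by norm_num) r162 t162

theorem r164 : St 21343755 13920539497063 48198 675164 :=
  chk_sound good2 (by norm_num) (by norm_num) (by norm_num) r163 t163

theorem r165 : St 21474641 14087191543511 48481 679056 :=
  chk_sound good2 (by norm_num) (by norm_num) (by norm_num) r164 t164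

theorem r166 : St 21605611 14253698466579 48750 682921 :=
  chk_sound good2 (by norm_num) (by norm_num) (by norm_num) r165 t165

theorem r167 : St 21736457 14421649134823 48999 686796 :=
  chk_sound good2 (by norm_num) (by norm_num) (by norm_num) r166 t166

theorem r168 : St 21867317 14590960935829 49247 690679 :=
  chk_sound good2 (by norm_num) (by norm_num) (by norm_num) r167 t167

theorem r169 : St 21998175 14761815150241 49492 694574 :=
  chk_sound good2 (by norm_num) (by norm_num) (by norm_num) r168 t168

theorem r170 : St 22128983 14931745609193 49747 698425 :=
  chk_sound good2 (by norm_num) (by norm_num) (by norm_num) r169 t169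

theorem r171 : St 22259899 15101709688409 49983 702254 :=
  chk_sound good2 (by norm_num) (by norm_num) (by norm_num) r170 t170

theorem r172 : St 22390729 15273657578691 50249 706105 :=
  chk_sound good2 (by norm_num) (by norm_num) (by norm_num) r171 t171

theorem r173 : St 22521377 15446570314515 50491 709955 :=
  chk_sound good2 (by norm_num) (by norm_num) (by norm_num) r172 t172

theorem r174 : St 22652233 15621977005381 50754 713838 :=
  chk_sound good2 (by norm_num) (by norm_num) (by norm_num) r173 t173

theorem r175 : St 22783107 15798037864063 51012 717713 :=
  chk_sound good2 (by norm_num) (by norm_num) (by norm_num) r174 t174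

theorem r176 : St 22913983 15974567384381 51244 721576 :=
  chk_sound good2 (by norm_num) (by norm_num) (by norm_num) r175 t175

theorem r177 : St 23044861 16152934606635 51500 725457 :=
  chk_sound good2 (by norm_num) (by norm_num) (by norm_num) r176 t176

theorem r178 : St 23175767 16331626746123 51736 729323 :=
  chk_sound good2 (by norm_num) (by norm_num) (by norm_num) r177 t177

theorem r179 : St 23306683 16510496399263 51972 733171 :=
  chk_sound good2 (by norm_num) (by norm_num) (by norm_num) r178 t178

theorem r180 : St 23437559 16689804968371 52225 737007 :=
  chk_sound good2 (by norm_num) (by norm_num) (by norm_num) r179 t179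

theorem r181 : St 23568463 16871575148197 52453 740874 :=
  chk_sound good2 (by norm_num) (by norm_num) (by norm_num) r180 t180

theorem r182 : St 23699221 17053839938433 52719 744730 :=
  chk_sound good2 (by norm_num) (by norm_num) (by norm_num) r181 t181

theorem r183 : St 23830101 17236069401463 52972 748564 :=
  chk_sound good2 (by norm_num) (by norm_num) (by norm_num) r182 t182

theorem r184 : St 23960971 17419635914089 53221 752405 :=
  chk_sound good2 (by norm_num) (by norm_num) (by norm_num) r183 t183

theorem r185 : St 24091863 17605503953203 53455 756273 :=
  chk_sound good2 (by norm_num) (by norm_num) (by norm_num) r184 t184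

theorem r186 : St 24222767 17791275778279 53728 760118 :=
  chk_sound good2 (by norm_num) (by norm_num) (by norm_num) r185 t185

theorem r187 : St 24353559 17979215336741 53991 763987 :=
  chk_sound good2 (by norm_num) (by norm_num) (by norm_num) r186 t186

theorem r188 : St 24484387 18166848753327 54244 767829 :=
  chk_sound good2 (by norm_num) (by norm_num) (by norm_num) r187 t187

theorem r189 : St 24615301 18355488119225 54489 771671 :=
  chk_sound good2 (by norm_num) (by norm_num) (by norm_num) r188 t188

theorem r190 : St 24746303 18546714659509 54751 775545 :=
  chk_sound good2 (by norm_num) (by norm_num) (by norm_num) r189 t189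

theorem r191 : St 24877133 18737219769841 55018 779384 :=
  chk_sound good2 (by norm_num) (by norm_num) (by norm_num) r190 t190

theorem r192 : St 25007929 18927933093531 55257 783207 :=
  chk_sound good2 (by norm_num) (by norm_num) (by norm_num) r191 t191

theorem r193 : St 25138823 19121149798935 55512 787060 :=
  chk_sound good2 (by norm_num) (by norm_num) (by norm_num) r192 t192

theorem r194 : St 25269693 19311241592545 55788 790831 :=
  chk_sound good2 (by norm_num) (by norm_num) (by norm_num) r193 t193

theorem r195 : St 25400527 19506169879977 56080 794678 :=
  chk_sound good2 (by norm_num) (by norm_num) (by norm_num) r194 t194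

theorem r196 : St 25531409 19701087836337 56341 798505 :=
  chk_sound good2 (by norm_num) (by norm_num) (by norm_num) r195 t195

theorem r197 : St 25662361 19897824557633 56591 802348 :=
  chk_sound good2 (by norm_num) (by norm_num) (by norm_num) r196 t196

theorem r198 : St 25793171 20095312625301 56829 806186 :=
  chk_sound good2 (by norm_num) (by norm_num) (by norm_num) r197 t197

theorem r199 : St 25924041 20294163286679 57076 810031 :=
  chk_sound good2 (by norm_num) (by norm_num) (by norm_num) r198 t198

theorem r200 : St 26054891 20493449411191 57297 813865 :=
  chk_sound good2 (by norm_num) (by norm_num) (by norm_num) r199 t199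

theorem r201 : St 26185649 20693320607473 57512 817691 :=
  chk_sound good2 (by norm_num) (by norm_num) (by norm_num) r200 t200

theorem r202 : St 26316557 20893617518133 57742 821506 :=
  chk_sound good2 (by norm_num) (by norm_num) (by norm_num) r201 t201

theorem r203 : St 26447421 21095965547637 57975 825341 :=
  chk_sound good2 (by norm_num) (by norm_num) (by norm_num) r202 t202

theorem r204 : St 26578339 21300802381679 58209 829204 :=
  chk_sound good2 (by norm_num) (by norm_num) (by norm_num) r203 t203

theorem r205 : St 26709187 21504893684921 58450 833034 :=
  chk_sound good2 (by norm_num) (by norm_num) (by norm_num) r204 t204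

theorem r206 : St 26839903 21708006758703 58711 836827 :=
  chk_sound good2 (by norm_num) (by norm_num) (by norm_num) r205 t205

theorem r207 : St 26970509 21914800604089 58982 840670 :=
  chk_sound good2 (by norm_num) (by norm_num) (by norm_num) r206 t206

theorem r208 : St 27101233 22122547452443 59259 844512 :=
  chk_sound good2 (by norm_num) (by norm_num) (by norm_num) r207 t207

theorem r209 : St 27232097 22329721286083 59499 848325 :=
  chk_sound good2 (by norm_num) (by norm_num) (by norm_num) r208 t208

theorem r210 : St 27362947 22536748336671 59766 852117 :=
  chk_sound good2 (by norm_num) (by norm_num) (by norm_num) r209 t209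

theorem r211 : St 27493751 22745971383065 60014 855931 :=
  chk_sound good2 (by norm_num) (by norm_num) (by norm_num) r210 t210

theorem r212 : St 27624663 22957957188277 60264 859777 :=
  chk_sound good2 (by norm_num) (by norm_num) (by norm_num) r211 t211

theorem r213 : St 27755515 23170287851677 60500 863611 :=
  chk_sound good2 (by norm_num) (by norm_num) (by norm_num) r212 t212

theorem r214 : St 27886365 23380728458445 60737 867393 :=
  chk_sound good2 (by norm_num) (by norm_num) (by norm_num) r213 t213

theorem r215 : St 28017105 23595005928501 60963 871226 :=
  chk_sound good2 (by norm_num) (by norm_num) (by norm_num) r214 t214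

theorem r216 : St 28148077 23809332825381 61211 875042 :=
  chk_sound good2 (by norm_num) (by norm_num) (by norm_num) r215 t215

theorem r217 : St 28278893 24025169636163 61452 878867 :=
  chk_sound good2 (by norm_num) (by norm_num) (by norm_num) r216 t216

theorem r218 : St 28409789 24240471808575 61687 882665 :=
  chk_sound good2 (by norm_num) (by norm_num) (by norm_num) r217 t217

theorem r219 : St 28540715 24458479120911 61944 886493 :=
  chk_sound good2 (by norm_num) (by norm_num) (by norm_num) r218 t218

theorem r220 : St 28671615 24676687062863 62171 890307 :=
  chk_sound good2 (by norm_num) (by norm_num) (by norm_num) r219 t219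

theorem r221 : St 28802375 24894513506345 62427 894097 :=
  chk_sound good2 (by norm_num) (by norm_num) (by norm_num) r220 t220

theorem r222 : St 28933161 25114373072195 62657 897905 :=
  chk_sound good2 (by norm_num) (by norm_num) (by norm_num) r221 t221

theorem r223 : St 29064003 25333951240297 62892 901691 :=
  chk_sound good2 (by norm_num) (by norm_num) (by norm_num) r222 t222

theorem r224 : St 29194929 25554927332891 63151 905484 :=
  chk_sound good2 (by norm_num) (by norm_num) (by norm_num) r223 t223

theorem r225 : St 29325763 25778303640921 63417 909301 :=
  chk_sound good2 (by norm_num) (by norm_num) (by norm_num) r224 t224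

theorem r226 : St 29456587 26000790874545 63664 913086 :=
  chk_sound good2 (by norm_num) (by norm_num) (by norm_num) r225 t225

theorem r227 : St 29587403 26225039145563 63905 916884 :=
  chk_sound good2 (by norm_num) (by norm_num) (by norm_num) r226 t226

theorem r228 : St 29718375 26452774782517 64152 920724 :=
  chk_sound good2 (by norm_num) (by norm_num) (by norm_num) r227 t227

theorem r229 : St 29849089 26676808965659 64374 924485 :=
  chk_sound good2 (by norm_num) (by norm_num) (by norm_num) r228 t228

theorem r230 : St 29979919 26907567678735 64632 928342 :=
  chk_sound good2 (by norm_num) (by norm_num) (by norm_num) r229 t229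

theorem r231 : St 30110813 27137594017549 64863 932170 :=
  chk_sound good2 (by norm_num) (by norm_num) (by norm_num) r230 t230

theorem r232 : St 30241733 27367839372147 65131 935985 :=
  chk_sound good2 (by norm_num) (by norm_num) (by norm_num) r231 t231

theorem r233 : St 30372609 27599205087021 65390 939802 :=
  chk_sound good2 (by norm_num) (by norm_num) (by norm_num) r232 t232

theorem r234 : St 30503489 27827855167069 65640 943558 :=
  chk_sound good2 (by norm_num) (by norm_num) (by norm_num) r233 t233

theorem r235 : St 30634211 28061522410325 65915 947380 :=
  chk_sound good2 (by norm_num) (by norm_num) (by norm_num) r234 t234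

theorem r236 : St 30765017 28295633779351 66168 951193 :=
  chk_sound good2 (by norm_num) (by norm_num) (by norm_num) r235 t235

theorem r237 : St 30895741 28530316412017 66411 954999 :=
  chk_sound good2 (by norm_num) (by norm_num) (by norm_num) r236 t236

theorem r238 : St 31026523 28763577552869 66622 958766 :=
  chk_sound good2 (by norm_num) (by norm_num) (by norm_num) r237 t237

theorem r239 : St 31157297 28997890439049 66890 962534 :=
  chk_sound good2 (by norm_num) (by norm_num) (by norm_num) r238 t238

theorem r240 : St 31288059 29233626100547 67137 966309 :=
  chk_sound good2 (by norm_num) (by norm_num) (by norm_num) r239 t239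

theorem r241 : St 31418921 29471222454989 67387 970098 :=
  chk_sound good2 (by norm_num) (by norm_num) (by norm_num) r240 t240

theorem r242 : St 31549801 29706599438913 67593 973836 :=
  chk_sound good2 (by norm_num) (by norm_num) (by norm_num) r241 t241

theorem r243 : St 31680661 29948707861979 67832 977665 :=
  chk_sound good2 (by norm_num) (by norm_num) (by norm_num) r242 t242

theorem r244 : St 31811399 30187948458309 68074 981433 :=
  chk_sound good2 (by norm_num) (by norm_num) (by norm_num) r243 t243

theorem r245 : St 31942271 30429955760113 68320 985229 :=
  chk_sound good2 (by norm_num) (by norm_num) (by norm_num) r244 t244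

theorem r246 : St 32073053 30671741420647 68547 989006 :=
  chk_sound good2 (by norm_num) (by norm_num) (by norm_num) r245 t245

theorem r247 : St 32203839 30915348921915 68781 992796 :=
  chk_sound good2 (by norm_num) (by norm_num) (by norm_num) r246 t246

theorem r248 : St 32334557 31159241157969 69038 996575 :=
  chk_sound good2 (by norm_num) (by norm_num) (by norm_num) r247 t247

theorem r249 : St 32465437 31404572979155 69284 1000361 :=
  chk_sound good2 (by norm_num) (by norm_num) (by norm_num) r248 t248

theorem r250 : St 32596231 31652783553059 69546 1004176 :=
  chk_sound good2 (by norm_num) (by norm_num) (by norm_num) r249 t249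

theorem r251 : St 32727183 31899446151979 69757 1007952 :=
  chk_sound good2 (by norm_num) (by norm_num) (by norm_num) r250 t250

theorem r252 : St 32858009 32146046611599 70005 1011712 :=
  chk_sound good2 (by norm_num) (by norm_num) (by norm_num) r251 t251

theorem r253 : St 32988797 32396529626271 70262 1015516 :=
  chk_sound good2 (by norm_num) (by norm_num) (by norm_num) r252 t252

theorem r254 : St 33119399 32644172851015 70507 1019262 :=
  chk_sound good2 (by norm_num) (by norm_num) (by norm_num) r253 t253

theorem r255 : St 33250319 32895714271641 70759 1023052 :=
  chk_sound good2 (by norm_num) (by norm_num) (by norm_num) r254 t254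

theorem r256 : St 33381041 33148846796947 70987 1026851 :=
  chk_sound good2 (by norm_num) (by norm_num) (by norm_num) r255 t255

theorem r257 : St 33511729 33401365305905 71222 1030626 :=
  chk_sound good2 (by norm_num) (by norm_num) (by norm_num) r256 t256

theorem r258 : St 33642615 33653328546003 71452 1034378 :=
  chk_sound good2 (by norm_num) (by norm_num) (by norm_num) r257 t257

theorem r259 : St 33773501 33909375863975 71691 1038176 :=
  chk_sound good2 (by norm_num) (by norm_num) (by norm_num) r258 t258

theorem r260 : St 33904411 34165604347595 71924 1041962 :=
  chk_sound good2 (by norm_num) (by norm_num) (by norm_num) r259 t259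

theorem r261 : St 34035341 34419359874341 72171 1045697 :=
  chk_sound good2 (by norm_num) (by norm_num) (by norm_num) r260 t260

theorem r262 : St 34166219 34674295968271 72396 1049435 :=
  chk_sound good2 (by norm_num) (by norm_num) (by norm_num) r261 t261

theorem r263 : St 34297089 34931309114157 72619 1053189 :=
  chk_sound good2 (by norm_num) (by norm_num) (by norm_num) r262 t262

theorem r264 : St 34427915 35187449488387 72870 1056916 :=
  chk_sound good2 (by norm_num) (by norm_num) (by norm_num) r263 t263

theorem r265 : St 34558713 35448770747527 73128 1060704 :=
  chk_sound good2 (by norm_num) (by norm_num) (by norm_num) r264 t264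

theorem r266 : St 34689547 35707341893559 73347 1064438 :=
  chk_sound good2 (by norm_num) (by norm_num) (by norm_num) r265 t265

theorem r267 : St 34820287 35968560897139 73597 1068196 :=
  chk_sound good2 (by norm_num) (by norm_num) (by norm_num) r266 t266

theorem r268 : St 34951113 36232366576097 73809 1071977 :=
  chk_sound good2 (by norm_num) (by norm_num) (by norm_num) r267 t267

theorem r269 : St 35081909 36494217541401 74066 1075716 :=
  chk_sound good2 (by norm_num) (by norm_num) (by norm_num) r268 t268

theorem r270 : St 35212733 36759227589377 74303 1079486 :=
  chk_sound good2 (by norm_num) (by norm_num) (by norm_num) r269 t269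

theorem r271 : St 35343589 37026000586217 74526 1083267 :=
  chk_sound good2 (by norm_num) (by norm_num) (by norm_num) r270 t270

theorem r272 : St 35474357 37292559313947 74742 1087031 :=
  chk_sound good2 (by norm_num) (by norm_num) (by norm_num) r271 t271

theorem r273 : St 35605261 37559463307985 74977 1090786 :=
  chk_sound good2 (by norm_num) (by norm_num) (by norm_num) r272 t272

theorem r274 : St 35736143 37827777064849 75224 1094547 :=
  chk_sound good2 (by norm_num) (by norm_num) (by norm_num) r273 t273

theorem r275 : St 35866973 38097646576391 75465 1098316 :=
  chk_sound good2 (by norm_num) (by norm_num) (by norm_num) r274 t274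

theorem r276 : St 35997797 38366998459967 75685 1102064 :=
  chk_sound good2 (by norm_num) (by norm_num) (by norm_num) r275 t275

theorem r277 : St 36128595 38639275277175 75929 1105839 :=
  chk_sound good2 (by norm_num) (by norm_num) (by norm_num) r276 t276

theorem r278 : St 36259357 38910226623105 76161 1109582 :=
  chk_sound good2 (by norm_num) (by norm_num) (by norm_num) r277 t277

theorem r279 : St 36390191 39185275977141 76384 1113368 :=
  chk_sound good2 (by norm_num) (by norm_num) (by norm_num) r278 t278

theorem r280 : St 36520903 39458694713937 76612 1117118 :=
  chk_sound good2 (by norm_num) (by norm_num) (by norm_num) r279 t279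

theorem r281 : St 36651697 39732506340557 76824 1120860 :=
  chk_sound good2 (by norm_num) (by norm_num) (by norm_num) r280 t280

theorem r282 : St 36782549 40008181442089 77060 1124614 :=
  chk_sound good2 (by norm_num) (by norm_num) (by norm_num) r281 t281

theorem r283 : St 36913363 40279672601157 77288 1128298 :=
  chk_sound good2 (by norm_num) (by norm_num) (by norm_num) r282 t282

theorem r284 : St 37044043 40559896074125 77542 1132087 :=
  chk_sound good2 (by norm_num) (by norm_num) (by norm_num) r283 t283

theorem r285 : St 37174877 40840813683085 77803 1135872 :=
  chk_sound good2 (by norm_num) (by norm_num) (by norm_num) r284 t284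

theorem r286 : St 37305677 41117655829677 78044 1139589 :=
  chk_sound good2 (by norm_num) (by norm_num) (by norm_num) r285 t285

theorem r287 : St 37436579 41399357830291 78270 1143358 :=
  chk_sound good2 (by norm_num) (by norm_num) (by norm_num) r286 t286

theorem r288 : St 37567437 41681748689715 78534 1147123 :=
  chk_sound good2 (by norm_num) (by norm_num) (by norm_num) r287 t287

theorem r289 : St 37698233 41963996263501 78767 1150873 :=
  chk_sound good2 (by norm_num) (by norm_num) (by norm_num) r288 t288

theorem r290 : St 37829109 42245334149381 79005 1154598 :=
  chk_sound good2 (by norm_num) (by norm_num) (by norm_num) r289 t289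

theorem r291 : St 37959983 42528631306581 79251 1158336 :=
  chk_sound good2 (by norm_num) (by norm_num) (by norm_num) r290 t290

theorem r292 : St 38090847 42815724385005 79508 1162111 :=
  chk_sound good2 (by norm_num) (by norm_num) (by norm_num) r291 t291

theorem r293 : St 38221637 43102736047239 79742 1165872 :=
  chk_sound good2 (by norm_num) (by norm_num) (by norm_num) r292 t292

theorem r294 : St 38352409 43391494869547 80005 1169643 :=
  chk_sound good2 (by norm_num) (by norm_num) (by norm_num) r293 t293

theorem r295 : St 38483243 43679475661405 80260 1173391 :=
  chk_sound good2 (by norm_num) (by norm_num) (by norm_num) r294 t294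

theorem r296 : St 38614063 43966276341967 80491 1177111 :=
  chk_sound good2 (by norm_num) (by norm_num) (by norm_num) r295 t295

theorem r297 : St 38744833 44257999523951 80712 1180882 :=
  chk_sound good2 (by norm_num) (by norm_num) (by norm_num) r296 t296

theorem r298 : St 38875707 44550552501935 80972 1184651 :=
  chk_sound good2 (by norm_num) (by norm_num) (by norm_num) r297 t297

theorem r299 : St 39006447 44840738177615 81213 1188377 :=
  chk_sound good2 (by norm_num) (by norm_num) (by norm_num) r298 t298

theorem r300 : St 39137299 45133933672651 81442 1192129 :=
  chk_sound good2 (by norm_num) (by norm_num) (by norm_num) r299 t299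

theorem r301 : St 39268133 45426933352717 81667 1195866 :=
  chk_sound good2 (by norm_num) (by norm_num) (by norm_num) r300 t300

theorem r302 : St 39398999 45724840886355 81899 1199653 :=
  chk_sound good2 (by norm_num) (by norm_num) (by norm_num) r301 t301

theorem r303 : St 39529757 46021613113071 82131 1203413 :=
  chk_sound good2 (by norm_num) (by norm_num) (by norm_num) r302 t302

theorem r304 : St 39660629 46319211288211 82386 1207171 :=
  chk_sound good2 (by norm_num) (by norm_num) (by norm_num) r303 t303

theorem r305 : St 39791489 46616441566027 82611 1210912 :=
  chk_sound good2 (by norm_num) (by norm_num) (by norm_num) r304 t304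

theorem r306 : St 39922283 46913137714279 82866 1214634 :=
  chk_sound good2 (by norm_num) (by norm_num) (by norm_num) r305 t305

theorem r307 : St 40053111 47208808021487 83136 1218331 :=
  chk_sound good2 (by norm_num) (by norm_num) (by norm_num) r306 t306

theorem r308 : St 40183909 47509535171993 83353 1222079 :=
  chk_sound good2 (by norm_num) (by norm_num) (by norm_num) r307 t307

theorem r309 : St 40314693 47811326883997 83578 1225828 :=
  chk_sound good2 (by norm_num) (by norm_num) (by norm_num) r308 t308

theorem r310 : St 40445549 48113205252361 83824 1229566 :=
  chk_sound good2 (by norm_num) (by norm_num) (by norm_num) r309 t309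

theorem r311 : St 40576385 48414766372069 84031 1233288 :=
  chk_sound good2 (by norm_num) (by norm_num) (by norm_num) r310 t310

theorem r312 : St 40707223 48717061979307 84260 1237007 :=
  chk_sound good2 (by norm_num) (by norm_num) (by norm_num) r311 t311

theorem r313 : St 40838129 49026198905637 84488 1240798 :=
  chk_sound good2 (by norm_num) (by norm_num) (by norm_num) r312 t312

theorem r314 : St 40968885 49327821461459 84742 1244485 :=
  chk_sound good2 (by norm_num) (by norm_num) (by norm_num) r313 t313

theorem r315 : St 41099679 49635169279633 85000 1248230 :=
  chk_sound good2 (by norm_num) (by norm_num) (by norm_num) r314 t314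

theorem r316 : St 41230537 49942507628971 85220 1251963 :=
  chk_sound good2 (by norm_num) (by norm_num) (by norm_num) r315 t315

theorem r317 : St 41361353 50249834067061 85443 1255684 :=
  chk_sound good2 (by norm_num) (by norm_num) (by norm_num) r316 t316

theorem r318 : St 41492031 50557139019853 85665 1259393 :=
  chk_sound good2 (by norm_num) (by norm_num) (by norm_num) r317 t317

theorem r319 : St 41622889 50864163126893 85918 1263087 :=
  chk_sound good2 (by norm_num) (by norm_num) (by norm_num) r318 t318

theorem r320 : St 41753819 51175326026529 86162 1266819 :=
  chk_sound good2 (by norm_num) (by norm_num) (by norm_num) r319 t319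

theorem r321 : St 41884663 51488717690239 86400 1270566 :=
  chk_sound good2 (by norm_num) (by norm_num) (by norm_num) r320 t320

theorem r322 : St 42015469 51797805623843 86612 1274250 :=
  chk_sound good2 (by norm_num) (by norm_num) (by norm_num) r321 t321

theorem r323 : St 42146363 52111562542975 86847 1277978 :=
  chk_sound good2 (by norm_num) (by norm_num) (by norm_num) r322 t322

theorem r324 : St 42276973 52428319455015 87077 1281730 :=
  chk_sound good2 (by norm_num) (by norm_num) (by norm_num) r323 t323

theorem r325 : St 42407895 52744106033195 87296 1285459 :=
  chk_sound good2 (by norm_num) (by norm_num) (by norm_num) r324 t324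

theorem r326 : St 42538729 53060955566699 87516 1289189 :=
  chk_sound good2 (by norm_num) (by norm_num) (by norm_num) r325 t325

theorem r327 : St 42669499 53378443262785 87768 1292915 :=
  chk_sound good2 (by norm_num) (by norm_num) (by norm_num) r326 t326

theorem r328 : St 42800299 53696136886923 88005 1296632 :=
  chk_sound good2 (by norm_num) (by norm_num) (by norm_num) r327 t327

theorem r329 : St 42931117 54012056164459 88252 1300317 :=
  chk_sound good2 (by norm_num) (by norm_num) (by norm_num) r328 t328

theorem r330 : St 43061987 54329800655887 88485 1304012 :=
  chk_sound good2 (by norm_num) (by norm_num) (by norm_num) r329 t329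

theorem r331 : St 43192833 54652651052067 88744 1307755 :=
  chk_sound good2 (by norm_num) (by norm_num) (by norm_num) r330 t330

theorem r332 : St 43323779 54973454638747 89010 1311463 :=
  chk_sound good2 (by norm_num) (by norm_num) (by norm_num) r331 t331

theorem r333 : St 43454583 55298093018383 89236 1315204 :=
  chk_sound good2 (by norm_num) (by norm_num) (by norm_num) r332 t332

theorem r334 : St 43585459 55624320516311 89451 1318952 :=
  chk_sound good2 (by norm_num) (by norm_num) (by norm_num) r333 t333

theorem r335 : St 43716279 55944195949877 89666 1322616 :=
  chk_sound good2 (by norm_num) (by norm_num) (by norm_num) r334 t334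

theorem r336 : St 43847197 56269582320005 89945 1326332 :=
  chk_sound good2 (by norm_num) (by norm_num) (by norm_num) r335 t335

theorem r337 : St 43978091 56597877359003 90164 1330070 :=
  chk_sound good2 (by norm_num) (by norm_num) (by norm_num) r336 t336

theorem r338 : St 44108923 56923974404067 90366 1333772 :=
  chk_sound good2 (by norm_num) (by norm_num) (by norm_num) r337 t337

theorem r339 : St 44239869 57251572693993 90638 1337480 :=
  chk_sound good2 (by norm_num) (by norm_num) (by norm_num) r338 t338

theorem r340 : St 44370699 57581556845781 90868 1341204 :=
  chk_sound good2 (by norm_num) (by norm_num) (by norm_num) r339 t339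

theorem r341 : St 44501581 57911006302415 91080 1344911 :=
  chk_sound good2 (by norm_num) (by norm_num) (by norm_num) r340 t340

theorem r342 : St 44632437 58244010990283 91311 1348647 :=
  chk_sound good2 (by norm_num) (by norm_num) (by norm_num) r341 t341

theorem r343 : St 44763133 58578173100287 91581 1352385 :=
  chk_sound good2 (by norm_num) (by norm_num) (by norm_num) r342 t342

theorem r344 : St 44894071 58909008039485 91815 1356075 :=
  chk_sound good2 (by norm_num) (by norm_num) (by norm_num) r343 t343

theorem r345 : St 45025021 59243866357897 92062 1359799 :=
  chk_sound good2 (by norm_num) (by norm_num) (by norm_num) r344 t344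

theorem r346 : St 45155983 59579878824283 92300 1363525 :=
  chk_sound good2 (by norm_num) (by norm_num) (by norm_num) r345 t345

theorem r347 : St 45286739 59916781503489 92528 1367250 :=
  chk_sound good2 (by norm_num) (by norm_num) (by norm_num) r346 t346

theorem r348 : St 45417521 60255014400707 92759 1370979 :=
  chk_sound good2 (by norm_num) (by norm_num) (by norm_num) r347 t347

theorem r349 : St 45548305 60595316067579 93007 1374720 :=
  chk_sound good2 (by norm_num) (by norm_num) (by norm_num) r348 t348

theorem r350 : St 45679203 60934591560685 93226 1378439 :=
  chk_sound good2 (by norm_num) (by norm_num) (by norm_num) r349 t349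

theorem r351 : St 45810075 61272551118273 93445 1382133 :=
  chk_sound good2 (by norm_num) (by norm_num) (by norm_num) r350 t350

theorem r352 : St 45940923 61615426119481 93688 1385870 :=
  chk_sound good2 (by norm_num) (by norm_num) (by norm_num) r351 t351

theorem r353 : St 46071639 61955230244397 93922 1389563 :=
  chk_sound good2 (by norm_num) (by norm_num) (by norm_num) r352 t352

theorem r354 : St 46202477 62295908393015 94127 1393255 :=
  chk_sound good2 (by norm_num) (by norm_num) (by norm_num) r353 t353

theorem r355 : St 46333351 62637366410049 94368 1396945 :=
  chk_sound good2 (by norm_num) (by norm_num) (by norm_num) r354 t354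

theorem r356 : St 46464107 62979787838823 94617 1400635 :=
  chk_sound good2 (by norm_num) (by norm_num) (by norm_num) r355 t355

theorem r357 : St 46594951 63324941272469 94854 1404344 :=
  chk_sound good2 (by norm_num) (by norm_num) (by norm_num) r356 t356

theorem r358 : St 46725779 63672650856479 95111 1408070 :=
  chk_sound good2 (by norm_num) (by norm_num) (by norm_num) r357 t357

theorem r359 : St 46856465 64018998281749 95357 1411771 :=
  chk_sound good2 (by norm_num) (by norm_num) (by norm_num) r358 t358

theorem r360 : St 46987219 64366875916135 95624 1415478 :=
  chk_sound good2 (by norm_num) (by norm_num) (by norm_num) r359 t359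

theorem r361 : St 47118073 64713089305661 95872 1419157 :=
  chk_sound good2 (by norm_num) (by norm_num) (by norm_num) r360 t360

theorem r362 : St 47248925 65063188421469 96108 1422867 :=
  chk_sound good2 (by norm_num) (by norm_num) (by norm_num) r361 t361

theorem r363 : St 47379677 65414165440843 96353 1426576 :=
  chk_sound good2 (by norm_num) (by norm_num) (by norm_num) r362 t362

theorem r364 : St 47510523 65765451273691 96602 1430278 :=
  chk_sound good2 (by norm_num) (by norm_num) (by norm_num) r363 t363

theorem r365 : St 47641369 66116181076567 96844 1433964 :=
  chk_sound good2 (by norm_num) (by norm_num) (by norm_num) r364 t364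

theorem r366 : St 47772083 66466446029523 97097 1437635 :=
  chk_sound good2 (by norm_num) (by norm_num) (by norm_num) r365 t365

theorem r367 : St 47902937 66822166275571 97350 1441353 :=
  chk_sound good2 (by norm_num) (by norm_num) (by norm_num) r366 t366

theorem r368 : St 48033663 67174734700647 97576 1445028 :=
  chk_sound good2 (by norm_num) (by norm_num) (by norm_num) r367 t367

theorem r369 : St 48164409 67527494785373 97818 1448695 :=
  chk_sound good2 (by norm_num) (by norm_num) (by norm_num) r368 t368

theorem r370 : St 48295187 67882562631021 98067 1452376 :=
  chk_sound good2 (by norm_num) (by norm_num) (by norm_num) r369 t369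

theorem r371 : St 48426027 68241203090215 98301 1456084 :=
  chk_sound good2 (by norm_num) (by norm_num) (by norm_num) r370 t370

theorem r372 : St 48556805 68598487588385 98509 1459768 :=
  chk_sound good2 (by norm_num) (by norm_num) (by norm_num) r371 t371

theorem r373 : St 48687571 68957610654387 98738 1463461 :=
  chk_sound good2 (by norm_num) (by norm_num) (by norm_num) r372 t372

theorem r374 : St 48818327 69316631364595 98957 1467143 :=
  chk_sound good2 (by norm_num) (by norm_num) (by norm_num) r373 t373

theorem r375 : St 48949155 69678665453157 99189 1470846 :=
  chk_sound good2 (by norm_num) (by norm_num) (by norm_num) r374 t374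

theorem r376 : St 49079923 70038040475115 99426 1474512 :=
  chk_sound good2 (by norm_num) (by norm_num) (by norm_num) r375 t375

theorem r377 : St 49210793 70404470577907 99667 1478240 :=
  chk_sound good2 (by norm_num) (by norm_num) (by norm_num) r376 t376

theorem r378 : St 49341527 70766650960379 99889 1481915 :=
  chk_sound good2 (by norm_num) (by norm_num) (by norm_num) r377 t377

theorem r379 : St 49472299 71132457085745 100123 1485617 :=
  chk_sound good2 (by norm_num) (by norm_num) (by norm_num) r378 t378

theorem r380 : St 49603097 71503591657747 100338 1489363 :=
  chk_sound good2 (by norm_num) (by norm_num) (by norm_num) r379 t379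

theorem r381 : St 49733923 71868654010803 100566 1493038 :=
  chk_sound good2 (by norm_num) (by norm_num) (by norm_num) r380 t380

theorem r382 : St 49864681 72237267676841 100801 1496739 :=
  chk_sound good2 (by norm_num) (by norm_num) (by norm_num) r381 t381

theorem r383 : St 49995461 72606349208671 101024 1500435 :=
  chk_sound good2 (by norm_num) (by norm_num) (by norm_num) r382 t382

theorem r384 : St 50126175 72974999565747 101261 1504117 :=
  chk_sound good2 (by norm_num) (by norm_num) (by norm_num) r383 t383

theorem r385 : St 50256953 73342701806501 101495 1507780 :=
  chk_sound good2 (by norm_num) (by norm_num) (by norm_num) r384 t384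

theorem r386 : St 50387879 73715387119721 101730 1511483 :=
  chk_sound good2 (by norm_num) (by norm_num) (by norm_num) r385 t385

theorem r387 : St 50518817 74088238618509 101964 1515178 :=
  chk_sound good2 (by norm_num) (by norm_num) (by norm_num) r386 t386

theorem r388 : St 50649551 74462357448293 102177 1518876 :=
  chk_sound good2 (by norm_num) (by norm_num) (by norm_num) r387 t387

theorem r389 : St 50780433 74837244166237 102383 1522572 :=
  chk_sound good2 (by norm_num) (by norm_num) (by norm_num) r388 t388

theorem r390 : St 50911291 75212994142803 102630 1526267 :=
  chk_sound good2 (by norm_num) (by norm_num) (by norm_num) r389 t389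

theorem r391 : St 51042107 75584512662325 102869 1529911 :=
  chk_sound good2 (by norm_num) (by norm_num) (by norm_num) r390 t390

theorem r392 : St 51172997 75959946736851 103093 1533584 :=
  chk_sound good2 (by norm_num) (by norm_num) (by norm_num) r391 t391

theorem r393 : St 51303851 76337571163119 103303 1537269 :=
  chk_sound good2 (by norm_num) (by norm_num) (by norm_num) r392 t392

theorem r394 : St 51434689 76720271602151 103544 1540994 :=
  chk_sound good2 (by norm_num) (by norm_num) (by norm_num) r393 t393

theorem r395 : St 51565549 77099316724483 103763 1544674 :=
  chk_sound good2 (by norm_num) (by norm_num) (by norm_num) r394 t394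

theorem r396 : St 51696461 77477666086939 103964 1548338 :=
  chk_sound good2 (by norm_num) (by norm_num) (by norm_num) r395 t395

theorem r397 : St 51827325 77863604977375 104188 1552066 :=
  chk_sound good2 (by norm_num) (by norm_num) (by norm_num) r396 t396

theorem r398 : St 51958093 78246158907507 104426 1555752 :=
  chk_sound good2 (by norm_num) (by norm_num) (by norm_num) r397 t397

theorem r399 : St 52088893 78628845696099 104634 1559430 :=
  chk_sound good2 (by norm_num) (by norm_num) (by norm_num) r398 t398

theorem r400 : St 52219739 79010823986903 104874 1563092 :=
  chk_sound good2 (by norm_num) (by norm_num) (by norm_num) r399 t399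

theorem r401 : St 52350541 79394389120201 105118 1566760 :=
  chk_sound good2 (by norm_num) (by norm_num) (by norm_num) r400 t400

theorem r402 : St 52481301 79779434822953 105336 1570433 :=
  chk_sound good2 (by norm_num) (by norm_num) (by norm_num) r401 t401

theorem r403 : St 52612243 80165969396347 105578 1574111 :=
  chk_sound good2 (by norm_num) (by norm_num) (by norm_num) r402 t402

theorem r404 : St 52743023 80554201769213 105820 1577796 :=
  chk_sound good2 (by norm_num) (by norm_num) (by norm_num) r403 t403

theorem r405 : St 52873833 80944351436891 106036 1581490 :=
  chk_sound good2 (by norm_num) (by norm_num) (by norm_num) r404 t404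

theorem r406 : St 53004623 81332608660671 106244 1585157 :=
  chk_sound good2 (by norm_num) (by norm_num) (by norm_num) r405 t405

theorem r407 : St 53135443 81722567335095 106471 1588831 :=
  chk_sound good2 (by norm_num) (by norm_num) (by norm_num) r406 t406

theorem r408 : St 53266223 82114869342703 106689 1592518 :=
  chk_sound good2 (by norm_num) (by norm_num) (by norm_num) r407 t407

theorem r409 : St 53397149 82507066905625 106929 1596195 :=
  chk_sound good2 (by norm_num) (by norm_num) (by norm_num) r408 t408

theorem r410 : St 53527963 82897556440603 107144 1599847 :=
  chk_sound good2 (by norm_num) (by norm_num) (by norm_num) r409 t409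

theorem r411 : St 53658623 83288897001597 107371 1603498 :=
  chk_sound good2 (by norm_num) (by norm_num) (by norm_num) r410 t410

theorem r412 : St 53789433 83684735007629 107584 1607182 :=
  chk_sound good2 (by norm_num) (by norm_num) (by norm_num) r411 t411

theorem r413 : St 53920319 84081650140401 107812 1610867 :=
  chk_sound good2 (by norm_num) (by norm_num) (by norm_num) r412 t412

theorem r414 : St 54051143 84476826593997 108033 1614527 :=
  chk_sound good2 (by norm_num) (by norm_num) (by norm_num) r413 t413

theorem r415 : St 54181877 84873065122245 108248 1618188 :=
  chk_sound good2 (by norm_num) (by norm_num) (by norm_num) r414 t414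

theorem r416 : St 54312661 85268962233463 108453 1621837 :=
  chk_sound good2 (by norm_num) (by norm_num) (by norm_num) r415 t415

theorem r417 : St 54443573 85667444066835 108667 1625501 :=
  chk_sound good2 (by norm_num) (by norm_num) (by norm_num) r416 t416

theorem r418 : St 54574397 86066232125783 108913 1629159 :=
  chk_sound good2 (by norm_num) (by norm_num) (by norm_num) r417 t417

theorem r419 : St 54705179 86469797434359 109163 1632852 :=
  chk_sound good2 (by norm_num) (by norm_num) (by norm_num) r418 t418

theorem r420 : St 54836005 86870499534647 109392 1636510 :=
  chk_sound good2 (by norm_num) (by norm_num) (by norm_num) r419 t419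

theorem r421 : St 54966739 87271283982519 109603 1640160 :=
  chk_sound good2 (by norm_num) (by norm_num) (by norm_num) r420 t420

theorem r422 : St 55097401 87678632368617 109810 1643861 :=
  chk_sound good2 (by norm_num) (by norm_num) (by norm_num) r421 t421

theorem r423 : St 55228199 88083087516951 110040 1647527 :=
  chk_sound good2 (by norm_num) (by norm_num) (by norm_num) r422 t422

theorem r424 : St 55358939 88486842238843 110253 1651178 :=
  chk_sound good2 (by norm_num) (by norm_num) (by norm_num) r423 t423

theorem r425 : St 55489809 88894100648135 110481 1654852 :=
  chk_sound good2 (by norm_num) (by norm_num) (by norm_num) r424 t424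

theorem r426 : St 55620553 89298767095481 110735 1658494 :=
  chk_sound good2 (by norm_num) (by norm_num) (by norm_num) r425 t425

theorem r427 : St 55751423 89711511942463 110952 1662200 :=
  chk_sound good2 (by norm_num) (by norm_num) (by norm_num) r426 t426

theorem r428 : St 55882337 90121206092873 111177 1665870 :=
  chk_sound good2 (by norm_num) (by norm_num) (by norm_num) r427 t427

theorem r429 : St 56013019 90530185599999 111392 1669525 :=
  chk_sound good2 (by norm_num) (by norm_num) (by norm_num) r428 t428

theorem r430 : St 56143823 90945953601177 111621 1673232 :=
  chk_sound good2 (by norm_num) (by norm_num) (by norm_num) r429 t429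

theorem r431 : St 56274715 91358416135535 111845 1676901 :=
  chk_sound good2 (by norm_num) (by norm_num) (by norm_num) r430 t430

theorem r432 : St 56405617 91769586371925 112030 1680550 :=
  chk_sound good2 (by norm_num) (by norm_num) (by norm_num) r431 t431

theorem r433 : St 56536427 92180473033685 112269 1684188 :=
  chk_sound good2 (by norm_num) (by norm_num) (by norm_num) r432 t432

theorem r434 : St 56667149 92596270533475 112482 1687861 :=
  chk_sound good2 (by norm_num) (by norm_num) (by norm_num) r433 t433

theorem r435 : St 56797759 93017790017109 112714 1691576 :=
  chk_sound good2 (by norm_num) (by norm_num) (by norm_num) r434 t434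

theorem r436 : St 56928633 93432777862909 112941 1695225 :=
  chk_sound good2 (by norm_num) (by norm_num) (by norm_num) r435 t435

theorem r437 : St 57059447 93848605362841 113185 1698873 :=
  chk_sound good2 (by norm_num) (by norm_num) (by norm_num) r436 t436

theorem r438 : St 57190373 94268471104033 113389 1702548 :=
  chk_sound good2 (by norm_num) (by norm_num) (by norm_num) r437 t437

theorem r439 : St 57321299 94691707917195 113623 1706244 :=
  chk_sound good2 (by norm_num) (by norm_num) (by norm_num) r438 t438

theorem r440 : St 57452189 95110971621491 113861 1709897 :=
  chk_sound good2 (by norm_num) (by norm_num) (by norm_num) r439 t439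

theorem r441 : St 57583003 95533496767339 114100 1713570 :=
  chk_sound good2 (by norm_num) (by norm_num) (by norm_num) r440 t440

theorem r442 : St 57713713 95951793914355 114338 1717198 :=
  chk_sound good2 (by norm_num) (by norm_num) (by norm_num) r441 t441

theorem r443 : St 57844529 96372078520601 114563 1720835 :=
  chk_sound good2 (by norm_num) (by norm_num) (by norm_num) r442 t442

theorem r444 : St 57975283 96795978345181 114780 1724495 :=
  chk_sound good2 (by norm_num) (by norm_num) (by norm_num) r443 t443

theorem r445 : St 58106109 97221303351485 115022 1728159 :=
  chk_sound good2 (by norm_num) (by norm_num) (by norm_num) r444 t444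

theorem r446 : St 58237039 97645141965389 115249 1731802 :=
  chk_sound good2 (by norm_num) (by norm_num) (by norm_num) r445 t445

theorem r447 : St 58367941 98074366045035 115453 1735483 :=
  chk_sound good2 (by norm_num) (by norm_num) (by norm_num) r446 t446

theorem r448 : St 58498817 98498709682971 115704 1739114 :=
  chk_sound good2 (by norm_num) (by norm_num) (by norm_num) r447 t447

theorem r449 : St 58629629 98930912267621 115939 1742804 :=
  chk_sound good2 (by norm_num) (by norm_num) (by norm_num) r448 t448

theorem r450 : St 58760413 99361031280715 116186 1746468 :=
  chk_sound good2 (by norm_num) (by norm_num) (by norm_num) r449 t449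

theorem r451 : St 58891159 99793517677157 116398 1750144 :=
  chk_sound good2 (by norm_num) (by norm_num) (by norm_num) r450 t450

theorem r452 : St 59021969 100221423901485 116647 1753773 :=
  chk_sound good2 (by norm_num) (by norm_num) (by norm_num) r451 t451

theorem r453 : St 59152889 100651341253051 116856 1757411 :=
  chk_sound good2 (by norm_num) (by norm_num) (by norm_num) r452 t452

theorem r454 : St 59283769 101082330474819 117079 1761050 :=
  chk_sound good2 (by norm_num) (by norm_num) (by norm_num) r453 t453

theorem r455 : St 59414689 101514390171509 117300 1764690 :=
  chk_sound good2 (by norm_num) (by norm_num) (by norm_num) r454 t454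

theorem r456 : St 59545531 101951568425591 117556 1768365 :=
  chk_sound good2 (by norm_num) (by norm_num) (by norm_num) r455 t455

theorem r457 : St 59676293 102386250714577 117787 1772011 :=
  chk_sound good2 (by norm_num) (by norm_num) (by norm_num) r456 t456

theorem r458 : St 59807201 102824278414683 118011 1775677 :=
  chk_sound good2 (by norm_num) (by norm_num) (by norm_num) r457 t457

theorem r459 : St 59938171 103261706149057 118230 1779330 :=
  chk_sound good2 (by norm_num) (by norm_num) (by norm_num) r458 t458

theorem r460 : St 60069017 103699493223073 118447 1782978 :=
  chk_sound good2 (by norm_num) (by norm_num) (by norm_num) r459 t459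

theorem r461 : St 60199757 104136550708037 118665 1786612 :=
  chk_sound good2 (by norm_num) (by norm_num) (by norm_num) r460 t460

theorem r462 : St 60330693 104579861780477 118888 1790290 :=
  chk_sound good2 (by norm_num) (by norm_num) (by norm_num) r461 t461

theorem r463 : St 60461339 105019784421697 119099 1793932 :=
  chk_sound good2 (by norm_num) (by norm_num) (by norm_num) r462 t462

theorem r464 : St 60592141 105461387015203 119335 1797580 :=
  chk_sound good2 (by norm_num) (by norm_num) (by norm_num) r463 t463

theorem r465 : St 60722983 105905276410321 119543 1801239 :=
  chk_sound good2 (by norm_num) (by norm_num) (by norm_num) r464 t464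

theorem r466 : St 60853633 106354623905947 119715 1804935 :=
  chk_sound good2 (by norm_num) (by norm_num) (by norm_num) r465 t465

theorem r467 : St 60984443 106797993299143 119948 1808574 :=
  chk_sound good2 (by norm_num) (by norm_num) (by norm_num) r466 t466

theorem r468 : St 61115177 107242433630193 120155 1812214 :=
  chk_sound good2 (by norm_num) (by norm_num) (by norm_num) r467 t467

theorem r469 : St 61246029 107685382776717 120391 1815834 :=
  chk_sound good2 (by norm_num) (by norm_num) (by norm_num) r468 t468

theorem r470 : St 61376753 108128664525935 120618 1819449 :=
  chk_sound good2 (by norm_num) (by norm_num) (by norm_num) r469 t469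

theorem r471 : St 61507529 108577069542677 120834 1823098 :=
  chk_sound good2 (by norm_num) (by norm_num) (by norm_num) r470 t470

theorem r472 : St 61638365 109023103956571 121065 1826720 :=
  chk_sound good2 (by norm_num) (by norm_num) (by norm_num) r471 t471

theorem r473 : St 61769167 109473047696265 121309 1830366 :=
  chk_sound good2 (by norm_num) (by norm_num) (by norm_num) r472 t472

theorem r474 : St 61899977 109923327237719 121554 1834007 :=
  chk_sound good2 (by norm_num) (by norm_num) (by norm_num) r473 t473

theorem r475 : St 62030875 110377906677105 121755 1837675 :=
  chk_sound good2 (by norm_num) (by norm_num) (by norm_num) r474 t474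

theorem r476 : St 62161517 110831209617091 121986 1841325 :=
  chk_sound good2 (by norm_num) (by norm_num) (by norm_num) r475 t475

theorem r477 : St 62292401 111282978511903 122212 1844955 :=
  chk_sound good2 (by norm_num) (by norm_num) (by norm_num) r476 t476

theorem r478 : St 62423261 111739685321309 122426 1848617 :=
  chk_sound good2 (by norm_num) (by norm_num) (by norm_num) r477 t477

theorem r479 : St 62553811 112192601619577 122676 1852241 :=
  chk_sound good2 (by norm_num) (by norm_num) (by norm_num) r478 t478

theorem r480 : St 62684657 112645090856835 122932 1855854 :=
  chk_sound good2 (by norm_num) (by norm_num) (by norm_num) r479 t479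

theorem r481 : St 62815539 113105676199025 123144 1859524 :=
  chk_sound good2 (by norm_num) (by norm_num) (by norm_num) r480 t480

theorem r482 : St 62946359 113564834289055 123365 1863175 :=
  chk_sound good2 (by norm_num) (by norm_num) (by norm_num) r481 t481

theorem r483 : St 63077167 114022679922745 123609 1866808 :=
  chk_sound good2 (by norm_num) (by norm_num) (by norm_num) r482 t482

theorem r484 : St 63208079 114481981725503 123861 1870445 :=
  chk_sound good2 (by norm_num) (by norm_num) (by norm_num) r483 t483

theorem r485 : St 63338927 114941218202157 124099 1874074 :=
  chk_sound good2 (by norm_num) (by norm_num) (by norm_num) r484 t484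

theorem r486 : St 63469739 115407113851899 124317 1877748 :=
  chk_sound good2 (by norm_num) (by norm_num) (by norm_num) r485 t485

theorem r487 : St 63600465 115869268795191 124541 1881385 :=
  chk_sound good2 (by norm_num) (by norm_num) (by norm_num) r486 t486

theorem r488 : St 63731385 116331738299321 124766 1885017 :=
  chk_sound good2 (by norm_num) (by norm_num) (by norm_num) r487 t487

theorem r489 : St 63862069 116799238830057 124971 1888681 :=
  chk_sound good2 (by norm_num) (by norm_num) (by norm_num) r488 t488

theorem r490 : St 63992857 117266288844645 125201 1892334 :=
  chk_sound good2 (by norm_num) (by norm_num) (by norm_num) r489 t489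

theorem r491 : St 64123681 117733402144443 125427 1895980 :=
  chk_sound good2 (by norm_num) (by norm_num) (by norm_num) r490 t490

theorem r492 : St 64254493 118198128981131 125649 1899600 :=
  chk_sound good2 (by norm_num) (by norm_num) (by norm_num) r491 t491

theorem r493 : St 64385231 118669076724495 125882 1903261 :=
  chk_sound good2 (by norm_num) (by norm_num) (by norm_num) r492 t492

theorem r494 : St 64516103 119137890208717 126093 1906898 :=
  chk_sound good2 (by norm_num) (by norm_num) (by norm_num) r493 t493

theorem r495 : St 64646925 119601197681103 126309 1910485 :=
  chk_sound good2 (by norm_num) (by norm_num) (by norm_num) r494 t494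

theorem r496 : St 64777789 120068935814193 126508 1914099 :=
  chk_sound good2 (by norm_num) (by norm_num) (by norm_num) r495 t495

theorem r497 : St 64908673 120542034099709 126745 1917747 :=
  chk_sound good2 (by norm_num) (by norm_num) (by norm_num) r496 t496

theorem r498 : St 65039615 121017389643883 126982 1921405 :=
  chk_sound good2 (by norm_num) (by norm_num) (by norm_num) r497 t497

theorem r499 : St 65170481 121486929039875 127222 1925011 :=
  chk_sound good2 (by norm_num) (by norm_num) (by norm_num) r498 t498

theorem r500 : St 65301331 121959762107291 127428 1928635 :=
  chk_sound good2 (by norm_num) (by norm_num) (by norm_num) r499 t499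

theorem r501 : St 65432161 122435895769509 127633 1932277 :=
  chk_sound good2 (by norm_num) (by norm_num) (by norm_num) r500 t500

theorem r502 : St 65563061 122914811456845 127858 1935933 :=
  chk_sound good2 (by norm_num) (by norm_num) (by norm_num) r501 t501

theorem r503 : St 65693955 123387600173223 128083 1939535 :=
  chk_sound good2 (by norm_num) (by norm_num) (by norm_num) r502 t502

theorem r504 : St 65824725 123865407796819 128301 1943168 :=
  chk_sound good2 (by norm_num) (by norm_num) (by norm_num) r503 t503

theorem r505 : St 65955587 124345747108389 128545 1946813 :=
  chk_sound good2 (by norm_num) (by norm_num) (by norm_num) r504 t504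

theorem r506 : St 66086437 124829547767801 128784 1950477 :=
  chk_sound good2 (by norm_num) (by norm_num) (by norm_num) r505 t505

theorem r507 : St 66217321 125313119703867 129016 1954132 :=
  chk_sound good2 (by norm_num) (by norm_num) (by norm_num) r506 t506

theorem r508 : St 66348161 125798045875217 129242 1957790 :=
  chk_sound good2 (by norm_num) (by norm_num) (by norm_num) r507 t507

theorem r509 : St 66479025 126280472371203 129463 1961422 :=
  chk_sound good2 (by norm_num) (by norm_num) (by norm_num) r508 t508

theorem r510 : St 66609897 126765848056335 129707 1965069 :=
  chk_sound good2 (by norm_num) (by norm_num) (by norm_num) r509 t509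

theorem r511 : St 66740715 127250442897071 129917 1968703 :=
  chk_sound good2 (by norm_num) (by norm_num) (by norm_num) r510 t510

theorem r512 : St 66871435 127734521472997 130148 1972326 :=
  chk_sound good2 (by norm_num) (by norm_num) (by norm_num) r511 t511

theorem r513 : St 67002255 128218341193433 130362 1975940 :=
  chk_sound good2 (by norm_num) (by norm_num) (by norm_num) r512 t512

theorem r514 : St 67133099 128704178797993 130596 1979562 :=
  chk_sound good2 (by norm_num) (by norm_num) (by norm_num) r513 t513

theorem r515 : St 67264095 129193789139233 130806 1983205 :=
  chk_sound good2 (by norm_num) (by norm_num) (by norm_num) r514 t514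

theorem r516 : St 67394771 129685292747351 131042 1986855 :=
  chk_sound good2 (by norm_num) (by norm_num) (by norm_num) r515 t515

theorem r517 : St 67525539 130177346794255 131262 1990502 :=
  chk_sound good2 (by norm_num) (by norm_num) (by norm_num) r516 t516

theorem r518 : St 67656269 130666298174117 131490 1994119 :=
  chk_sound good2 (by norm_num) (by norm_num) (by norm_num) r517 t517

theorem r519 : St 67786993 131157683516583 131711 1997747 :=
  chk_sound good2 (by norm_num) (by norm_num) (by norm_num) r518 t518

theorem r520 : St 67917823 131652328950091 131934 2001392 :=
  chk_sound good2 (by norm_num) (by norm_num) (by norm_num) r519 t519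

theorem r521 : St 68048625 132145206952521 132170 2005017 :=
  chk_sound good2 (by norm_num) (by norm_num) (by norm_num) r520 t520

theorem r522 : St 68179475 132637535357557 132397 2008631 :=
  chk_sound good2 (by norm_num) (by norm_num) (by norm_num) r521 t521

theorem r523 : St 68310329 133133539065961 132609 2012265 :=
  chk_sound good2 (by norm_num) (by norm_num) (by norm_num) r522 t522

theorem r524 : St 68441257 133625981797535 132808 2015866 :=
  chk_sound good2 (by norm_num) (by norm_num) (by norm_num) r523 t523

theorem r525 : St 68571983 134123338047227 133023 2019496 :=
  chk_sound good2 (by norm_num) (by norm_num) (by norm_num) r524 t524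

theorem r526 : St 68702791 134619860955585 133251 2023113 :=
  chk_sound good2 (by norm_num) (by norm_num) (by norm_num) r525 t525

theorem r527 : St 68833483 135114026693581 133476 2026706 :=
  chk_sound good2 (by norm_num) (by norm_num) (by norm_num) r526 t526

theorem r528 : St 68964241 135613679166999 133703 2030332 :=
  chk_sound good2 (by norm_num) (by norm_num) (by norm_num) r527 t527

theorem r529 : St 69095041 136114141581311 133929 2033957 :=
  chk_sound good2 (by norm_num) (by norm_num) (by norm_num) r528 t528

theorem r530 : St 69225817 136614309166065 134156 2037573 :=
  chk_sound good2 (by norm_num) (by norm_num) (by norm_num) r529 t529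

theorem r531 : St 69356647 137115012299095 134359 2041186 :=
  chk_sound good2 (by norm_num) (by norm_num) (by norm_num) r530 t530

theorem r532 : St 69487343 137622068632351 134607 2044838 :=
  chk_sound good2 (by norm_num) (by norm_num) (by norm_num) r531 t531

theorem r533 : St 69618193 138127854466443 134812 2048474 :=
  chk_sound good2 (by norm_num) (by norm_num) (by norm_num) r532 t532

theorem r534 : St 69749107 138634871341337 135043 2052112 :=
  chk_sound good2 (by norm_num) (by norm_num) (by norm_num) r533 t533

theorem r535 : St 69879869 139141023881559 135243 2055737 :=
  chk_sound good2 (by norm_num) (by norm_num) (by norm_num) r534 t534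

theorem r536 : St 70010579 139641411191541 135460 2059314 :=
  chk_sound good2 (by norm_num) (by norm_num) (by norm_num) r535 t535

theorem r537 : St 70141473 140148900497261 135687 2062935 :=
  chk_sound good2 (by norm_num) (by norm_num) (by norm_num) r536 t536

theorem r538 : St 70272269 140660288773203 135912 2066577 :=
  chk_sound good2 (by norm_num) (by norm_num) (by norm_num) r537 t537

theorem r539 : St 70403087 141169252696933 136130 2070195 :=
  chk_sound good2 (by norm_num) (by norm_num) (by norm_num) r538 t538

theorem r540 : St 70533949 141683389053241 136352 2073843 :=
  chk_sound good2 (by norm_num) (by norm_num) (by norm_num) r539 t539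

theorem r541 : St 70664733 142191277966901 136570 2077440 :=
  chk_sound good2 (by norm_num) (by norm_num) (by norm_num) r540 t540

theorem r542 : St 70795621 142700816728951 136818 2081042 :=
  chk_sound good2 (by norm_num) (by norm_num) (by norm_num) r541 t541

theorem r543 : St 70926385 143211725549889 137050 2084647 :=
  chk_sound good2 (by norm_num) (by norm_num) (by norm_num) r542 t542

theorem r544 : St 71057201 143724568091177 137248 2088259 :=
  chk_sound good2 (by norm_num) (by norm_num) (by norm_num) r543 t543

theorem r545 : St 71187933 144238923733975 137472 2091875 :=
  chk_sound good2 (by norm_num) (by norm_num) (by norm_num) r544 t544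

theorem r546 : St 71318807 144756935162385 137692 2095510 :=
  chk_sound good2 (by norm_num) (by norm_num) (by norm_num) r545 t545

theorem r547 : St 71449629 145276330781253 137898 2099148 :=
  chk_sound good2 (by norm_num) (by norm_num) (by norm_num) r546 t546

theorem r548 : St 71580475 145795099639439 138130 2102775 :=
  chk_sound good2 (by norm_num) (by norm_num) (by norm_num) r547 t547

theorem r549 : St 71711153 146311805501865 138333 2106381 :=
  chk_sound good2 (by norm_num) (by norm_num) (by norm_num) r548 t548

theorem r550 : St 71841823 146826157342301 138556 2109964 :=
  chk_sound good2 (by norm_num) (by norm_num) (by norm_num) r549 t549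

theorem r551 : St 71972687 147348059620783 138791 2113593 :=
  chk_sound good2 (by norm_num) (by norm_num) (by norm_num) r550 t550

theorem r552 : St 72103523 147869762847165 139007 2117214 :=
  chk_sound good2 (by norm_num) (by norm_num) (by norm_num) r551 t551

theorem r553 : St 72234451 148399196002809 139226 2120882 :=
  chk_sound good2 (by norm_num) (by norm_num) (by norm_num) r552 t552

theorem r554 : St 72365305 148923948744727 139458 2124511 :=
  chk_sound good2 (by norm_num) (by norm_num) (by norm_num) r553 t553

theorem r555 : St 72496139 149444000816793 139690 2128101 :=
  chk_sound good2 (by norm_num) (by norm_num) (by norm_num) r554 t554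

theorem r556 : St 72626887 149967892876845 139916 2131711 :=
  chk_sound good2 (by norm_num) (by norm_num) (by norm_num) r555 t555

theorem r557 : St 72757703 150492877025535 140166 2135322 :=
  chk_sound good2 (by norm_num) (by norm_num) (by norm_num) r556 t556

theorem r558 : St 72888689 151021721689399 140384 2138953 :=
  chk_sound good2 (by norm_num) (by norm_num) (by norm_num) r557 t557

theorem r559 : St 73019543 151550493699217 140611 2142577 :=
  chk_sound good2 (by norm_num) (by norm_num) (by norm_num) r558 t558

theorem r560 : St 73150347 152077727755847 140816 2146184 :=
  chk_sound good2 (by norm_num) (by norm_num) (by norm_num) r559 t559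

theorem r561 : St 73281293 152602394479321 141055 2149767 :=
  chk_sound good2 (by norm_num) (by norm_num) (by norm_num) r560 t560

theorem r562 : St 73412155 153131954202777 141294 2153377 :=
  chk_sound good2 (by norm_num) (by norm_num) (by norm_num) r561 t561

theorem r563 : St 73542949 153662904813083 141523 2156990 :=
  chk_sound good2 (by norm_num) (by norm_num) (by norm_num) r562 t562

theorem r564 : St 73673779 154198184363145 141727 2160626 :=
  chk_sound good2 (by norm_num) (by norm_num) (by norm_num) r563 t563

theorem r565 : St 73804675 154730285723121 141943 2164234 :=
  chk_sound good2 (by norm_num) (by norm_num) (by norm_num) r564 t564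

theorem r566 : St 73935423 155264662313585 142172 2167851 :=
  chk_sound good2 (by norm_num) (by norm_num) (by norm_num) r565 t565

theorem r567 : St 74066077 155793617824259 142413 2171425 :=
  chk_sound good2 (by norm_num) (by norm_num) (by norm_num) r566 t566

theorem r568 : St 74196849 156324697256417 142631 2175007 :=
  chk_sound good2 (by norm_num) (by norm_num) (by norm_num) r567 t567

theorem r569 : St 74327769 156859533006891 142863 2178608 :=
  chk_sound good2 (by norm_num) (by norm_num) (by norm_num) r568 t568

theorem r570 : St 74458477 157398585245559 143065 2182231 :=
  chk_sound good2 (by norm_num) (by norm_num) (by norm_num) r569 t569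

theorem r571 : St 74589199 157932177343963 143308 2185811 :=
  chk_sound good2 (by norm_num) (by norm_num) (by norm_num) r570 t570

theorem r572 : St 74720101 158471780070577 143538 2189425 :=
  chk_sound good2 (by norm_num) (by norm_num) (by norm_num) r571 t571

theorem r573 : St 74850929 159012328272241 143783 2193039 :=
  chk_sound good2 (by norm_num) (by norm_num) (by norm_num) r572 t572

theorem r574 : St 74981729 159552323709333 143991 2196643 :=
  chk_sound good2 (by norm_num) (by norm_num) (by norm_num) r573 t573

theorem r575 : St 75112591 160093715243437 144191 2200250 :=
  chk_sound good2 (by norm_num) (by norm_num) (by norm_num) r574 t574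

theorem r576 : St 75243419 160640260500419 144396 2203885 :=
  chk_sound good2 (by norm_num) (by norm_num) (by norm_num) r575 t575

theorem r577 : St 75374293 161184894162555 144615 2207501 :=
  chk_sound good2 (by norm_num) (by norm_num) (by norm_num) r576 t576

theorem r578 : St 75505097 161733189752759 144843 2211135 :=
  chk_sound good2 (by norm_num) (by norm_num) (by norm_num) r577 t577

theorem r579 : St 75635903 162275032352509 145049 2214720 :=
  chk_sound good2 (by norm_num) (by norm_num) (by norm_num) r578 t578

theorem r580 : St 75766673 162821141486529 145252 2218327 :=
  chk_sound good2 (by norm_num) (by norm_num) (by norm_num) r579 t579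

theorem r581 : St 75897483 163372896267451 145482 2221965 :=
  chk_sound good2 (by norm_num) (by norm_num) (by norm_num) r580 t580

theorem r582 : St 76028385 163923172889579 145700 2225587 :=
  chk_sound good2 (by norm_num) (by norm_num) (by norm_num) r581 t581

theorem r583 : St 76159021 164469374580647 145917 2229176 :=
  chk_sound good2 (by norm_num) (by norm_num) (by norm_num) r582 t582

theorem r584 : St 76289819 165013462653869 146144 2232745 :=
  chk_sound good2 (by norm_num) (by norm_num) (by norm_num) r583 t583

theorem r585 : St 76420641 165564136730695 146351 2236351 :=
  chk_sound good2 (by norm_num) (by norm_num) (by norm_num) r584 t584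

theorem r586 : St 76551421 166112695657949 146583 2239937 :=
  chk_sound good2 (by norm_num) (by norm_num) (by norm_num) r585 t585

theorem r587 : St 76682193 166658051406523 146806 2243496 :=
  chk_sound good2 (by norm_num) (by norm_num) (by norm_num) r586 t586

theorem r588 : St 76812923 167209558587591 147041 2247089 :=
  chk_sound good2 (by norm_num) (by norm_num) (by norm_num) r587 t587

theorem r589 : St 76943639 167764618444775 147258 2250699 :=
  chk_sound good2 (by norm_num) (by norm_num) (by norm_num) r588 t588

theorem r590 : St 77074437 168322161566489 147497 2254319 :=
  chk_sound good2 (by norm_num) (by norm_num) (by norm_num) r589 t589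

theorem r591 : St 77205323 168879111127083 147722 2257929 :=
  chk_sound good2 (by norm_num) (by norm_num) (by norm_num) r590 t590

theorem r592 : St 77336113 169433604591601 147936 2261517 :=
  chk_sound good2 (by norm_num) (by norm_num) (by norm_num) r591 t591

theorem r593 : St 77466931 169989809127283 148160 2265110 :=
  chk_sound good2 (by norm_num) (by norm_num) (by norm_num) r592 t592

theorem r594 : St 77597729 170549438227553 148384 2268719 :=
  chk_sound good2 (by norm_num) (by norm_num) (by norm_num) r593 t593

theorem r595 : St 77728699 171106442189035 148610 2272305 :=
  chk_sound good2 (by norm_num) (by norm_num) (by norm_num) r594 t594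

theorem r596 : St 77859383 171664692122743 148839 2275893 :=
  chk_sound good2 (by norm_num) (by norm_num) (by norm_num) r595 t595

theorem r597 : St 77990273 172228086469505 149047 2279508 :=
  chk_sound good2 (by norm_num) (by norm_num) (by norm_num) r596 t596

theorem r598 : St 78121139 172791649488319 149249 2283118 :=
  chk_sound good2 (by norm_num) (by norm_num) (by norm_num) r597 t597

theorem r599 : St 78252023 173353497017057 149472 2286711 :=
  chk_sound good2 (by norm_num) (by norm_num) (by norm_num) r598 t598

theorem r600 : St 78382847 173912685947445 149688 2290281 :=
  chk_sound good2 (by norm_num) (by norm_num) (by norm_num) r599 t599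

theorem r601 : St 78513647 174473122328637 149895 2293853 :=
  chk_sound good2 (by norm_num) (by norm_num) (by norm_num) r600 t600

theorem r602 : St 78644413 175038574622797 150103 2297451 :=
  chk_sound good2 (by norm_num) (by norm_num) (by norm_num) r601 t601

theorem r603 : St 78775197 175606543328303 150317 2301059 :=
  chk_sound good2 (by norm_num) (by norm_num) (by norm_num) r602 t602

theorem r604 : St 78906111 176172459269483 150543 2304648 :=
  chk_sound good2 (by norm_num) (by norm_num) (by norm_num) r603 t603

theorem r605 : St 79036919 176739948597399 150746 2308241 :=
  chk_sound good2 (by norm_num) (by norm_num) (by norm_num) r604 t604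

theorem r606 : St 79167701 177310749176981 150953 2311849 :=
  chk_sound good2 (by norm_num) (by norm_num) (by norm_num) r605 t605

theorem r607 : St 79298617 177876311938545 151165 2315418 :=
  chk_sound good2 (by norm_num) (by norm_num) (by norm_num) r606 t606

theorem r608 : St 79429275 178451702903141 151366 2319043 :=
  chk_sound good2 (by norm_num) (by norm_num) (by norm_num) r607 t607

theorem r609 : St 79560083 179020089710123 151594 2322618 :=
  chk_sound good2 (by norm_num) (by norm_num) (by norm_num) r608 t608

theorem r610 : St 79690895 179593231719651 151809 2326217 :=
  chk_sound good2 (by norm_num) (by norm_num) (by norm_num) r609 t609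

theorem r611 : St 79821779 180166519079243 152005 2329811 :=
  chk_sound good2 (by norm_num) (by norm_num) (by norm_num) r610 t610

theorem r612 : St 79952605 180741227875749 152196 2333408 :=
  chk_sound good2 (by norm_num) (by norm_num) (by norm_num) r611 t611

theorem r613 : St 80083443 181311438921617 152383 2336971 :=
  chk_sound good2 (by norm_num) (by norm_num) (by norm_num) r612 t612

theorem r614 : St 80214269 181884981041633 152618 2340549 :=
  chk_sound good2 (by norm_num) (by norm_num) (by norm_num) r613 t613

theorem r615 : St 80345119 182468612898231 152834 2344184 :=
  chk_sound good2 (by norm_num) (by norm_num) (by norm_num) r614 t614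

theorem r616 : St 80475973 183048374625623 153062 2347789 :=
  chk_sound good2 (by norm_num) (by norm_num) (by norm_num) r615 t615

theorem r617 : St 80606663 183624082800427 153236 2351363 :=
  chk_sound good2 (by norm_num) (by norm_num) (by norm_num) r616 t616

theorem r618 : St 80737443 184202340670357 153440 2354947 :=
  chk_sound good2 (by norm_num) (by norm_num) (by norm_num) r617 t617

theorem r619 : St 80868187 184789454094879 153685 2358580 :=
  chk_sound good2 (by norm_num) (by norm_num) (by norm_num) r618 t618

theorem r620 : St 80999043 185372176915905 153918 2362180 :=
  chk_sound good2 (by norm_num) (by norm_num) (by norm_num) r619 t619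

theorem r621 : St 81129833 185964594499623 154124 2365834 :=
  chk_sound good2 (by norm_num) (by norm_num) (by norm_num) r620 t620

theorem r622 : St 81260575 186548876643963 154346 2369432 :=
  chk_sound good2 (by norm_num) (by norm_num) (by norm_num) r621 t621

theorem r623 : St 81391397 187129709891013 154590 2373003 :=
  chk_sound good2 (by norm_num) (by norm_num) (by norm_num) r622 t622

theorem r624 : St 81522179 187716359364489 154840 2376604 :=
  chk_sound good2 (by norm_num) (by norm_num) (by norm_num) r623 t623

theorem r625 : St 81653079 188299711010259 155060 2380179 :=
  chk_sound good2 (by norm_num) (by norm_num) (by norm_num) r624 t624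

theorem r626 : St 81783677 188885466649447 155268 2383763 :=
  chk_sound good2 (by norm_num) (by norm_num) (by norm_num) r625 t625

theorem r627 : St 81914587 189473471988173 155464 2387355 :=
  chk_sound good2 (by norm_num) (by norm_num) (by norm_num) r626 t626

theorem r628 : St 82045457 190066680719117 155703 2390973 :=
  chk_sound good2 (by norm_num) (by norm_num) (by norm_num) r627 t627

theorem r629 : St 82176233 190654264057173 155944 2394551 :=
  chk_sound good2 (by norm_num) (by norm_num) (by norm_num) r628 t628

theorem r630 : St 82307117 191236863593857 156142 2398093 :=
  chk_sound good2 (by norm_num) (by norm_num) (by norm_num) r629 t629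

theorem r631 : St 82437919 191830439034085 156363 2401696 :=
  chk_sound good2 (by norm_num) (by norm_num) (by norm_num) r630 t630

theorem r632 : St 82568747 192423144521131 156573 2405288 :=
  chk_sound good2 (by norm_num) (by norm_num) (by norm_num) r631 t631

theorem r633 : St 82699637 193020097392779 156810 2408900 :=
  chk_sound good2 (by norm_num) (by norm_num) (by norm_num) r632 t632

theorem r634 : St 82830413 193615513104447 157000 2412497 :=
  chk_sound good2 (by norm_num) (by norm_num) (by norm_num) r633 t633

theorem r635 : St 82961237 194212362503225 157232 2416097 :=
  chk_sound good2 (by norm_num) (by norm_num) (by norm_num) r634 t634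

theorem r636 : St 83091949 194805337713031 157458 2419668 :=
  chk_sound good2 (by norm_num) (by norm_num) (by norm_num) r635 t635

theorem r637 : St 83222833 195395422867735 157691 2423216 :=
  chk_sound good2 (by norm_num) (by norm_num) (by norm_num) r636 t636

theorem r638 : St 83353619 195989933050419 157941 2426785 :=
  chk_sound good2 (by norm_num) (by norm_num) (by norm_num) r637 t637

theorem r639 : St 83484439 196587712491531 158167 2430368 :=
  chk_sound good2 (by norm_num) (by norm_num) (by norm_num) r638 t638

theorem r640 : St 83615183 197189939624247 158359 2433972 :=
  chk_sound good2 (by norm_num) (by norm_num) (by norm_num) r639 t639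

theorem r641 : St 83745919 197786084453597 158571 2437534 :=
  chk_sound good2 (by norm_num) (by norm_num) (by norm_num) r640 t640

theorem r642 : St 83876651 198390196145931 158775 2441138 :=
  chk_sound good2 (by norm_num) (by norm_num) (by norm_num) r641 t641

theorem r643 : St 84007551 199000117743799 158990 2444771 :=
  chk_sound good2 (by norm_num) (by norm_num) (by norm_num) r642 t642

theorem r644 : St 84138347 199597709601393 159216 2448325 :=
  chk_sound good2 (by norm_num) (by norm_num) (by norm_num) r643 t643

theorem r645 : St 84269205 200195389913739 159444 2451874 :=
  chk_sound good2 (by norm_num) (by norm_num) (by norm_num) r644 t644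

theorem r646 : St 84399983 200799561637411 159672 2455456 :=
  chk_sound good2 (by norm_num) (by norm_num) (by norm_num) r645 t645

theorem r647 : St 84530669 201408218264709 159905 2459059 :=
  chk_sound good2 (by norm_num) (by norm_num) (by norm_num) r646 t646

theorem r648 : St 84661391 202009697301029 160104 2462614 :=
  chk_sound good2 (by norm_num) (by norm_num) (by norm_num) r647 t647

theorem r649 : St 84792157 202617529305093 160312 2466201 :=
  chk_sound good2 (by norm_num) (by norm_num) (by norm_num) r648 t648

theorem r650 : St 84923003 203220018086657 160545 2469751 :=
  chk_sound good2 (by norm_num) (by norm_num) (by norm_num) r649 t649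

theorem r651 : St 85053901 203824283269315 160779 2473306 :=
  chk_sound good2 (by norm_num) (by norm_num) (by norm_num) r650 t650

theorem r652 : St 85184689 204434245667039 161019 2476889 :=
  chk_sound good2 (by norm_num) (by norm_num) (by norm_num) r651 t651

theorem r653 : St 85315467 205043442072371 161229 2480462 :=
  chk_sound good2 (by norm_num) (by norm_num) (by norm_num) r652 t652

theorem r654 : St 85446335 205663819531019 161442 2484095 :=
  chk_sound good2 (by norm_num) (by norm_num) (by norm_num) r653 t653

theorem r655 : St 85577123 206274372073429 161675 2487665 :=
  chk_sound good2 (by norm_num) (by norm_num) (by norm_num) r654 t654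

theorem r656 : St 85707967 206885001502233 161926 2491230 :=
  chk_sound good2 (by norm_num) (by norm_num) (by norm_num) r655 t655

theorem r657 : St 85838835 207502741606183 162163 2494831 :=
  chk_sound good2 (by norm_num) (by norm_num) (by norm_num) r656 t656

theorem r658 : St 85969723 208118503842527 162367 2498415 :=
  chk_sound good2 (by norm_num) (by norm_num) (by norm_num) r657 t657

theorem r659 : St 86100541 208735549131669 162581 2502001 :=
  chk_sound good2 (by norm_num) (by norm_num) (by norm_num) r658 t658

theorem r660 : St 86231287 209346636474511 162789 2505547 :=
  chk_sound good2 (by norm_num) (by norm_num) (by norm_num) r659 t659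

theorem r661 : St 86362051 209965037894889 163012 2509130 :=
  chk_sound good2 (by norm_num) (by norm_num) (by norm_num) r660 t660

theorem r662 : St 86492903 210587143706537 163246 2512729 :=
  chk_sound good2 (by norm_num) (by norm_num) (by norm_num) r661 t661

theorem r663 : St 86623653 211206900086891 163453 2516309 :=
  chk_sound good2 (by norm_num) (by norm_num) (by norm_num) r662 t662

theorem r664 : St 86754519 211826379620391 163681 2519882 :=
  chk_sound good2 (by norm_num) (by norm_num) (by norm_num) r663 t663

theorem r665 : St 86885303 212449399677641 163917 2523470 :=
  chk_sound good2 (by norm_num) (by norm_num) (by norm_num) r664 t664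

theorem r666 : St 87016037 213069532647043 164121 2527036 :=
  chk_sound good2 (by norm_num) (by norm_num) (by norm_num) r665 t665

theorem r667 : St 87146831 213689897714485 164358 2530598 :=
  chk_sound good2 (by norm_num) (by norm_num) (by norm_num) r666 t666

theorem r668 : St 87277769 214316952129001 164587 2534193 :=
  chk_sound good2 (by norm_num) (by norm_num) (by norm_num) r667 t667

theorem r669 : St 87408653 214936735383255 164823 2537741 :=
  chk_sound good2 (by norm_num) (by norm_num) (by norm_num) r668 t668

theorem r670 : St 87539489 215564626825745 165030 2541330 :=
  chk_sound good2 (by norm_num) (by norm_num) (by norm_num) r669 t669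

theorem r671 : St 87670215 216189249259885 165270 2544895 :=
  chk_sound good2 (by norm_num) (by norm_num) (by norm_num) r670 t670

theorem r672 : St 87801113 216813576308985 165524 2548453 :=
  chk_sound good2 (by norm_num) (by norm_num) (by norm_num) r671 t671

theorem r673 : St 87931969 217444985087161 165739 2552046 :=
  chk_sound good2 (by norm_num) (by norm_num) (by norm_num) r672 t672

theorem r674 : St 88062777 218079800023261 165979 2555653 :=
  chk_sound good2 (by norm_num) (by norm_num) (by norm_num) r673 t673

theorem r675 : St 88193625 218708152584443 166183 2559218 :=
  chk_sound good2 (by norm_num) (by norm_num) (by norm_num) r674 t674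

theorem r676 : St 88324449 219349087476123 166405 2562849 :=
  chk_sound good2 (by norm_num) (by norm_num) (by norm_num) r675 t675

theorem r677 : St 88455197 219979308886705 166609 2566414 :=
  chk_sound good2 (by norm_num) (by norm_num) (by norm_num) r676 t676

theorem r678 : St 88585933 220599308104417 166807 2569916 :=
  chk_sound good2 (by norm_num) (by norm_num) (by norm_num) r677 t677

theorem r679 : St 88716709 221234049571755 167018 2573496 :=
  chk_sound good2 (by norm_num) (by norm_num) (by norm_num) r678 t678

theorem r680 : St 88847509 221871860737773 167215 2577088 :=
  chk_sound good2 (by norm_num) (by norm_num) (by norm_num) r679 t679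

theorem r681 : St 88978151 222511320431829 167428 2580684 :=
  chk_sound good2 (by norm_num) (by norm_num) (by norm_num) r680 t680

theorem r682 : St 89108963 223145490738291 167650 2584245 :=
  chk_sound good2 (by norm_num) (by norm_num) (by norm_num) r681 t681

theorem r683 : St 89239727 223786119519363 167845 2587837 :=
  chk_sound good2 (by norm_num) (by norm_num) (by norm_num) r682 t682

theorem r684 : St 89370569 224421611349149 168061 2591395 :=
  chk_sound good2 (by norm_num) (by norm_num) (by norm_num) r683 t683

theorem r685 : St 89501299 225057500258939 168276 2594950 :=
  chk_sound good2 (by norm_num) (by norm_num) (by norm_num) r684 t684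

theorem r686 : St 89631993 225693782293311 168502 2598502 :=
  chk_sound good2 (by norm_num) (by norm_num) (by norm_num) r685 t685

theorem r687 : St 89762747 226324355252311 168737 2602017 :=
  chk_sound good2 (by norm_num) (by norm_num) (by norm_num) r686 t686

theorem r688 : St 89893493 226965011823005 168964 2605583 :=
  chk_sound good2 (by norm_num) (by norm_num) (by norm_num) r687 t687

theorem r689 : St 90024289 227607500889191 169178 2609154 :=
  chk_sound good2 (by norm_num) (by norm_num) (by norm_num) r688 t688

theorem r690 : St 90155167 228255427475913 169403 2612750 :=
  chk_sound good2 (by norm_num) (by norm_num) (by norm_num) r689 t689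

theorem r691 : St 90286053 228899962030009 169623 2616322 :=
  chk_sound good2 (by norm_num) (by norm_num) (by norm_num) r690 t690

theorem r692 : St 90416883 229551573967419 169861 2619928 :=
  chk_sound good2 (by norm_num) (by norm_num) (by norm_num) r691 t691

theorem r693 : St 90547739 230195987113577 170069 2623489 :=
  chk_sound good2 (by norm_num) (by norm_num) (by norm_num) r692 t692

theorem r694 : St 90678551 230839157106113 170273 2627038 :=
  chk_sound good2 (by norm_num) (by norm_num) (by norm_num) r693 t693

theorem r695 : St 90809351 231490334444657 170506 2630626 :=
  chk_sound good2 (by norm_num) (by norm_num) (by norm_num) r694 t694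

theorem r696 : St 90940193 232143727444357 170721 2634221 :=
  chk_sound good2 (by norm_num) (by norm_num) (by norm_num) r695 t695

theorem r697 : St 91070873 232788228511001 170935 2637762 :=
  chk_sound good2 (by norm_num) (by norm_num) (by norm_num) r696 t696

theorem r698 : St 91201511 233439307593079 171138 2641334 :=
  chk_sound good2 (by norm_num) (by norm_num) (by norm_num) r697 t697

theorem r699 : St 91332323 234095697008115 171352 2644930 :=
  chk_sound good2 (by norm_num) (by norm_num) (by norm_num) r698 t698

theorem r700 : St 91463251 234744803268595 171585 2648481 :=
  chk_sound good2 (by norm_num) (by norm_num) (by norm_num) r699 t699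

theorem r701 : St 91593967 235395753346041 171791 2652037 :=
  chk_sound good2 (by norm_num) (by norm_num) (by norm_num) r700 t700

theorem r702 : St 91724623 236057901428335 171992 2655649 :=
  chk_sound good2 (by norm_num) (by norm_num) (by norm_num) r701 t701

theorem r703 : St 91855397 236703184469829 172200 2659164 :=
  chk_sound good2 (by norm_num) (by norm_num) (by norm_num) r702 t702

theorem r704 : St 91986241 237360236129979 172411 2662738 :=
  chk_sound good2 (by norm_num) (by norm_num) (by norm_num) r703 t703

theorem r705 : St 92117143 238018038138067 172637 2666311 :=
  chk_sound good2 (by norm_num) (by norm_num) (by norm_num) r704 t704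

theorem r706 : St 92247925 238673823473383 172822 2669868 :=
  chk_sound good2 (by norm_num) (by norm_num) (by norm_num) r705 t705

theorem r707 : St 92378789 239327585699725 173023 2673409 :=
  chk_sound good2 (by norm_num) (by norm_num) (by norm_num) r706 t706

theorem r708 : St 92509543 239990965146569 173208 2676997 :=
  chk_sound good2 (by norm_num) (by norm_num) (by norm_num) r707 t707

theorem r709 : St 92640349 240650101904513 173444 2680557 :=
  chk_sound good2 (by norm_num) (by norm_num) (by norm_num) r708 t708

theorem r710 : St 92771225 241313133613431 173674 2684133 :=
  chk_sound good2 (by norm_num) (by norm_num) (by norm_num) r709 t709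

theorem r711 : St 92902031 241978215155895 173903 2687715 :=
  chk_sound good2 (by norm_num) (by norm_num) (by norm_num) r710 t710

theorem r712 : St 93032803 242630658738115 174108 2691224 :=
  chk_sound good2 (by norm_num) (by norm_num) (by norm_num) r711 t711

theorem r713 : St 93163741 243294079006677 174329 2694787 :=
  chk_sound good2 (by norm_num) (by norm_num) (by norm_num) r712 t712

theorem r714 : St 93294673 243956936561687 174547 2698342 :=
  chk_sound good2 (by norm_num) (by norm_num) (by norm_num) r713 t713

theorem r715 : St 93425569 244628194485579 174779 2701937 :=
  chk_sound good2 (by norm_num) (by norm_num) (by norm_num) r714 t714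

theorem r716 : St 93556381 245293663428521 174984 2705496 :=
  chk_sound good2 (by norm_num) (by norm_num) (by norm_num) r715 t715

theorem r717 : St 93687241 245957817222195 175216 2709043 :=
  chk_sound good2 (by norm_num) (by norm_num) (by norm_num) r716 t716

theorem r718 : St 93818039 246623463543007 175420 2712593 :=
  chk_sound good2 (by norm_num) (by norm_num) (by norm_num) r717 t717

theorem r719 : St 93948847 247295105793337 175609 2716170 :=
  chk_sound good2 (by norm_num) (by norm_num) (by norm_num) r718 t718

theorem r720 : St 94079633 247970506426541 175834 2719762 :=
  chk_sound good2 (by norm_num) (by norm_num) (by norm_num) r719 t719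

theorem r721 : St 94210537 248640254848085 176029 2723319 :=
  chk_sound good2 (by norm_num) (by norm_num) (by norm_num) r720 t720

theorem r722 : St 94341383 249308670543647 176220 2726864 :=
  chk_sound good2 (by norm_num) (by norm_num) (by norm_num) r721 t721

theorem r723 : St 94472197 249981413859147 176429 2730427 :=
  chk_sound good2 (by norm_num) (by norm_num) (by norm_num) r722 t722

theorem r724 : St 94602913 250655844721935 176677 2733994 :=
  chk_sound good2 (by norm_num) (by norm_num) (by norm_num) r723 t723

theorem r725 : St 94733669 251327042514557 176874 2737539 :=
  chk_sound good2 (by norm_num) (by norm_num) (by norm_num) r724 t724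

theorem r726 : St 94864535 252012631208285 177080 2741155 :=
  chk_sound good2 (by norm_num) (by norm_num) (by norm_num) r725 t725

theorem r727 : St 94995351 252696507229801 177308 2744757 :=
  chk_sound good2 (by norm_num) (by norm_num) (by norm_num) r726 t726

theorem r728 : St 95126237 253367637339453 177522 2748287 :=
  chk_sound good2 (by norm_num) (by norm_num) (by norm_num) r727 t727

theorem r729 : St 95256989 254045020248925 177754 2751845 :=
  chk_sound good2 (by norm_num) (by norm_num) (by norm_num) r728 t728

theorem r730 : St 95387849 254723334138653 177958 2755403 :=
  chk_sound good2 (by norm_num) (by norm_num) (by norm_num) r729 t729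

theorem r731 : St 95518613 255410596948169 178159 2759003 :=
  chk_sound good2 (by norm_num) (by norm_num) (by norm_num) r730 t730

theorem r732 : St 95649431 256086948082887 178369 2762541 :=
  chk_sound good2 (by norm_num) (by norm_num) (by norm_num) r731 t731

theorem r733 : St 95780317 256763652162153 178582 2766076 :=
  chk_sound good2 (by norm_num) (by norm_num) (by norm_num) r732 t732

theorem r734 : St 95911203 257452592283711 178790 2769670 :=
  chk_sound good2 (by norm_num) (by norm_num) (by norm_num) r733 t733

theorem r735 : St 96042073 258136520927367 179020 2773233 :=
  chk_sound good2 (by norm_num) (by norm_num) (by norm_num) r734 t734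

theorem r736 : St 96172851 258820233013445 179254 2776790 :=
  chk_sound good2 (by norm_num) (by norm_num) (by norm_num) r735 t735

theorem r737 : St 96303677 259497753691543 179451 2780310 :=
  chk_sound good2 (by norm_num) (by norm_num) (by norm_num) r736 t736

theorem r738 : St 96434411 260187951105651 179651 2783891 :=
  chk_sound good2 (by norm_num) (by norm_num) (by norm_num) r737 t737

theorem r739 : St 96565327 260868278115817 179866 2787416 :=
  chk_sound good2 (by norm_num) (by norm_num) (by norm_num) r738 t738

theorem r740 : St 96695969 261564212304737 180074 2791017 :=
  chk_sound good2 (by norm_num) (by norm_num) (by norm_num) r739 t739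

theorem r741 : St 96826837 262252768645773 180302 2794575 :=
  chk_sound good2 (by norm_num) (by norm_num) (by norm_num) r740 t740

theorem r742 : St 96957647 262939543905559 180495 2798119 :=
  chk_sound good2 (by norm_num) (by norm_num) (by norm_num) r741 t741

theorem r743 : St 97088493 263632093116179 180700 2801688 :=
  chk_sound good2 (by norm_num) (by norm_num) (by norm_num) r742 t742

theorem r744 : St 97219207 264311779025769 180907 2805186 :=
  chk_sound good2 (by norm_num) (by norm_num) (by norm_num) r743 t743

theorem r745 : St 97349957 265005221780893 181129 2808750 :=
  chk_sound good2 (by norm_num) (by norm_num) (by norm_num) r744 t744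

theorem r746 : St 97480667 265703107922327 181355 2812332 :=
  chk_sound good2 (by norm_num) (by norm_num) (by norm_num) r745 t745

theorem r747 : St 97611555 266405828637347 181555 2815934 :=
  chk_sound good2 (by norm_num) (by norm_num) (by norm_num) r746 t746

theorem r748 : St 97742399 267099922420317 181743 2819487 :=
  chk_sound good2 (by norm_num) (by norm_num) (by norm_num) r747 t747

theorem r749 : St 97873323 267796313997831 181971 2823047 :=
  chk_sound good2 (by norm_num) (by norm_num) (by norm_num) r748 t748

theorem r750 : St 98004073 268492654925397 182170 2826602 :=
  chk_sound good2 (by norm_num) (by norm_num) (by norm_num) r749 t749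

theorem r751 : St 98134853 269181886840857 182374 2830116 :=
  chk_sound good2 (by norm_num) (by norm_num) (by norm_num) r750 t750

theorem r752 : St 98265569 269881073532331 182580 2833676 :=
  chk_sound good2 (by norm_num) (by norm_num) (by norm_num) r751 t751

theorem r753 : St 98396381 270582174618471 182801 2837241 :=
  chk_sound good2 (by norm_num) (by norm_num) (by norm_num) r752 t752

theorem r754 : St 98527129 271284012432323 183006 2840805 :=
  chk_sound good2 (by norm_num) (by norm_num) (by norm_num) r753 t753

theorem r755 : St 98657901 271986581784333 183223 2844368 :=
  chk_sound good2 (by norm_num) (by norm_num) (by norm_num) r754 t754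

theorem r756 : St 98788741 272675865612185 183428 2847859 :=
  chk_sound good2 (by norm_num) (by norm_num) (by norm_num) r755 t755

theorem r757 : St 98919579 273376540628119 183630 2851403 :=
  chk_sound good2 (by norm_num) (by norm_num) (by norm_num) r756 t756

theorem r758 : St 99050473 274082506961585 183868 2854969 :=
  chk_sound good2 (by norm_num) (by norm_num) (by norm_num) r757 t757

theorem r759 : St 99181309 274785833841885 184087 2858517 :=
  chk_sound good2 (by norm_num) (by norm_num) (by norm_num) r758 t758

theorem r760 : St 99312071 275477583407401 184317 2862002 :=
  chk_sound good2 (by norm_num) (by norm_num) (by norm_num) r759 t759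

theorem r761 : St 99442859 276183954256721 184527 2865556 :=
  chk_sound good2 (by norm_num) (by norm_num) (by norm_num) r760 t760

theorem r762 : St 99573619 276894044187693 184730 2869124 :=
  chk_sound good2 (by norm_num) (by norm_num) (by norm_num) r761 t761

theorem r763 : St 99704569 277607255388615 184921 2872703 :=
  chk_sound good2 (by norm_num) (by norm_num) (by norm_num) r762 t762

theorem r764 : St 99835297 278311431179255 185140 2876232 :=
  chk_sound good2 (by norm_num) (by norm_num) (by norm_num) r763 t763

theorem r765 : St 99966093 279025521800315 185330 2879806 :=
  chk_sound good2 (by norm_num) (by norm_num) (by norm_num) r764 t764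

theorem r766 : St 100096823 279732542017137 185520 2883340 :=
  chk_sound good2 (by norm_num) (by norm_num) (by norm_num) r765 t765

theorem r767 : St 100227705 280451906146383 185739 2886931 :=
  chk_sound good2 (by norm_num) (by norm_num) (by norm_num) r766 t766

theorem r768 : St 100358487 281160575229891 185951 2890464 :=
  chk_sound good2 (by norm_num) (by norm_num) (by norm_num) r767 t767

theorem r769 : St 100489217 281868362532847 186168 2893988 :=
  chk_sound good2 (by norm_num) (by norm_num) (by norm_num) r768 t768

theorem r770 : St 100620031 282580688715173 186380 2897530 :=
  chk_sound good2 (by norm_num) (by norm_num) (by norm_num) r769 t769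

theorem r771 : St 100750853 283294147270867 186607 2901073 :=
  chk_sound good2 (by norm_num) (by norm_num) (by norm_num) r770 t770

theorem r772 : St 100881631 284003089441571 186816 2904589 :=
  chk_sound good2 (by norm_num) (by norm_num) (by norm_num) r771 t771

theorem r773 : St 101012521 284726273150845 187058 2908171 :=
  chk_sound good2 (by norm_num) (by norm_num) (by norm_num) r772 t772

theorem r774 : St 101143261 285448372653245 187279 2911743 :=
  chk_sound good2 (by norm_num) (by norm_num) (by norm_num) r773 t773

theorem r775 : St 101273951 286166955312341 187498 2915293 :=
  chk_sound good2 (by norm_num) (by norm_num) (by norm_num) r774 t774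

theorem r776 : St 101404879 286885045586215 187740 2918836 :=
  chk_sound good2 (by norm_num) (by norm_num) (by norm_num) r775 t775

theorem r777 : St 101535733 287606091386415 187945 2922389 :=
  chk_sound good2 (by norm_num) (by norm_num) (by norm_num) r776 t776

theorem r778 : St 101666527 288325628541957 188158 2925930 :=
  chk_sound good2 (by norm_num) (by norm_num) (by norm_num) r777 t777

theorem r779 : St 101797187 289045485158409 188387 2929468 :=
  chk_sound good2 (by norm_num) (by norm_num) (by norm_num) r778 t778

theorem r780 : St 101928077 289769323645587 188596 2933021 :=
  chk_sound good2 (by norm_num) (by norm_num) (by norm_num) r779 t779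

theorem r781 : St 102058829 290498575900359 188806 2936596 :=
  chk_sound good2 (by norm_num) (by norm_num) (by norm_num) r780 t780

theorem r782 : St 102189611 291226111281133 189032 2940158 :=
  chk_sound good2 (by norm_num) (by norm_num) (by norm_num) r781 t781

theorem r783 : St 102320437 291955191031419 189258 2943723 :=
  chk_sound good2 (by norm_num) (by norm_num) (by norm_num) r782 t782

theorem r784 : St 102451291 292684381100625 189478 2947284 :=
  chk_sound good2 (by norm_num) (by norm_num) (by norm_num) r783 t783

theorem r785 : St 102581951 293411428743583 189697 2950830 :=
  chk_sound good2 (by norm_num) (by norm_num) (by norm_num) r784 t784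

theorem r786 : St 102712769 294136528047801 189906 2954362 :=
  chk_sound good2 (by norm_num) (by norm_num) (by norm_num) r785 t785

theorem r787 : St 102843601 294868720479839 190117 2957924 :=
  chk_sound good2 (by norm_num) (by norm_num) (by norm_num) r786 t786

theorem r788 : St 102974373 295595051721957 190331 2961453 :=
  chk_sound good2 (by norm_num) (by norm_num) (by norm_num) r787 t787

theorem r789 : St 103105285 296328284378947 190531 2965011 :=
  chk_sound good2 (by norm_num) (by norm_num) (by norm_num) r788 t788

theorem r790 : St 103236191 297053162066129 190724 2968524 :=
  chk_sound good2 (by norm_num) (by norm_num) (by norm_num) r789 t789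

theorem r791 : St 103367009 297789911218259 190945 2972090 :=
  chk_sound good2 (by norm_num) (by norm_num) (by norm_num) r790 t790

theorem r792 : St 103497733 298525108543813 191183 2975644 :=
  chk_sound good2 (by norm_num) (by norm_num) (by norm_num) r791 t791

theorem r793 : St 103628491 299254193232261 191403 2979164 :=
  chk_sound good2 (by norm_num) (by norm_num) (by norm_num) r792 t792

theorem r794 : St 103759339 299987310147613 191595 2982699 :=
  chk_sound good2 (by norm_num) (by norm_num) (by norm_num) r793 t793

theorem r795 : St 103890121 300721974968735 191838 2986237 :=
  chk_sound good2 (by norm_num) (by norm_num) (by norm_num) r794 t794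

theorem r796 : St 104020923 301462347458659 192052 2989798 :=
  chk_sound good2 (by norm_num) (by norm_num) (by norm_num) r795 t795

theorem r797 : St 104151691 302205520355189 192260 2993368 :=
  chk_sound good2 (by norm_num) (by norm_num) (by norm_num) r796 t796

theorem r798 : St 104282671 302957135534421 192495 2996974 :=
  chk_sound good2 (by norm_num) (by norm_num) (by norm_num) r797 t797

theorem r799 : St 104413571 303690704073997 192701 3000489 :=
  chk_sound good2 (by norm_num) (by norm_num) (by norm_num) r798 t798

theorem r800 : St 104544233 304430831721943 192920 3004031 :=
  chk_sound good2 (by norm_num) (by norm_num) (by norm_num) r799 t799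

theorem r801 : St 104675041 305168745561013 193172 3007558 :=
  chk_sound good2 (by norm_num) (by norm_num) (by norm_num) r800 t800

theorem r802 : St 104805815 305905279129271 193374 3011074 :=
  chk_sound good2 (by norm_num) (by norm_num) (by norm_num) r801 t801

theorem r803 : St 104936625 306650280217361 193594 3014626 :=
  chk_sound good2 (by norm_num) (by norm_num) (by norm_num) r802 t802

theorem r804 : St 105067365 307395794352705 193804 3018176 :=
  chk_sound good2 (by norm_num) (by norm_num) (by norm_num) r803 t803

theorem r805 : St 105198077 308142028509715 194009 3021725 :=
  chk_sound good2 (by norm_num) (by norm_num) (by norm_num) r804 t804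

theorem r806 : St 105328963 308884345804389 194248 3025251 :=
  chk_sound good2 (by norm_num) (by norm_num) (by norm_num) r805 t805

theorem r807 : St 105459647 309631168926285 194476 3028794 :=
  chk_sound good2 (by norm_num) (by norm_num) (by norm_num) r806 t806

theorem r808 : St 105590415 310376810180643 194697 3032327 :=
  chk_sound good2 (by norm_num) (by norm_num) (by norm_num) r807 t807

theorem r809 : St 105721447 311121052334079 194919 3035849 :=
  chk_sound good2 (by norm_num) (by norm_num) (by norm_num) r808 t808

theorem r810 : St 105852287 311872560874561 195106 3039401 :=
  chk_sound good2 (by norm_num) (by norm_num) (by norm_num) r809 t809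

theorem r811 : St 105983113 312620975086243 195302 3042934 :=
  chk_sound good2 (by norm_num) (by norm_num) (by norm_num) r810 t810

theorem r812 : St 106113941 313369678418903 195533 3046464 :=
  chk_sound good2 (by norm_num) (by norm_num) (by norm_num) r811 t811

theorem r813 : St 106244837 314119941492337 195743 3049997 :=
  chk_sound good2 (by norm_num) (by norm_num) (by norm_num) r812 t812

theorem r814 : St 106375609 314873256371183 195938 3053540 :=
  chk_sound good2 (by norm_num) (by norm_num) (by norm_num) r813 t813

theorem r815 : St 106506341 315626647381175 196154 3057079 :=
  chk_sound good2 (by norm_num) (by norm_num) (by norm_num) r814 t814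

theorem r816 : St 106637213 316380533554919 196377 3060616 :=
  chk_sound good2 (by norm_num) (by norm_num) (by norm_num) r815 t815

theorem r817 : St 106767971 317134278765081 196597 3064148 :=
  chk_sound good2 (by norm_num) (by norm_num) (by norm_num) r816 t816

theorem r818 : St 106898773 317890446585831 196789 3067687 :=
  chk_sound good2 (by norm_num) (by norm_num) (by norm_num) r817 t817

theorem r819 : St 107029529 318649468251023 196993 3071235 :=
  chk_sound good2 (by norm_num) (by norm_num) (by norm_num) r818 t818

theorem r820 : St 107160439 319404705295821 197188 3074761 :=
  chk_sound good2 (by norm_num) (by norm_num) (by norm_num) r819 t819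

theorem r821 : St 107291143 320171153229393 197403 3078335 :=
  chk_sound good2 (by norm_num) (by norm_num) (by norm_num) r820 t820

theorem r822 : St 107421999 320931451754427 197595 3081876 :=
  chk_sound good2 (by norm_num) (by norm_num) (by norm_num) r821 t821

theorem r823 : St 107552867 321690955613141 197802 3085409 :=
  chk_sound good2 (by norm_num) (by norm_num) (by norm_num) r822 t822

theorem r824 : St 107683737 322458061649383 197997 3088973 :=
  chk_sound good2 (by norm_num) (by norm_num) (by norm_num) r823 t823

theorem r825 : St 107814467 323220925420983 198213 3092513 :=
  chk_sound good2 (by norm_num) (by norm_num) (by norm_num) r824 t824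

theorem r826 : St 107945289 323978240513765 198414 3096023 :=
  chk_sound good2 (by norm_num) (by norm_num) (by norm_num) r825 t825

theorem r827 : St 108076219 324740368894827 198613 3099551 :=
  chk_sound good2 (by norm_num) (by norm_num) (by norm_num) r826 t826

theorem r828 : St 108206947 325504498396683 198829 3103084 :=
  chk_sound good2 (by norm_num) (by norm_num) (by norm_num) r827 t827

theorem r829 : St 108337741 326276697051601 199044 3106650 :=
  chk_sound good2 (by norm_num) (by norm_num) (by norm_num) r828 t828

theorem r830 : St 108468503 327053296618097 199265 3110232 :=
  chk_sound good2 (by norm_num) (by norm_num) (by norm_num) r829 t829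

theorem r831 : St 108599371 327825188779273 199470 3113788 :=
  chk_sound good2 (by norm_num) (by norm_num) (by norm_num) r830 t830

theorem r832 : St 108730301 328588014969043 199671 3117298 :=
  chk_sound good2 (by norm_num) (by norm_num) (by norm_num) r831 t831

theorem r833 : St 108861107 329362203190047 199893 3120856 :=
  chk_sound good2 (by norm_num) (by norm_num) (by norm_num) r832 t832

theorem r834 : St 108991985 330126432643683 200109 3124364 :=
  chk_sound good2 (by norm_num) (by norm_num) (by norm_num) r833 t833

theorem r835 : St 109122733 330894194880845 200319 3127884 :=
  chk_sound good2 (by norm_num) (by norm_num) (by norm_num) r834 t834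

theorem r836 : St 109253567 331674453000649 200515 3131457 :=
  chk_sound good2 (by norm_num) (by norm_num) (by norm_num) r835 t835

theorem r837 : St 109384407 332442529943403 200724 3134970 :=
  chk_sound good2 (by norm_num) (by norm_num) (by norm_num) r836 t836

theorem r838 : St 109515199 333222248981567 200943 3138532 :=
  chk_sound good2 (by norm_num) (by norm_num) (by norm_num) r837 t837

theorem r839 : St 109645965 333997860775339 201161 3142071 :=
  chk_sound good2 (by norm_num) (by norm_num) (by norm_num) r838 t838

theorem r840 : St 109776683 334771546173595 201371 3145597 :=
  chk_sound good2 (by norm_num) (by norm_num) (by norm_num) r839 t839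

theorem r841 : St 109907599 335550545246119 201550 3149143 :=
  chk_sound good2 (by norm_num) (by norm_num) (by norm_num) r840 t840

theorem r842 : St 110038403 336334432430925 201747 3152707 :=
  chk_sound good2 (by norm_num) (by norm_num) (by norm_num) r841 t841

theorem r843 : St 110169189 337113964013645 201974 3156247 :=
  chk_sound good2 (by norm_num) (by norm_num) (by norm_num) r842 t842

theorem r844 : St 110299973 337885388928495 202190 3159746 :=
  chk_sound good2 (by norm_num) (by norm_num) (by norm_num) r843 t843

theorem r845 : St 110430883 338654642068283 202376 3163231 :=
  chk_sound good2 (by norm_num) (by norm_num) (by norm_num) r844 t844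

theorem r846 : St 110561819 339433637942287 202571 3166756 :=
  chk_sound good2 (by norm_num) (by norm_num) (by norm_num) r845 t845

theorem r847 : St 110692577 340215551181585 202783 3170290 :=
  chk_sound good2 (by norm_num) (by norm_num) (by norm_num) r846 t846

theorem r848 : St 110823389 340996393361973 202982 3173815 :=
  chk_sound good2 (by norm_num) (by norm_num) (by norm_num) r847 t847

theorem r849 : St 110954113 341779708947949 203174 3177347 :=
  chk_sound good2 (by norm_num) (by norm_num) (by norm_num) r848 t848

theorem r850 : St 111084913 342568388732487 203362 3180899 :=
  chk_sound good2 (by norm_num) (by norm_num) (by norm_num) r849 t849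

theorem r851 : St 111215667 343352221279703 203595 3184425 :=
  chk_sound good2 (by norm_num) (by norm_num) (by norm_num) r850 t850

theorem r852 : St 111346603 344135199039137 203786 3187943 :=
  chk_sound good2 (by norm_num) (by norm_num) (by norm_num) r851 t851

theorem r853 : St 111477409 344914189226901 203977 3191439 :=
  chk_sound good2 (by norm_num) (by norm_num) (by norm_num) r852 t852

theorem r854 : St 111608227 345697889026423 204200 3194952 :=
  chk_sound good2 (by norm_num) (by norm_num) (by norm_num) r853 t853

theorem r855 : St 111738937 346485189117395 204392 3198477 :=
  chk_sound good2 (by norm_num) (by norm_num) (by norm_num) r854 t854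

theorem r856 : St 111869773 347279893595131 204627 3202031 :=
  chk_sound good2 (by norm_num) (by norm_num) (by norm_num) r855 t855

theorem r857 : St 112000667 348066350190023 204852 3205544 :=
  chk_sound good2 (by norm_num) (by norm_num) (by norm_num) r856 t856

theorem r858 : St 112131493 348867622286899 205075 3209119 :=
  chk_sound good2 (by norm_num) (by norm_num) (by norm_num) r857 t857

theorem r859 : St 112262275 349661077202455 205300 3212655 :=
  chk_sound good2 (by norm_num) (by norm_num) (by norm_num) r858 t858

theorem r860 : St 112393227 350455460103189 205507 3216191 :=
  chk_sound good2 (by norm_num) (by norm_num) (by norm_num) r859 t859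

theorem r861 : St 112524065 351239972735825 205748 3219679 :=
  chk_sound good2 (by norm_num) (by norm_num) (by norm_num) r860 t860

theorem r862 : St 112654815 352034629205995 205929 3223208 :=
  chk_sound good2 (by norm_num) (by norm_num) (by norm_num) r861 t861

theorem r863 : St 112785693 352837424485255 206158 3226769 :=
  chk_sound good2 (by norm_num) (by norm_num) (by norm_num) r862 t862

theorem r864 : St 112916631 353631219401405 206373 3230286 :=
  chk_sound good2 (by norm_num) (by norm_num) (by norm_num) r863 t863

theorem r865 : St 113047541 354425482703211 206560 3233801 :=
  chk_sound good2 (by norm_num) (by norm_num) (by norm_num) r864 t864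

theorem r866 : St 113178319 355237632386611 206761 3237391 :=
  chk_sound good2 (by norm_num) (by norm_num) (by norm_num) r865 t865

theorem r867 : St 113309101 356027847771159 206984 3240880 :=
  chk_sound good2 (by norm_num) (by norm_num) (by norm_num) r866 t866

theorem r868 : St 113439857 356825093717923 207206 3244396 :=
  chk_sound good2 (by norm_num) (by norm_num) (by norm_num) r867 t867

theorem r869 : St 113570729 357629619522795 207404 3247940 :=
  chk_sound good2 (by norm_num) (by norm_num) (by norm_num) r868 t868

theorem r870 : St 113701441 358420757612527 207589 3251421 :=
  chk_sound good2 (by norm_num) (by norm_num) (by norm_num) r869 t869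

theorem r871 : St 113832307 359221678410537 207804 3254941 :=
  chk_sound good2 (by norm_num) (by norm_num) (by norm_num) r870 t870

theorem r872 : St 113963171 360020560170449 208017 3258448 :=
  chk_sound good2 (by norm_num) (by norm_num) (by norm_num) r871 t871

theorem r873 : St 114093895 360817391945733 208221 3261942 :=
  chk_sound good2 (by norm_num) (by norm_num) (by norm_num) r872 t872

theorem r874 : St 114224775 361626552595445 208433 3265486 :=
  chk_sound good2 (by norm_num) (by norm_num) (by norm_num) r873 t873

theorem r875 : St 114355649 362441215841789 208630 3269050 :=
  chk_sound good2 (by norm_num) (by norm_num) (by norm_num) r874 t874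

theorem r876 : St 114486647 363235755414407 208829 3272522 :=
  chk_sound good2 (by norm_num) (by norm_num) (by norm_num) r875 t875

theorem r877 : St 114617357 364035787818575 209033 3276014 :=
  chk_sound good2 (by norm_num) (by norm_num) (by norm_num) r876 t876

theorem r878 : St 114748185 364845900654249 209243 3279546 :=
  chk_sound good2 (by norm_num) (by norm_num) (by norm_num) r877 t877

theorem r879 : St 114878909 365658322036671 209419 3283084 :=
  chk_sound good2 (by norm_num) (by norm_num) (by norm_num) r878 t878

theorem r880 : St 115009799 366466382830947 209637 3286599 :=
  chk_sound good2 (by norm_num) (by norm_num) (by norm_num) r879 t879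

theorem r881 : St 115140617 367278351991327 209829 3290127 :=
  chk_sound good2 (by norm_num) (by norm_num) (by norm_num) r880 t880

theorem r882 : St 115271489 368089402146983 210071 3293647 :=
  chk_sound good2 (by norm_num) (by norm_num) (by norm_num) r881 t881

theorem r883 : St 115402327 368900220579435 210297 3297162 :=
  chk_sound good2 (by norm_num) (by norm_num) (by norm_num) r882 t882

theorem r884 : St 115533049 369712654078167 210514 3300680 :=
  chk_sound good2 (by norm_num) (by norm_num) (by norm_num) r883 t883

theorem r885 : St 115663787 370527855578305 210725 3304206 :=
  chk_sound good2 (by norm_num) (by norm_num) (by norm_num) r884 t884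

theorem r886 : St 115794429 371340041598337 210935 3307715 :=
  chk_sound good2 (by norm_num) (by norm_num) (by norm_num) r885 t885

theorem r887 : St 115925203 372158247126565 211148 3311246 :=
  chk_sound good2 (by norm_num) (by norm_num) (by norm_num) r886 t886

theorem r888 : St 116055989 372983867506325 211377 3314805 :=
  chk_sound good2 (by norm_num) (by norm_num) (by norm_num) r887 t887

theorem r889 : St 116186701 373806702921491 211547 3318348 :=
  chk_sound good2 (by norm_num) (by norm_num) (by norm_num) r888 t888

theorem r890 : St 116317501 374616979345963 211730 3321833 :=
  chk_sound good2 (by norm_num) (by norm_num) (by norm_num) r889 t889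

theorem r891 : St 116448259 375446322935723 211932 3325396 :=
  chk_sound good2 (by norm_num) (by norm_num) (by norm_num) r890 t890

theorem r892 : St 116579059 376260753827529 212131 3328891 :=
  chk_sound good2 (by norm_num) (by norm_num) (by norm_num) r891 t891

theorem r893 : St 116709871 377087294136445 212345 3332434 :=
  chk_sound good2 (by norm_num) (by norm_num) (by norm_num) r892 t892

theorem r894 : St 116840657 377902385462547 212536 3335924 :=
  chk_sound good2 (by norm_num) (by norm_num) (by norm_num) r893 t893

theorem r895 : St 116971553 378729149361209 212759 3339460 :=
  chk_sound good2 (by norm_num) (by norm_num) (by norm_num) r894 t894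

theorem r896 : St 117102331 379554729877527 212965 3342987 :=
  chk_sound good2 (by norm_num) (by norm_num) (by norm_num) r895 t895

theorem r897 : St 117233213 380376078491239 213195 3346492 :=
  chk_sound good2 (by norm_num) (by norm_num) (by norm_num) r896 t896

theorem r898 : St 117364045 381199513171063 213411 3350002 :=
  chk_sound good2 (by norm_num) (by norm_num) (by norm_num) r897 t897

theorem r899 : St 117494849 382022927762839 213603 3353508 :=
  chk_sound good2 (by norm_num) (by norm_num) (by norm_num) r898 t898

theorem r900 : St 117625663 382853138307675 213800 3357039 :=
  chk_sound good2 (by norm_num) (by norm_num) (by norm_num) r899 t899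

theorem r901 : St 117756511 383673677648857 214004 3360525 :=
  chk_sound good2 (by norm_num) (by norm_num) (by norm_num) r900 t900

theorem r902 : St 117887269 384511387307379 214219 3364080 :=
  chk_sound good2 (by norm_num) (by norm_num) (by norm_num) r901 t901

theorem r903 : St 118018115 385341773094475 214431 3367600 :=
  chk_sound good2 (by norm_num) (by norm_num) (by norm_num) r902 t902

theorem r904 : St 118148903 386171662350061 214639 3371114 :=
  chk_sound good2 (by norm_num) (by norm_num) (by norm_num) r903 t903

theorem r905 : St 118279653 387003177901887 214838 3374631 :=
  chk_sound good2 (by norm_num) (by norm_num) (by norm_num) r904 t904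

theorem r906 : St 118410613 387837274475039 215062 3378155 :=
  chk_sound good2 (by norm_num) (by norm_num) (by norm_num) r905 t905

theorem r907 : St 118541543 388673714039385 215293 3381685 :=
  chk_sound good2 (by norm_num) (by norm_num) (by norm_num) r906 t906

theorem r908 : St 118672389 389505385774063 215522 3385191 :=
  chk_sound good2 (by norm_num) (by norm_num) (by norm_num) r907 t907

theorem r909 : St 118803285 390340584021057 215744 3388708 :=
  chk_sound good2 (by norm_num) (by norm_num) (by norm_num) r908 t908

theorem r910 : St 118934185 391171713549113 215946 3392204 :=
  chk_sound good2 (by norm_num) (by norm_num) (by norm_num) r909 t909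

theorem r911 : St 119064917 392002094073921 216153 3395693 :=
  chk_sound good2 (by norm_num) (by norm_num) (by norm_num) r910 t910

theorem r912 : St 119195775 392830288829853 216353 3399169 :=
  chk_sound good2 (by norm_num) (by norm_num) (by norm_num) r911 t911

theorem r913 : St 119326567 393670365441073 216559 3402691 :=
  chk_sound good2 (by norm_num) (by norm_num) (by norm_num) r912 t912

theorem r914 : St 119457421 394508735488259 216783 3406202 :=
  chk_sound good2 (by norm_num) (by norm_num) (by norm_num) r913 t913

theorem r915 : St 119588213 395352325973129 216993 3409731 :=
  chk_sound good2 (by norm_num) (by norm_num) (by norm_num) r914 t914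

theorem r916 : St 119719057 396191575974687 217180 3413238 :=
  chk_sound good2 (by norm_num) (by norm_num) (by norm_num) r915 t915

theorem r917 : St 119849859 397034859907341 217402 3416758 :=
  chk_sound good2 (by norm_num) (by norm_num) (by norm_num) r916 t916

theorem r918 : St 119980547 397884577567987 217612 3420301 :=
  chk_sound good2 (by norm_num) (by norm_num) (by norm_num) r917 t917

theorem r919 : St 120111349 398739304927155 217833 3423861 :=
  chk_sound good2 (by norm_num) (by norm_num) (by norm_num) r918 t918

theorem r920 : St 120242141 399583429541571 218038 3427373 :=
  chk_sound good2 (by norm_num) (by norm_num) (by norm_num) r919 t919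

theorem r921 : St 120372919 400417158477793 218240 3430838 :=
  chk_sound good2 (by norm_num) (by norm_num) (by norm_num) r920 t920

theorem r922 : St 120503711 401263597447475 218424 3434352 :=
  chk_sound good2 (by norm_num) (by norm_num) (by norm_num) r921 t921

theorem r923 : St 120634637 402109511634887 218627 3437860 :=
  chk_sound good2 (by norm_num) (by norm_num) (by norm_num) r922 t922

theorem r924 : St 120765447 402954169740725 218840 3441359 :=
  chk_sound good2 (by norm_num) (by norm_num) (by norm_num) r923 t923

theorem r925 : St 120896235 403795640711449 219053 3444841 :=
  chk_sound good2 (by norm_num) (by norm_num) (by norm_num) r924 t924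

theorem r926 : St 121027103 404653019753787 219257 3448385 :=
  chk_sound good2 (by norm_num) (by norm_num) (by norm_num) r925 t925

theorem r927 : St 121157741 405507688003423 219463 3451914 :=
  chk_sound good2 (by norm_num) (by norm_num) (by norm_num) r926 t926

theorem r928 : St 121288591 406358915655493 219660 3455425 :=
  chk_sound good2 (by norm_num) (by norm_num) (by norm_num) r927 t927

theorem r929 : St 121419315 407206695658257 219882 3458918 :=
  chk_sound good2 (by norm_num) (by norm_num) (by norm_num) r928 t928

theorem r930 : St 121550145 408057814138261 220078 3462421 :=
  chk_sound good2 (by norm_num) (by norm_num) (by norm_num) r929 t929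

theorem r931 : St 121680935 408911063540393 220294 3465929 :=
  chk_sound good2 (by norm_num) (by norm_num) (by norm_num) r930 t930

theorem r932 : St 121811731 409766449711637 220499 3469442 :=
  chk_sound good2 (by norm_num) (by norm_num) (by norm_num) r931 t931

theorem r933 : St 121942567 410628122176823 220698 3472977 :=
  chk_sound good2 (by norm_num) (by norm_num) (by norm_num) r932 t932

theorem r934 : St 122073403 411489011423031 220914 3476505 :=
  chk_sound good2 (by norm_num) (by norm_num) (by norm_num) r933 t933

theorem r935 : St 122204247 412343250583161 221154 3480002 :=
  chk_sound good2 (by norm_num) (by norm_num) (by norm_num) r934 t934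

theorem r936 : St 122335021 413200114720661 221360 3483506 :=
  chk_sound good2 (by norm_num) (by norm_num) (by norm_num) r935 t935

theorem r937 : St 122465769 414049082844863 221541 3486974 :=
  chk_sound good2 (by norm_num) (by norm_num) (by norm_num) r936 t936

theorem r938 : St 122596627 414904351983333 221727 3490464 :=
  chk_sound good2 (by norm_num) (by norm_num) (by norm_num) r937 t937

theorem r939 : St 122727233 415768869751059 221944 3493988 :=
  chk_sound good2 (by norm_num) (by norm_num) (by norm_num) r938 t938

theorem r940 : St 122857955 416642415878955 222161 3497545 :=
  chk_sound good2 (by norm_num) (by norm_num) (by norm_num) r939 t939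

theorem r941 : St 122988809 417501649528643 222370 3501040 :=
  chk_sound good2 (by norm_num) (by norm_num) (by norm_num) r940 t940

theorem r942 : St 123119641 418361554536745 222601 3504534 :=
  chk_sound good2 (by norm_num) (by norm_num) (by norm_num) r941 t941

theorem r943 : St 123250455 419230008415283 222797 3508059 :=
  chk_sound good2 (by norm_num) (by norm_num) (by norm_num) r942 t942

theorem r944 : St 123381287 420098150181099 223007 3511579 :=
  chk_sound good2 (by norm_num) (by norm_num) (by norm_num) r943 t943

theorem r945 : St 123512193 420964248658393 223197 3515087 :=
  chk_sound good2 (by norm_num) (by norm_num) (by norm_num) r944 t944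

theorem r946 : St 123643007 421831266344261 223419 3518595 :=
  chk_sound good2 (by norm_num) (by norm_num) (by norm_num) r945 t945

theorem r947 : St 123773747 422706130363643 223612 3522131 :=
  chk_sound good2 (by norm_num) (by norm_num) (by norm_num) r946 t946

theorem r948 : St 123904517 423581177741503 223850 3525664 :=
  chk_sound good2 (by norm_num) (by norm_num) (by norm_num) r947 t947

theorem r949 : St 124035225 424455910525203 224037 3529192 :=
  chk_sound good2 (by norm_num) (by norm_num) (by norm_num) r948 t948

theorem r950 : St 124166017 425317418593469 224222 3532663 :=
  chk_sound good2 (by norm_num) (by norm_num) (by norm_num) r949 t949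

theorem r951 : St 124296927 426201200677467 224428 3536220 :=
  chk_sound good2 (by norm_num) (by norm_num) (by norm_num) r950 t950

theorem r952 : St 124427587 427073973672433 224635 3539729 :=
  chk_sound good2 (by norm_num) (by norm_num) (by norm_num) r951 t951

theorem r953 : St 124558459 427942186113499 224852 3543216 :=
  chk_sound good2 (by norm_num) (by norm_num) (by norm_num) r952 t952

theorem r954 : St 124689359 428816797664387 225057 3546725 :=
  chk_sound good2 (by norm_num) (by norm_num) (by norm_num) r953 t953

theorem r955 : St 124820187 429691824750139 225283 3550232 :=
  chk_sound good2 (by norm_num) (by norm_num) (by norm_num) r954 t954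

theorem r956 : St 124950949 430571019467617 225468 3553752 :=
  chk_sound good2 (by norm_num) (by norm_num) (by norm_num) r955 t955

theorem r957 : St 125081713 431448634505835 225665 3557262 :=
  chk_sound good2 (by norm_num) (by norm_num) (by norm_num) r956 t956

theorem r958 : St 125212663 432322413662643 225899 3560753 :=
  chk_sound good2 (by norm_num) (by norm_num) (by norm_num) r957 t957

theorem r959 : St 125343489 433211636521295 226102 3564302 :=
  chk_sound good2 (by norm_num) (by norm_num) (by norm_num) r958 t958

theorem r960 : St 125474235 434083226700669 226344 3567777 :=
  chk_sound good2 (by norm_num) (by norm_num) (by norm_num) r959 t959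

theorem r961 : St 125604965 434957982453861 226536 3571261 :=
  chk_sound good2 (by norm_num) (by norm_num) (by norm_num) r960 t960

theorem r962 : St 125735839 435843456423053 226760 3574784 :=
  chk_sound good2 (by norm_num) (by norm_num) (by norm_num) r961 t961

theorem r963 : St 125866641 436729597342685 226995 3578306 :=
  chk_sound good2 (by norm_num) (by norm_num) (by norm_num) r962 t962

theorem r964 : St 125997481 437621195902813 227185 3581846 :=
  chk_sound good2 (by norm_num) (by norm_num) (by norm_num) r963 t963

theorem r965 : St 126128309 438506914628485 227377 3585359 :=
  chk_sound good2 (by norm_num) (by norm_num) (by norm_num) r964 t964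

theorem r966 : St 126259141 439388502012063 227563 3588852 :=
  chk_sound good2 (by norm_num) (by norm_num) (by norm_num) r965 t965

theorem r967 : St 126389889 440278835680859 227786 3592376 :=
  chk_sound good2 (by norm_num) (by norm_num) (by norm_num) r966 t966

theorem r968 : St 126520737 441163514438367 228010 3595874 :=
  chk_sound good2 (by norm_num) (by norm_num) (by norm_num) r967 t967

theorem r969 : St 126651535 442057719311713 228221 3599406 :=
  chk_sound good2 (by norm_num) (by norm_num) (by norm_num) r968 t968

theorem r970 : St 126782341 442940935993439 228450 3602891 :=
  chk_sound good2 (by norm_num) (by norm_num) (by norm_num) r969 t969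

theorem r971 : St 126913199 443828108038117 228684 3606388 :=
  chk_sound good2 (by norm_num) (by norm_num) (by norm_num) r970 t970

theorem r972 : St 127043923 444722039497515 228915 3609908 :=
  chk_sound good2 (by norm_num) (by norm_num) (by norm_num) r971 t971

theorem r973 : St 127174633 445615106341851 229138 3613421 :=
  chk_sound good2 (by norm_num) (by norm_num) (by norm_num) r972 t972

theorem r974 : St 127305539 446500696532313 229334 3616901 :=
  chk_sound good2 (by norm_num) (by norm_num) (by norm_num) r973 t973

theorem r975 : St 127436453 447392293807955 229560 3620401 :=
  chk_sound good2 (by norm_num) (by norm_num) (by norm_num) r974 t974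

theorem r976 : St 127567327 448290925741873 229755 3623925 :=
  chk_sound good2 (by norm_num) (by norm_num) (by norm_num) r975 t975

theorem r977 : St 127698199 449177465321069 229977 3627398 :=
  chk_sound good2 (by norm_num) (by norm_num) (by norm_num) r976 t976

theorem r978 : St 127828977 450076407929687 230224 3630916 :=
  chk_sound good2 (by norm_num) (by norm_num) (by norm_num) r977 t977

theorem r979 : St 127959809 450971414663165 230434 3634415 :=
  chk_sound good2 (by norm_num) (by norm_num) (by norm_num) r978 t978

theorem r980 : St 128090633 451878600035605 230658 3637958 :=
  chk_sound good2 (by norm_num) (by norm_num) (by norm_num) r979 t979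

theorem r981 : St 128221457 452774667227419 230854 3641454 :=
  chk_sound good2 (by norm_num) (by norm_num) (by norm_num) r980 t980

theorem r982 : St 128352317 453665748216821 231072 3644927 :=
  chk_sound good2 (by norm_num) (by norm_num) (by norm_num) r981 t981

theorem r983 : St 128483213 454560561430563 231306 3648411 :=
  chk_sound good2 (by norm_num) (by norm_num) (by norm_num) r982 t982

theorem r984 : St 128614037 455471712674503 231524 3651955 :=
  chk_sound good2 (by norm_num) (by norm_num) (by norm_num) r983 t983

theorem r985 : St 128744911 456378387965489 231736 3655478 :=
  chk_sound good2 (by norm_num) (by norm_num) (by norm_num) r984 t984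

theorem r986 : St 128875771 457293971103151 231939 3659032 :=
  chk_sound good2 (by norm_num) (by norm_num) (by norm_num) r985 t985

theorem r987 : St 129006485 458197593326885 232164 3662536 :=
  chk_sound good2 (by norm_num) (by norm_num) (by norm_num) r986 t986

theorem r988 : St 129137357 459092580104341 232374 3666003 :=
  chk_sound good2 (by norm_num) (by norm_num) (by norm_num) r987 t987

theorem r989 : St 129268233 460000874429029 232573 3669518 :=
  chk_sound good2 (by norm_num) (by norm_num) (by norm_num) r988 t988

theorem r990 : St 129398975 460909054499907 232806 3673029 :=
  chk_sound good2 (by norm_num) (by norm_num) (by norm_num) r989 t989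

theorem r991 : St 129529665 461818926958899 233015 3676543 :=
  chk_sound good2 (by norm_num) (by norm_num) (by norm_num) r990 t990

theorem r992 : St 129660439 462728944201791 233219 3680054 :=
  chk_sound good2 (by norm_num) (by norm_num) (by norm_num) r991 t991

theorem r993 : St 129791285 463643255165763 233418 3683578 :=
  chk_sound good2 (by norm_num) (by norm_num) (by norm_num) r992 t992

theorem r994 : St 129922157 464537447901267 233586 3687021 :=
  chk_sound good2 (by norm_num) (by norm_num) (by norm_num) r993 t993

theorem r995 : St 130053019 465445541901495 233828 3690514 :=
  chk_sound good2 (by norm_num) (by norm_num) (by norm_num) r994 t994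

theorem r996 : St 130183853 466348305222689 234043 3693983 :=
  chk_sound good2 (by norm_num) (by norm_num) (by norm_num) r995 t995

theorem r997 : St 130314773 467257184796673 234251 3697472 :=
  chk_sound good2 (by norm_num) (by norm_num) (by norm_num) r996 t996

theorem r998 : St 130445677 468173496795241 234451 3700986 :=
  chk_sound good2 (by norm_num) (by norm_num) (by norm_num) r997 t997

theorem r999 : St 130576409 469082899936085 234658 3704470 :=
  chk_sound good2 (by norm_num) (by norm_num) (by norm_num) r998 t998

theorem r1000 : St 130707217 469998961285883 234870 3707976 :=
  chk_sound good2 (by norm_num) (by norm_num) (by norm_num) r999 t999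

theorem r1001 : St 130837979 470916720697915 235056 3711485 :=
  chk_sound good2 (by norm_num) (by norm_num) (by norm_num) r1000 t1000

theorem r1002 : St 130968753 471837493191593 235264 3715002 :=
  chk_sound good2 (by norm_num) (by norm_num) (by norm_num) r1001 t1001

theorem r1003 : St 131099435 472759447176713 235474 3718520 :=
  chk_sound good2 (by norm_num) (by norm_num) (by norm_num) r1002 t1002

theorem r1004 : St 131230201 473675762969349 235676 3722013 :=
  chk_sound good2 (by norm_num) (by norm_num) (by norm_num) r1003 t1003

theorem r1005 : St 131361067 474599299650021 235866 3725530 :=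
  chk_sound good2 (by norm_num) (by norm_num) (by norm_num) r1004 t1004

theorem r1006 : St 131491829 475516655858877 236067 3729020 :=
  chk_sound good2 (by norm_num) (by norm_num) (by norm_num) r1005 t1005

theorem r1007 : St 131622599 476432821332981 236259 3732502 :=
  chk_sound good2 (by norm_num) (by norm_num) (by norm_num) r1006 t1006

theorem r1008 : St 131753387 477368070060443 236454 3736053 :=
  chk_sound good2 (by norm_num) (by norm_num) (by norm_num) r1007 t1007

theorem r1009 : St 131884235 478279204256617 236656 3739509 :=
  chk_sound good2 (by norm_num) (by norm_num) (by norm_num) r1008 t1008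

theorem r1010 : St 132015113 479198893519245 236878 3742994 :=
  chk_sound good2 (by norm_num) (by norm_num) (by norm_num) r1009 t1009

theorem r1011 : St 132145813 480117647035779 237070 3746472 :=
  chk_sound good2 (by norm_num) (by norm_num) (by norm_num) r1010 t1010

theorem r1012 : St 132276675 481050265596713 237301 3749999 :=
  chk_sound good2 (by norm_num) (by norm_num) (by norm_num) r1011 t1011

theorem r1013 : St 132407383 481970044900743 237499 3753474 :=
  chk_sound good2 (by norm_num) (by norm_num) (by norm_num) r1012 t1012

theorem r1014 : St 132538279 482902126507657 237703 3756992 :=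
  chk_sound good2 (by norm_num) (by norm_num) (by norm_num) r1013 t1013

theorem r1015 : St 132669073 483821866065527 237878 3760460 :=
  chk_sound good2 (by norm_num) (by norm_num) (by norm_num) r1014 t1014

theorem r1016 : St 132799739 484745167198279 238075 3763938 :=
  chk_sound good2 (by norm_num) (by norm_num) (by norm_num) r1015 t1015

theorem r1017 : St 132930647 485676285200399 238272 3767442 :=
  chk_sound good2 (by norm_num) (by norm_num) (by norm_num) r1016 t1016

theorem r1018 : St 133061385 486605129686639 238496 3770934 :=
  chk_sound good2 (by norm_num) (by norm_num) (by norm_num) r1017 t1017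

theorem r1019 : St 133192277 487545001714889 238724 3774464 :=
  chk_sound good2 (by norm_num) (by norm_num) (by norm_num) r1018 t1018

theorem r1020 : St 133323137 488463152011287 238942 3777909 :=
  chk_sound good2 (by norm_num) (by norm_num) (by norm_num) r1019 t1019

theorem r1021 : St 133453979 489405409274537 239150 3781441 :=
  chk_sound good2 (by norm_num) (by norm_num) (by norm_num) r1020 t1020

theorem r1022 : St 133584579 490327224724507 239344 3784893 :=
  chk_sound good2 (by norm_num) (by norm_num) (by norm_num) r1021 t1021

theorem r1023 : St 133715461 491262240704511 239543 3788391 :=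
  chk_sound good2 (by norm_num) (by norm_num) (by norm_num) r1022 t1022

theorem r1024 : St 133846247 492191216280265 239757 3791863 :=
  chk_sound good2 (by norm_num) (by norm_num) (by norm_num) r1023 t1023

theorem r1025 : St 133976959 493124312837513 239967 3795347 :=
  chk_sound good2 (by norm_num) (by norm_num) (by norm_num) r1024 t1024

theorem r1026 : St 134107693 494061000893337 240160 3798841 :=
  chk_sound good2 (by norm_num) (by norm_num) (by norm_num) r1025 t1025

theorem r1027 : St 134238449 495003166294807 240410 3802352 :=
  chk_sound good2 (by norm_num) (by norm_num) (by norm_num) r1026 t1026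

theorem r1028 : St 134369399 495945443312347 240625 3805860 :=
  chk_sound good2 (by norm_num) (by norm_num) (by norm_num) r1027 t1027

theorem r1029 : St 134500211 496888907880007 240834 3809369 :=
  chk_sound good2 (by norm_num) (by norm_num) (by norm_num) r1028 t1028

theorem r1030 : St 134630957 497819832935481 241043 3812828 :=
  chk_sound good2 (by norm_num) (by norm_num) (by norm_num) r1029 t1029

theorem r1031 : St 134761789 498768636854747 241236 3816350 :=
  chk_sound good2 (by norm_num) (by norm_num) (by norm_num) r1030 t1030

theorem r1032 : St 134892635 499713507695359 241435 3819854 :=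
  chk_sound good2 (by norm_num) (by norm_num) (by norm_num) r1031 t1031

theorem r1033 : St 135023293 500660641557181 241660 3823363 :=
  chk_sound good2 (by norm_num) (by norm_num) (by norm_num) r1032 t1032

theorem r1034 : St 135153989 501607611257095 241869 3826868 :=
  chk_sound good2 (by norm_num) (by norm_num) (by norm_num) r1033 t1033

theorem r1035 : St 135284869 502546303737249 242068 3830339 :=
  chk_sound good2 (by norm_num) (by norm_num) (by norm_num) r1034 t1034

theorem r1036 : St 135415723 503490235581223 242267 3833826 :=
  chk_sound good2 (by norm_num) (by norm_num) (by norm_num) r1035 t1035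

theorem r1037 : St 135546515 504435348097247 242473 3837314 :=
  chk_sound good2 (by norm_num) (by norm_num) (by norm_num) r1036 t1036

theorem r1038 : St 135677209 505372968311505 242665 3840771 :=
  chk_sound good2 (by norm_num) (by norm_num) (by norm_num) r1037 t1037

theorem r1039 : St 135807887 506316106588657 242871 3844245 :=
  chk_sound good2 (by norm_num) (by norm_num) (by norm_num) r1038 t1038

theorem r1040 : St 135938679 507264501183349 243078 3847735 :=
  chk_sound good2 (by norm_num) (by norm_num) (by norm_num) r1039 t1039

theorem r1041 : St 136069499 508213810938729 243281 3851225 :=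
  chk_sound good2 (by norm_num) (by norm_num) (by norm_num) r1040 t1040

theorem r1042 : St 136200287 509165397681937 243479 3854720 :=
  chk_sound good2 (by norm_num) (by norm_num) (by norm_num) r1041 t1041

theorem r1043 : St 136330937 510106177264147 243687 3858172 :=
  chk_sound good2 (by norm_num) (by norm_num) (by norm_num) r1042 t1042

theorem r1044 : St 136461763 511073773914297 243911 3861719 :=
  chk_sound good2 (by norm_num) (by norm_num) (by norm_num) r1043 t1043

theorem r1045 : St 136592593 512033559383289 244105 3865234 :=
  chk_sound good2 (by norm_num) (by norm_num) (by norm_num) r1044 t1044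

theorem r1046 : St 136723507 512994265236169 244315 3868749 :=
  chk_sound good2 (by norm_num) (by norm_num) (by norm_num) r1045 t1045

theorem r1047 : St 136854409 513945219518439 244513 3872225 :=
  chk_sound good2 (by norm_num) (by norm_num) (by norm_num) r1046 t1046

theorem r1048 : St 136985207 514899823978875 244711 3875711 :=
  chk_sound good2 (by norm_num) (by norm_num) (by norm_num) r1047 t1047

theorem r1049 : St 137116143 515855615510445 244939 3879198 :=
  chk_sound good2 (by norm_num) (by norm_num) (by norm_num) r1048 t1048

theorem r1050 : St 137246929 516805186144735 245149 3882659 :=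
  chk_sound good2 (by norm_num) (by norm_num) (by norm_num) r1049 t1049

theorem r1051 : St 137377661 517766646172467 245351 3886160 :=
  chk_sound good2 (by norm_num) (by norm_num) (by norm_num) r1050 t1050

theorem r1052 : St 137508389 518739468788761 245545 3889699 :=
  chk_sound good2 (by norm_num) (by norm_num) (by norm_num) r1051 t1051

theorem r1053 : St 137639219 519701935640967 245773 3893197 :=
  chk_sound good2 (by norm_num) (by norm_num) (by norm_num) r1052 t1052

theorem r1054 : St 137770187 520655128549775 245985 3896658 :=
  chk_sound good2 (by norm_num) (by norm_num) (by norm_num) r1053 t1053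

theorem r1055 : St 137900981 521612534481355 246201 3900131 :=
  chk_sound good2 (by norm_num) (by norm_num) (by norm_num) r1054 t1054

theorem r1056 : St 138031711 522568365040261 246413 3903595 :=
  chk_sound good2 (by norm_num) (by norm_num) (by norm_num) r1055 t1055

theorem r1057 : St 138162561 523531458660155 246639 3907082 :=
  chk_sound good2 (by norm_num) (by norm_num) (by norm_num) r1056 t1056

theorem r1058 : St 138293339 524478596727331 246839 3910508 :=
  chk_sound good2 (by norm_num) (by norm_num) (by norm_num) r1057 t1057

theorem r1059 : St 138424197 525453192738579 247049 3914030 :=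
  chk_sound good2 (by norm_num) (by norm_num) (by norm_num) r1058 t1058

theorem r1060 : St 138555047 526419574115313 247251 3917519 :=
  chk_sound good2 (by norm_num) (by norm_num) (by norm_num) r1059 t1059

theorem r1061 : St 138685831 527384371843075 247412 3920999 :=
  chk_sound good2 (by norm_num) (by norm_num) (by norm_num) r1060 t1060

theorem r1062 : St 138816687 528351190872813 247637 3924483 :=
  chk_sound good2 (by norm_num) (by norm_num) (by norm_num) r1061 t1061

theorem r1063 : St 138947587 529327252541009 247849 3927997 :=
  chk_sound good2 (by norm_num) (by norm_num) (by norm_num) r1062 t1062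

theorem r1064 : St 139078463 530297839580041 248052 3931488 :=
  chk_sound good2 (by norm_num) (by norm_num) (by norm_num) r1063 t1063

theorem r1065 : St 139209237 531260712812315 248267 3934948 :=
  chk_sound good2 (by norm_num) (by norm_num) (by norm_num) r1064 t1064

theorem r1066 : St 139340095 532234799134651 248467 3938445 :=
  chk_sound good2 (by norm_num) (by norm_num) (by norm_num) r1065 t1065

theorem r1067 : St 139471061 533217886917355 248667 3941971 :=
  chk_sound good2 (by norm_num) (by norm_num) (by norm_num) r1066 t1066

theorem r1068 : St 139601825 534188783123339 248863 3945450 :=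
  chk_sound good2 (by norm_num) (by norm_num) (by norm_num) r1067 t1067

theorem r1069 : St 139732811 535168689807403 249072 3948958 :=
  chk_sound good2 (by norm_num) (by norm_num) (by norm_num) r1068 t1068

theorem r1070 : St 139863707 536141404590557 249256 3952437 :=
  chk_sound good2 (by norm_num) (by norm_num) (by norm_num) r1069 t1069

theorem r1071 : St 139994549 537125386356781 249473 3955953 :=
  chk_sound good2 (by norm_num) (by norm_num) (by norm_num) r1070 t1070

theorem r1072 : St 140125241 538099920274263 249681 3959432 :=
  chk_sound good2 (by norm_num) (by norm_num) (by norm_num) r1071 t1071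

theorem r1073 : St 140256057 539073682220323 249896 3962905 :=
  chk_sound good2 (by norm_num) (by norm_num) (by norm_num) r1072 t1072

theorem r1074 : St 140386939 540055933871787 250098 3966405 :=
  chk_sound good2 (by norm_num) (by norm_num) (by norm_num) r1073 t1073

theorem r1075 : St 140517669 541027304349557 250280 3969863 :=
  chk_sound good2 (by norm_num) (by norm_num) (by norm_num) r1074 t1074

theorem r1076 : St 140648549 542006609372183 250479 3973346 :=
  chk_sound good2 (by norm_num) (by norm_num) (by norm_num) r1075 t1075

theorem r1077 : St 140779423 542987102287889 250685 3976830 :=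
  chk_sound good2 (by norm_num) (by norm_num) (by norm_num) r1076 t1076

theorem r1078 : St 140910259 543952451946923 250880 3980257 :=
  chk_sound good2 (by norm_num) (by norm_num) (by norm_num) r1077 t1077

theorem r1079 : St 141040981 544932513352081 251095 3983733 :=
  chk_sound good2 (by norm_num) (by norm_num) (by norm_num) r1078 t1078

theorem r1080 : St 141171929 545914049281277 251302 3987211 :=
  chk_sound good2 (by norm_num) (by norm_num) (by norm_num) r1079 t1079

theorem r1081 : St 141302701 546903559889601 251500 3990714 :=
  chk_sound good2 (by norm_num) (by norm_num) (by norm_num) r1080 t1080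

theorem r1082 : St 141433403 547892001947265 251692 3994210 :=
  chk_sound good2 (by norm_num) (by norm_num) (by norm_num) r1081 t1081

theorem r1083 : St 141564323 548874853687859 251907 3997683 :=
  chk_sound good2 (by norm_num) (by norm_num) (by norm_num) r1082 t1082

theorem r1084 : St 141694999 549864278095589 252109 4001176 :=
  chk_sound good2 (by norm_num) (by norm_num) (by norm_num) r1083 t1083

theorem r1085 : St 141825769 550846675298813 252307 4004641 :=
  chk_sound good2 (by norm_num) (by norm_num) (by norm_num) r1084 t1084

theorem r1086 : St 141956527 551843319988423 252493 4008153 :=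
  chk_sound good2 (by norm_num) (by norm_num) (by norm_num) r1085 t1085

theorem r1087 : St 142087337 552842871675935 252701 4011672 :=
  chk_sound good2 (by norm_num) (by norm_num) (by norm_num) r1086 t1086

theorem r1088 : St 142218119 553837944358125 252897 4015172 :=
  chk_sound good2 (by norm_num) (by norm_num) (by norm_num) r1087 t1087

theorem r1089 : St 142348951 554829946064999 253105 4018658 :=
  chk_sound good2 (by norm_num) (by norm_num) (by norm_num) r1088 t1088

theorem r1090 : St 142479789 555830831315549 253311 4022172 :=
  chk_sound good2 (by norm_num) (by norm_num) (by norm_num) r1089 t1089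

theorem r1091 : St 142610475 556813538776881 253526 4025619 :=
  chk_sound good2 (by norm_num) (by norm_num) (by norm_num) r1090 t1090

theorem r1092 : St 142741329 557812270372711 253733 4029119 :=
  chk_sound good2 (by norm_num) (by norm_num) (by norm_num) r1091 t1091

theorem r1093 : St 142872105 558811063286355 253932 4032616 :=
  chk_sound good2 (by norm_num) (by norm_num) (by norm_num) r1092 t1092

theorem r1094 : St 143002967 559808766703635 254152 4036106 :=
  chk_sound good2 (by norm_num) (by norm_num) (by norm_num) r1093 t1093

theorem r1095 : St 143133819 560812247226037 254365 4039613 :=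
  chk_sound good2 (by norm_num) (by norm_num) (by norm_num) r1094 t1094

theorem r1096 : St 143264615 561808344650669 254583 4043091 :=
  chk_sound good2 (by norm_num) (by norm_num) (by norm_num) r1095 t1095

theorem r1097 : St 143395403 562813088286457 254793 4046596 :=
  chk_sound good2 (by norm_num) (by norm_num) (by norm_num) r1096 t1096

theorem r1098 : St 143526285 563818176613959 255010 4050099 :=
  chk_sound good2 (by norm_num) (by norm_num) (by norm_num) r1097 t1097

theorem r1099 : St 143657093 564813552153137 255208 4053565 :=
  chk_sound good2 (by norm_num) (by norm_num) (by norm_num) r1098 t1098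

theorem r1100 : St 143788013 565823637052359 255421 4057079 :=
  chk_sound good2 (by norm_num) (by norm_num) (by norm_num) r1099 t1099

theorem r1101 : St 143918715 566819967807339 255615 4060542 :=
  chk_sound good2 (by norm_num) (by norm_num) (by norm_num) r1100 t1100

theorem r1102 : St 144049483 567823535215247 255810 4064027 :=
  chk_sound good2 (by norm_num) (by norm_num) (by norm_num) r1101 t1101

theorem r1103 : St 144180339 568829170839955 256015 4067516 :=
  chk_sound good2 (by norm_num) (by norm_num) (by norm_num) r1102 t1102

theorem r1104 : St 144311049 569837447193777 256219 4071011 :=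
  chk_sound good2 (by norm_num) (by norm_num) (by norm_num) r1103 t1103

theorem r1105 : St 144441885 570851838233879 256408 4074524 :=
  chk_sound good2 (by norm_num) (by norm_num) (by norm_num) r1104 t1104

theorem r1106 : St 144572789 571843734687321 256597 4077956 :=
  chk_sound good2 (by norm_num) (by norm_num) (by norm_num) r1105 t1105

theorem r1107 : St 144703631 572860249611201 256808 4081470 :=
  chk_sound good2 (by norm_num) (by norm_num) (by norm_num) r1106 t1106

theorem r1108 : St 144834489 573858578228209 257002 4084918 :=
  chk_sound good2 (by norm_num) (by norm_num) (by norm_num) r1107 t1107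

theorem r1109 : St 144965167 574862445847689 257227 4088382 :=
  chk_sound good2 (by norm_num) (by norm_num) (by norm_num) r1108 t1108

theorem r1110 : St 145095941 575868378220081 257440 4091850 :=
  chk_sound good2 (by norm_num) (by norm_num) (by norm_num) r1109 t1109

theorem r1111 : St 145226759 576865924248493 257660 4095286 :=
  chk_sound good2 (by norm_num) (by norm_num) (by norm_num) r1110 t1110

theorem r1112 : St 145357489 577882676682351 257856 4098785 :=
  chk_sound good2 (by norm_num) (by norm_num) (by norm_num) r1111 t1111

theorem r1113 : St 145488341 578889874696447 258075 4102248 :=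
  chk_sound good2 (by norm_num) (by norm_num) (by norm_num) r1112 t1112

theorem r1114 : St 145619215 579905257612767 258259 4105736 :=
  chk_sound good2 (by norm_num) (by norm_num) (by norm_num) r1113 t1113

theorem r1115 : St 145749953 580925924199069 258436 4109239 :=
  chk_sound good2 (by norm_num) (by norm_num) (by norm_num) r1114 t1114

theorem r1116 : St 145880829 581936425883443 258624 4112704 :=
  chk_sound good2 (by norm_num) (by norm_num) (by norm_num) r1115 t1115

theorem r1117 : St 146011573 582960387793323 258818 4116212 :=
  chk_sound good2 (by norm_num) (by norm_num) (by norm_num) r1116 t1116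

theorem r1118 : St 146142349 583980882433779 259021 4119705 :=
  chk_sound good2 (by norm_num) (by norm_num) (by norm_num) r1117 t1117

theorem r1119 : St 146273051 585000243651945 259217 4123191 :=
  chk_sound good2 (by norm_num) (by norm_num) (by norm_num) r1118 t1118

theorem r1120 : St 146403769 586012026199275 259444 4126648 :=
  chk_sound good2 (by norm_num) (by norm_num) (by norm_num) r1119 t1119

theorem r1121 : St 146534625 587030281446957 259637 4130124 :=
  chk_sound good2 (by norm_num) (by norm_num) (by norm_num) r1120 t1120

theorem r1122 : St 146665403 588046512389861 259828 4133590 :=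
  chk_sound good2 (by norm_num) (by norm_num) (by norm_num) r1121 t1121

theorem r1123 : St 146796143 589072744933919 260035 4137087 :=
  chk_sound good2 (by norm_num) (by norm_num) (by norm_num) r1122 t1122

theorem r1124 : St 146926979 590095491353369 260241 4140569 :=
  chk_sound good2 (by norm_num) (by norm_num) (by norm_num) r1123 t1123

theorem r1125 : St 147057605 591125316838391 260475 4144072 :=
  chk_sound good2 (by norm_num) (by norm_num) (by norm_num) r1124 t1124

theorem r1126 : St 147188507 592148996039547 260669 4147551 :=
  chk_sound good2 (by norm_num) (by norm_num) (by norm_num) r1125 t1125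

theorem r1127 : St 147319219 593169168846291 260871 4151015 :=
  chk_sound good2 (by norm_num) (by norm_num) (by norm_num) r1126 t1126

theorem r1128 : St 147449939 594189951594847 261084 4154478 :=
  chk_sound good2 (by norm_num) (by norm_num) (by norm_num) r1127 t1127

theorem r1129 : St 147580861 595225214587363 261281 4157987 :=
  chk_sound good2 (by norm_num) (by norm_num) (by norm_num) r1128 t1128

theorem r1130 : St 147711563 596246925040101 261455 4161447 :=
  chk_sound good2 (by norm_num) (by norm_num) (by norm_num) r1129 t1129

theorem r1131 : St 147842357 597268653876615 261640 4164904 :=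
  chk_sound good2 (by norm_num) (by norm_num) (by norm_num) r1130 t1130

theorem r1132 : St 147973213 598303713140099 261832 4168403 :=
  chk_sound good2 (by norm_num) (by norm_num) (by norm_num) r1131 t1131

theorem r1133 : St 148103981 599333174716733 262069 4171880 :=
  chk_sound good2 (by norm_num) (by norm_num) (by norm_num) r1132 t1132

theorem r1134 : St 148234741 600358505295037 262276 4175340 :=
  chk_sound good2 (by norm_num) (by norm_num) (by norm_num) r1133 t1133

theorem r1135 : St 148365517 601387113107557 262485 4178808 :=
  chk_sound good2 (by norm_num) (by norm_num) (by norm_num) r1134 t1134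

theorem r1136 : St 148496351 602419599006325 262675 4182286 :=
  chk_sound good2 (by norm_num) (by norm_num) (by norm_num) r1135 t1135

theorem r1137 : St 148627147 603456262469425 262858 4185775 :=
  chk_sound good2 (by norm_num) (by norm_num) (by norm_num) r1136 t1136

theorem r1138 : St 148757759 604489972365535 263072 4189251 :=
  chk_sound good2 (by norm_num) (by norm_num) (by norm_num) r1137 t1137

theorem r1139 : St 148888519 605524293075621 263278 4192726 :=
  chk_sound good2 (by norm_num) (by norm_num) (by norm_num) r1138 t1138

theorem r1140 : St 149019387 606558630117105 263465 4196198 :=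
  chk_sound good2 (by norm_num) (by norm_num) (by norm_num) r1139 t1139

theorem r1141 : St 149150039 607584929819663 263648 4199640 :=
  chk_sound good2 (by norm_num) (by norm_num) (by norm_num) r1140 t1140

theorem r1142 : St 149280879 608623768411315 263859 4203121 :=
  chk_sound good2 (by norm_num) (by norm_num) (by norm_num) r1141 t1141

theorem r1143 : St 149411599 609656345247641 264070 4206578 :=
  chk_sound good2 (by norm_num) (by norm_num) (by norm_num) r1142 t1142

theorem r1144 : St 149542333 610693716224487 264288 4210048 :=
  chk_sound good2 (by norm_num) (by norm_num) (by norm_num) r1143 t1143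

theorem r1145 : St 149673101 611734985756579 264465 4213528 :=
  chk_sound good2 (by norm_num) (by norm_num) (by norm_num) r1144 t1144

theorem r1146 : St 149803909 612772969106095 264686 4216994 :=
  chk_sound good2 (by norm_num) (by norm_num) (by norm_num) r1145 t1145

theorem r1147 : St 149934703 613819657106833 264883 4220486 :=
  chk_sound good2 (by norm_num) (by norm_num) (by norm_num) r1146 t1146

theorem r1148 : St 150065491 614855858709493 265081 4223940 :=
  chk_sound good2 (by norm_num) (by norm_num) (by norm_num) r1147 t1147

theorem r1149 : St 150196413 615904973578985 265288 4227434 :=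
  chk_sound good2 (by norm_num) (by norm_num) (by norm_num) r1148 t1148

theorem r1150 : St 150327167 616945988056569 265481 4230898 :=
  chk_sound good2 (by norm_num) (by norm_num) (by norm_num) r1149 t1149

theorem r1151 : St 150457861 617984902060019 265669 4234352 :=
  chk_sound good2 (by norm_num) (by norm_num) (by norm_num) r1150 t1150

theorem r1152 : St 150588739 619030435035107 265872 4237825 :=
  chk_sound good2 (by norm_num) (by norm_num) (by norm_num) r1151 t1151

theorem r1153 : St 150719547 620071154189151 266082 4241279 :=
  chk_sound good2 (by norm_num) (by norm_num) (by norm_num) r1152 t1152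

theorem r1154 : St 150850331 621120014494389 266284 4244757 :=
  chk_sound good2 (by norm_num) (by norm_num) (by norm_num) r1153 t1153

theorem r1155 : St 150981045 622162540228275 266503 4248211 :=
  chk_sound good2 (by norm_num) (by norm_num) (by norm_num) r1154 t1154

theorem r1156 : St 151111903 623200229773871 266717 4251646 :=
  chk_sound good2 (by norm_num) (by norm_num) (by norm_num) r1155 t1155

theorem r1157 : St 151242719 624263915975119 266910 4255164 :=
  chk_sound good2 (by norm_num) (by norm_num) (by norm_num) r1156 t1156

theorem r1158 : St 151373565 625306428234539 267101 4258609 :=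
  chk_sound good2 (by norm_num) (by norm_num) (by norm_num) r1157 t1157

theorem r1159 : St 151504341 626358323963025 267294 4262082 :=
  chk_sound good2 (by norm_num) (by norm_num) (by norm_num) r1158 t1158

theorem r1160 : St 151635013 627409003700599 267507 4265548 :=
  chk_sound good2 (by norm_num) (by norm_num) (by norm_num) r1159 t1159

theorem r1161 : St 151765883 628458162233553 267702 4269006 :=
  chk_sound good2 (by norm_num) (by norm_num) (by norm_num) r1160 t1160

theorem r1162 : St 151896789 629516425533793 267919 4272491 :=
  chk_sound good2 (by norm_num) (by norm_num) (by norm_num) r1161 t1161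

theorem r1163 : St 152027583 630569221449209 268135 4275955 :=
  chk_sound good2 (by norm_num) (by norm_num) (by norm_num) r1162 t1162

theorem r1164 : St 152158429 631617450064475 268336 4279401 :=
  chk_sound good2 (by norm_num) (by norm_num) (by norm_num) r1163 t1163

theorem r1165 : St 152289257 632669015459649 268551 4282855 :=
  chk_sound good2 (by norm_num) (by norm_num) (by norm_num) r1164 t1164

theorem r1166 : St 152420151 633716301477465 268743 4286292 :=
  chk_sound good2 (by norm_num) (by norm_num) (by norm_num) r1165 t1165

theorem r1167 : St 152550967 634776686252455 268956 4289769 :=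
  chk_sound good2 (by norm_num) (by norm_num) (by norm_num) r1166 t1166

theorem r1168 : St 152681759 635848971621719 269170 4293282 :=
  chk_sound good2 (by norm_num) (by norm_num) (by norm_num) r1167 t1167

theorem r1169 : St 152812633 636916066748931 269348 4296775 :=
  chk_sound good2 (by norm_num) (by norm_num) (by norm_num) r1168 t1168

theorem r1170 : St 152943347 637963280382859 269534 4300200 :=
  chk_sound good2 (by norm_num) (by norm_num) (by norm_num) r1169 t1169

theorem r1171 : St 153074037 639034647380807 269734 4303701 :=
  chk_sound good2 (by norm_num) (by norm_num) (by norm_num) r1170 t1170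

theorem r1172 : St 153204991 640098657605915 269934 4307175 :=
  chk_sound good2 (by norm_num) (by norm_num) (by norm_num) r1171 t1171

theorem r1173 : St 153335813 641158675436989 270136 4310633 :=
  chk_sound good2 (by norm_num) (by norm_num) (by norm_num) r1172 t1172

theorem r1174 : St 153466653 642223280252959 270317 4314103 :=
  chk_sound good2 (by norm_num) (by norm_num) (by norm_num) r1173 t1173

theorem r1175 : St 153559869 642984091850095 270432 4316581 :=
  chk_sound good2 (by norm_num) (by norm_num) (by norm_num) r1174 t1174

theorem final_sum : SS (2 * 4316581) = 642984091850095 := r1175.sum.symm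

theorem final_cn : cn 4316581 ≤ 270432 := r1175.cn

end Pool.Agent.Q236.E1
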