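import Pool.Agent.Q236.E1.Sieve

/-!
# The two lists of sieving primes
-/

namespace Pool.Agent.Q236.E1

set_option maxRecDepth 100000

theorem good1 : Good G1 8192 113 126 where
  ok := by decide +kernel
  le := by decide +kernel
  all := by
    have h : ∀ p < 127, p.Prime → p ≠ 2 → p ∈ flat G1 := by decide +kernel
    intro p hp h2 h3
    exact h p (by omega) hp h2

/-- the product of the odd primes up to `113` -/
def P1 : ℕ := (flat G1).prod

theorem P1_prime {p : ℕ} (hp : p.Prime) (h : p ∣ P1) : p ≤ 113 := by
  obtain ⟨q, hq, hd⟩ := (Prime.dvd_prod_iff hp.prime).1 h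
  have h1 := good1.le q hq
  exact le_trans (Nat.le_of_dvd (by omega) hd) h1.2

/-- every number `m, m + 2, …` is the next number of the list or has a common factor with `P` -/
noncomputable def cov (P : ℕ) (s : ℕ) : ℕ → List ℕ → Bool :=
  Nat.rec (fun _ _ => true) (fun _ ih m L =>
    List.rec (cond (Nat.ble (Nat.gcd m P) (nat_lit 1)) false
        (fc (Nat.add m (nat_lit 2)) fun m' => ih m' []))
      (fun h t _ => cond (Nat.beq m h) (fc (Nat.add m (nat_lit 2)) fun m' => ih m' t)
        (cond (Nat.ble (Nat.gcd m P) (nat_lit 1)) false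
          (fc (Nat.add m (nat_lit 2)) fun m' => ih m' (h :: t)))) L) s

theorem not_prime_of_gcd {m : ℕ} (hm : 113 < m) (h : Nat.ble (Nat.gcd m P1) (nat_lit 1) = false) :
    ¬ m.Prime := by
  intro hp
  have h1 : 1 < Nat.gcd m P1 := ble_f h
  rcases (Nat.dvd_prime hp).1 (Nat.gcd_dvd_left m P1) with h2 | h2
  · omega
  · have h3 : m ∣ P1 := by
      rw [← h2]
      exact Nat.gcd_dvd_right m P1
    have := P1_prime hp h3
    omega

theorem cov_sound (s : ℕ) : ∀ m L, 113 < m → cov P1 s m L = true →
    ∀ t < s, (m + 2 * t).Prime → m + 2 * t ∈ L := by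
  induction s with
  | zero => intro m L _ _ t ht; omega
  | succ s ih =>
    intro m L hm h t ht hp
    cases L with
    | nil =>
      have h' : cond (Nat.ble (Nat.gcd m P1) (nat_lit 1)) false
        (fc (Nat.add m (nat_lit 2)) fun m' => cov P1 s m' []) = true := h
      obtain ⟨h1, h2⟩ := cond_t h'
      rw [fc_eq] at h2
      rcases Nat.eq_zero_or_pos t with h3 | h3
      · subst h3
        exact absurd hp (not_prime_of_gcd hm h1)
      · have h4 := ih (m + 2) [] (by omega) h2 (t - 1) (by omega)
        have e : m + 2 + 2 * (t - 1) = m + 2 * t := by omega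
        rw [e] at h4
        exact h4 hp
    | cons x L =>
      have h' : cond (Nat.beq m x) (fc (Nat.add m (nat_lit 2)) fun m' => cov P1 s m' L)
        (cond (Nat.ble (Nat.gcd m P1) (nat_lit 1)) false
          (fc (Nat.add m (nat_lit 2)) fun m' => cov P1 s m' (x :: L))) = true := h
      cases hb : Nat.beq m x with
      | true =>
        have hx : m = x := Nat.eq_of_beq_eq_true hb
        rw [hb] at h'
        have h2 : fc (Nat.add m (nat_lit 2)) (fun m' => cov P1 s m' L) = true := h'
        rw [fc_eq] at h2
        rcases Nat.eq_zero_or_pos t with h3 | h3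
        · subst h3
          rw [hx]
          simp
        · have h4 := ih (m + 2) L (by omega) h2 (t - 1) (by omega)
          have e : m + 2 + 2 * (t - 1) = m + 2 * t := by omega
          rw [e] at h4
          exact List.mem_cons_of_mem _ (h4 hp)
      | false =>
        rw [hb] at h'
        obtain ⟨h1, h2⟩ := cond_t (show cond (Nat.ble (Nat.gcd m P1) (nat_lit 1)) false
          (fc (Nat.add m (nat_lit 2)) fun m' => cov P1 s m' (x :: L)) = true from h')
        rw [fc_eq] at h2
        rcases Nat.eq_zero_or_pos t with h3 | h3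
        · subst h3
          exact absurd hp (not_prime_of_gcd hm h1)
        · have h4 := ih (m + 2) (x :: L) (by omega) h2 (t - 1) (by omega)
          have e : m + 2 + 2 * (t - 1) = m + 2 * t := by omega
          rw [e] at h4
          exact h4 hp

theorem cov_true : cov P1 6194 115 ((flat G2).drop 29) = true := by
  decide +kernel

theorem good2 : Good G2 65536 12500 12500 where
  ok := by decide +kernel
  le := by decide +kernel
  all := by
    have h : ∀ p < 115, p.Prime → p ≠ 2 → p ∈ flat G2 := by decide +kernel
    intro p hp h2 h3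
    rcases lt_or_ge p 115 with h4 | h4
    · exact h p h4 hp h2
    · obtain ⟨u, hu⟩ := hp.odd_of_ne_two h2
      have h5 := cov_sound 6194 115 _ (by norm_num) cov_true (u - 57) (by omega)
      have e : 115 + 2 * (u - 57) = p := by omega
      rw [e] at h5
      exact List.mem_of_mem_drop (h5 hp)

end Pool.Agent.Q236.E1
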