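import Pool.Agent.Q236.E1.Bits

/-!
# Soundness of the loop over pairs of primes
-/

namespace Pool.Agent.Q236.E1

/-- the sum of the first `m` primes -/
noncomputable def SS (m : ℕ) : ℕ := ∑ i ∈ Finset.range m, Nat.nth Nat.Prime i

/-- the number of `k ∈ [1, m]` for which the sum of the first `2 k` primes is prime -/
noncomputable def cn (m : ℕ) : ℕ := ((Finset.Icc 1 m).filter fun k => (SS (2 * k)).Prime).card

/-- the bits of `w` are the positions of the primes `a + 2 * i`, `i < len`, with at least `k`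
smaller primes -/
def Rem (a len k w : ℕ) : Prop :=
  ∀ i, w.testBit i = true ↔ (i < len ∧ (a + 2 * i).Prime ∧ k ≤ Nat.count Nat.Prime (a + 2 * i))

theorem cn_succ (m : ℕ) : cn (m + 1) = cn m + if (SS (2 * (m + 1))).Prime then 1 else 0 := by
  unfold cn
  rw [← Finset.insert_Icc_right_eq_Icc_add_one (by omega : 1 ≤ m + 1), Finset.filter_insert]
  split_ifs with h
  · rw [Finset.card_insert_of_notMem (by simp)]
  · rfl

theorem count_nth_prime (k : ℕ) : Nat.count Nat.Prime (Nat.nth Nat.Prime k) = k :=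
  Nat.count_nth_of_infinite Nat.infinite_setOf_prime k

theorem nth_pr (k : ℕ) : (Nat.nth Nat.Prime k).Prime :=
  Nat.nth_mem_of_infinite Nat.infinite_setOf_prime k

/-- the position of the `k`-th prime in the word -/
theorem pos_nth {a len k : ℕ} (ha : Odd a) (ha3 : 3 ≤ a) (hk : Nat.count Nat.Prime a ≤ k)
    (h : Nat.nth Nat.Prime k < a + 2 * len) :
    ∃ i < len, Nat.nth Nat.Prime k = a + 2 * i := by
  have h1 : a ≤ Nat.nth Nat.Prime k := by
    by_contra hc
    push Not at hc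
    have := Nat.count_strict_mono (p := Nat.Prime) (nth_pr k) hc
    rw [count_nth_prime] at this
    omega
  have h2 : Odd (Nat.nth Nat.Prime k) := (nth_pr k).odd_of_ne_two (by omega)
  obtain ⟨u, hu⟩ := ha
  obtain ⟨v, hv⟩ := h2
  exact ⟨v - u, by omega, by omega⟩

/-- removing the lowest bit -/
theorem pop {a len k w i : ℕ} (ha : Odd a) (ha3 : 3 ≤ a) (hk : Nat.count Nat.Prime a ≤ k)
    (hR : Rem a len k w) (h1 : w.testBit i = true) (h2 : ∀ j < i, w.testBit j = false) {w' : ℕ}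
    (h3 : ∀ j, w'.testBit j = (w.testBit j && decide (j ≠ i))) :
    Nat.nth Nat.Prime k = a + 2 * i ∧ Rem a len (k + 1) w' ∧
      k + 1 ≤ Nat.count Nat.Prime (a + 2 * len) := by
  obtain ⟨hi, hp, hc⟩ := (hR i).1 h1
  have e1 : Nat.count Nat.Prime (a + 2 * i) = k := by
    by_contra hne
    have hlt : k < Nat.count Nat.Prime (a + 2 * i) := lt_of_le_of_ne hc (Ne.symm hne)
    have h4 : Nat.nth Nat.Prime k < a + 2 * i := Nat.nth_lt_of_lt_count hlt
    obtain ⟨j, hj, hj'⟩ := pos_nth ha ha3 hk h4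
    have h5 : w.testBit j = true := (hR j).2 ⟨by omega, by rw [← hj']; exact nth_pr k, by
      rw [← hj', count_nth_prime]⟩
    rw [h2 j hj] at h5
    exact absurd h5 (by simp)
  have e2 : Nat.nth Nat.Prime k = a + 2 * i := by
    rw [← e1]
    exact Nat.nth_count hp
  refine ⟨e2, ?_, ?_⟩
  · intro j
    rw [h3]
    constructor
    · intro h
      simp only [Bool.and_eq_true, decide_eq_true_eq] at h
      obtain ⟨h6, h7, h8⟩ := (hR j).1 h.1
      refine ⟨h6, h7, ?_⟩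
      rcases Nat.eq_or_lt_of_le h8 with h9 | h9
      · exfalso
        apply h.2
        have : Nat.nth Nat.Prime k = a + 2 * j := by
          rw [h9]
          exact Nat.nth_count h7
        omega
      · exact h9
    · rintro ⟨h6, h7, h8⟩
      simp only [Bool.and_eq_true, decide_eq_true_eq]
      refine ⟨(hR j).2 ⟨h6, h7, by omega⟩, ?_⟩
      rintro rfl
      omega
  · have h4 : Nat.count Nat.Prime (a + 2 * i) < Nat.count Nat.Prime (a + 2 * len) :=
      Nat.count_strict_mono hp (by omega)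
    omega

theorem recb (b x y : Bool) : (Bool.rec (motive := fun _ => Bool) y x b) = cond b x y := by
  cases b <;> rfl

theorem st2_cond (F S c : ℕ) (k : ℕ → ℕ → Bool) : st2 F S c k =
    fc (Nat.div F (nat_lit 33554432)) fun F1 =>
    fc (Nat.mod F (nat_lit 33554432)) fun f =>
    cond (Nat.beq f (nat_lit 0)) (fc (Nat.succ c) fun c1 => k F1 c1)
      (cond (Nat.ble f (nat_lit 1)) false
        (cond (Nat.ble S f) false
          (cond (Nat.beq (Nat.mod S f) (nat_lit 0)) (k F1 c) false))) := by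
  unfold st2
  simp only [recb]

/-- the test of one partial sum with a hint -/
theorem st2_sound {F S c : ℕ} {k : ℕ → ℕ → Bool} (h : st2 F S c k = true) :
    ∃ F' c', k F' c' = true ∧ c ≤ c' ∧ (S.Prime → c + 1 ≤ c') := by
  rw [st2_cond, fc_eq, fc_eq] at h
  set f : ℕ := Nat.mod F (nat_lit 33554432) with hf
  cases h1 : Nat.beq f (nat_lit 0) with
  | true =>
    rw [h1] at h
    have h' : fc (Nat.succ c) (fun c1 => k (Nat.div F (nat_lit 33554432)) c1) = true := h
    rw [fc_eq] at h'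
    exact ⟨_, _, h', by omega, fun _ => le_rfl⟩
  | false =>
    rw [h1] at h
    obtain ⟨h2, h3⟩ := cond_t h
    obtain ⟨h4, h5⟩ := cond_t h3
    obtain ⟨h6, h7⟩ := cond_f h5
    refine ⟨_, _, h7, le_rfl, ?_⟩
    intro hp
    exfalso
    have h8 : S % f = 0 := Nat.eq_of_beq_eq_true h6
    have h9 : f ∣ S := Nat.dvd_of_mod_eq_zero h8
    have h10 : ¬ f ≤ 1 := fun hc => by
      rw [Nat.ble_eq_true_of_le hc] at h2
      exact absurd h2 (by simp)
    have h11 : ¬ S ≤ f := fun hc => by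
      rw [Nat.ble_eq_true_of_le hc] at h4
      exact absurd h4 (by simp)
    rcases (Nat.dvd_prime hp).1 h9 with h12 | h12 <;> omega

/-- one step of the test -/
theorem test_sound {F S c P : ℕ} {k : ℕ → ℕ → Bool}
    (h : cond (Nat.beq (Nat.gcd S P) (nat_lit 1)) (st2 F S c k)
      (cond (Nat.beq (Nat.gcd S P) S) (st2 F S c k) (k F c)) = true) :
    ∃ F' c', k F' c' = true ∧ c ≤ c' ∧ (S.Prime → c + 1 ≤ c') := by
  cases h1 : Nat.beq (Nat.gcd S P) (nat_lit 1) with
  | true =>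
    rw [h1] at h
    exact st2_sound h
  | false =>
    rw [h1] at h
    cases h2 : Nat.beq (Nat.gcd S P) S with
    | true =>
      rw [h2] at h
      exact st2_sound h
    | false =>
      rw [h2] at h
      refine ⟨F, c, h, le_rfl, ?_⟩
      intro hp
      exfalso
      rcases (Nat.dvd_prime hp).1 (Nat.gcd_dvd_left S P) with h3 | h3
      · rw [h3] at h1
        exact absurd h1 (by decide)
      · rw [h3] at h2
        rw [Nat.beq_refl] at h2
        exact absurd h2 (by simp)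

theorem pl_succ (P T PW C : ℕ) (fin : ℕ → ℕ → ℕ → Bool) (s Z F c : ℕ) :
    pl P T PW C fin (s + 1) Z F c =
      cond (Nat.beq (Z - Z % 2 ^ 64 - Nat.gcd (Z - Z % 2 ^ 64) PW) 0) false (
      (fun Z1 : ℕ =>
        cond (Nat.beq (Nat.gcd (Z1 % 2 ^ 64) P) 1) (st2 F (Z1 % 2 ^ 64) c (pl P T PW C fin s Z1))
          (cond (Nat.beq (Nat.gcd (Z1 % 2 ^ 64) P) (Z1 % 2 ^ 64))
            (st2 F (Z1 % 2 ^ 64) c (pl P T PW C fin s Z1)) (pl P T PW C fin s Z1 F c)))
      (Z - Z % 2 ^ 64 - Nat.gcd (Z - Z % 2 ^ 64) PW -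
          Nat.gcd (Z - Z % 2 ^ 64 - Nat.gcd (Z - Z % 2 ^ 64) PW) PW + Z % 2 ^ 64 +
          (C + tab T (Nat.gcd (Z - Z % 2 ^ 64) PW *
            Nat.gcd (Z - Z % 2 ^ 64 - Nat.gcd (Z - Z % 2 ^ 64) PW) PW)))) := by
  have h : pl P T PW C fin (s + 1) Z F c =
    Bool.rec (motive := fun _ => Bool) (
      (fun Z1 : ℕ =>
        Bool.rec (motive := fun _ => Bool)
          (Bool.rec (motive := fun _ => Bool) (pl P T PW C fin s Z1 F c)
            (st2 F (Z1 % 2 ^ 64) c (pl P T PW C fin s Z1))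
            (Nat.beq (Nat.gcd (Z1 % 2 ^ 64) P) (Z1 % 2 ^ 64)))
          (st2 F (Z1 % 2 ^ 64) c (pl P T PW C fin s Z1)) (Nat.beq (Nat.gcd (Z1 % 2 ^ 64) P) 1))
      (Z - Z % 2 ^ 64 - Nat.gcd (Z - Z % 2 ^ 64) PW -
          Nat.gcd (Z - Z % 2 ^ 64 - Nat.gcd (Z - Z % 2 ^ 64) PW) PW + Z % 2 ^ 64 +
          (C + tab T (Nat.gcd (Z - Z % 2 ^ 64) PW *
            Nat.gcd (Z - Z % 2 ^ 64 - Nat.gcd (Z - Z % 2 ^ 64) PW) PW))))
      false (Nat.beq (Z - Z % 2 ^ 64 - Nat.gcd (Z - Z % 2 ^ 64) PW) 0) := rfl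
  rw [h]
  simp only [recb]

set_option exponentiation.threshold 4000 in
theorem pl_sound {P C a len : ℕ} (ha : Odd a) (ha3 : 3 ≤ a) (hlen : len ≤ 2048) (hC : C = 2 * a)
    (fin : ℕ → ℕ → ℕ → Bool) (s : ℕ) : ∀ (w F c m : ℕ), w < 2 ^ 2048 →
    SS (2 * m) + s * (C + 8192) < 2 ^ 64 → Rem a len (2 * m) w →
    Nat.count Nat.Prime a ≤ 2 * m → 2 * m ≤ Nat.count Nat.Prime (a + 2 * len) → cn m ≤ c →
    pl P TB PW C fin s (2 ^ 64 * w + SS (2 * m)) F c = true →
    ∃ w' F' c', Rem a len (2 * (m + s)) w' ∧ 2 * (m + s) ≤ Nat.count Nat.Prime (a + 2 * len) ∧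
      cn (m + s) ≤ c' ∧ SS (2 * (m + s)) < 2 ^ 64 ∧
      fin (2 ^ 64 * w' + SS (2 * (m + s))) F' c' = true := by
  induction s with
  | zero =>
    intro w F c m hw hS hR hk hk' hc h
    exact ⟨w, F, c, hR, hk', hc, by simpa using hS, h⟩
  | succ s ih =>
    intro w F c m hw hS hR hk hk' hc h
    rw [pl_succ] at h
    have hS1 : SS (2 * m) < 2 ^ 64 := lt_of_le_of_lt (Nat.le_add_right _ _) hS
    have e1 : (2 ^ 64 * w + SS (2 * m)) % 2 ^ 64 = SS (2 * m) := by
      rw [Nat.mul_add_mod, Nat.mod_eq_of_lt hS1]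
    have e2 : 2 ^ 64 * w + SS (2 * m) - SS (2 * m) = 2 ^ 64 * w := by omega
    rw [e1, e2] at h
    obtain ⟨h1, h2⟩ := cond_t h
    -- `w` has at least one bit
    have hw0 : w ≠ 0 := by
      rintro rfl
      rw [Nat.mul_zero, Nat.zero_sub] at h1
      exact absurd h1 (by decide)
    obtain ⟨i, hi1, hi2, hi3, hi4, hi5⟩ := low hw0
    have hi : i < len := ((hR i).1 hi1).1
    have g1 : Nat.gcd (2 ^ 64 * w) PW = 2 ^ (64 + i) := by
      rw [PW_eq]
      exact hi5 2048 (by omega)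
    rw [g1] at h1 h2
    have e3 : 2 ^ 64 * w - 2 ^ (64 + i) = 2 ^ 64 * (w - 2 ^ i) := by
      rw [pow_add, Nat.mul_sub]
    rw [e3] at h1 h2
    obtain ⟨p1, p2, p3⟩ := pop ha ha3 hk hR hi1 hi2 hi4
    have hw1 : w - 2 ^ i ≠ 0 := by
      intro h0
      rw [h0, Nat.mul_zero] at h1
      exact absurd h1 (by decide)
    obtain ⟨j, hj1, hj2, hj3, hj4, hj5⟩ := low hw1
    have hj : j < len := ((p2 j).1 hj1).1
    have g2 : Nat.gcd (2 ^ 64 * (w - 2 ^ i)) PW = 2 ^ (64 + j) := by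
      rw [PW_eq]
      exact hj5 2048 (by omega)
    rw [g2] at h2
    have e4 : 2 ^ 64 * (w - 2 ^ i) - 2 ^ (64 + j) = 2 ^ 64 * (w - 2 ^ i - 2 ^ j) := by
      rw [pow_add, ← Nat.mul_sub]
    have e5 : 2 ^ (64 + i) * 2 ^ (64 + j) = 2 ^ (128 + (i + j)) := by
      rw [← pow_add]
      congr 1
      omega
    rw [e4, e5, tab_eq (by omega)] at h2
    obtain ⟨q1, q2, q3⟩ := pop ha ha3 (by omega) p2 hj1 hj2 hj4
    have e6 : SS (2 * (m + 1)) = SS (2 * m) + (C + 2 * (i + j)) := by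
      unfold SS
      rw [show 2 * (m + 1) = 2 * m + 1 + 1 from by ring, Finset.sum_range_succ,
        Finset.sum_range_succ, p1, q1, hC]
      ring
    have e7 : 2 ^ 64 * (w - 2 ^ i - 2 ^ j) + SS (2 * m) + (C + 2 * (i + j)) =
        2 ^ 64 * (w - 2 ^ i - 2 ^ j) + SS (2 * (m + 1)) := by
      rw [e6, add_assoc]
    rw [e7] at h2
    have hS2 : SS (2 * (m + 1)) + s * (C + 8192) < 2 ^ 64 := by
      rw [e6]
      have : (s + 1) * (C + 8192) = s * (C + 8192) + (C + 8192) := by ring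
      omega
    have hS3 : SS (2 * (m + 1)) < 2 ^ 64 := lt_of_le_of_lt (Nat.le_add_right _ _) hS2
    have e8 : (2 ^ 64 * (w - 2 ^ i - 2 ^ j) + SS (2 * (m + 1))) % 2 ^ 64 = SS (2 * (m + 1)) := by
      rw [Nat.mul_add_mod, Nat.mod_eq_of_lt hS3]
    simp only [e8] at h2
    obtain ⟨F', c', r1, r2, r3⟩ := test_sound h2
    have hcn : cn (m + 1) ≤ c' := by
      rw [cn_succ]
      split_ifs with hp
      · have := r3 hp
        omega
      · omega
    have hR' : Rem a len (2 * (m + 1)) (w - 2 ^ i - 2 ^ j) := by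
      have : 2 * (m + 1) = 2 * m + 1 + 1 := by ring
      rw [this]
      exact q2
    obtain ⟨w', F'', c'', t1, t2, t3, t4, t5⟩ := ih (w - 2 ^ i - 2 ^ j) F' c' (m + 1)
      (by omega) hS2 hR' (by omega) (by omega) hcn r1
    have e9 : m + 1 + s = m + (s + 1) := by ring
    rw [e9] at t1 t2 t3 t4 t5
    exact ⟨w', F'', c'', t1, t2, t3, t4, t5⟩

end Pool.Agent.Q236.E1
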