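import Mathlib

/-!
# The function `x log x` and the numerical values
-/

namespace Pool.Agent.Q236.E1

open Real

theorem xlogx_lt {x y : ℝ} (hx : 1 < x) (hxy : x < y) : x * log x < y * log y :=
  mul_lt_mul'' hxy (log_lt_log (by linarith) hxy) (by linarith) (log_pos hx).le

theorem exists_unique_x0 {r : ℝ} (hr : 0 < r) : ∃! x : ℝ, 1 < x ∧ x * log x = r := by
  have h1 : ContinuousOn (fun x : ℝ => x * log x) (Set.Icc 1 (r + 3)) := by
    apply ContinuousOn.mul continuousOn_id
    apply ContinuousOn.log continuousOn_id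
    intro x hx
    have := hx.1
    simp only [id]
    linarith
  have h2 : r ∈ Set.Icc ((1 : ℝ) * log 1) ((r + 3) * log (r + 3)) := by
    rw [log_one, mul_zero]
    refine ⟨hr.le, ?_⟩
    have h3 : 1 ≤ log (r + 3) := by
      rw [le_log_iff_exp_le (by linarith)]
      have := exp_one_lt_d9
      linarith
    nlinarith
  obtain ⟨x, hx, hx'⟩ := intermediate_value_Icc (by linarith : (1 : ℝ) ≤ r + 3) h1 h2
  simp only at hx'
  have hx1 : 1 < x := by
    rcases eq_or_lt_of_le hx.1 with h | h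
    · rw [← h, log_one, mul_zero] at hx'
      exact absurd hx' (ne_of_lt hr)
    · exact h
  refine ⟨x, ⟨hx1, hx'⟩, ?_⟩
  rintro y ⟨hy1, hy2⟩
  rcases lt_trichotomy y x with h | h | h
  · have := xlogx_lt hy1 h
    linarith
  · exact h
  · have := xlogx_lt hx1 h
    linarith

theorem log_n : 15.27756 ≤ log 4316581 := by
  have h1 : log (4316581 : ℝ) = 22 * log 2 + log (4316581 / 4194304) := by
    rw [show (4316581 : ℝ) = 2 ^ 22 * (4316581 / 4194304) from by norm_num,
      log_mul (by norm_num) (by norm_num), log_pow]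
    norm_num
  have h2 := log_two_gt_d9
  have h3 : 1 - (4316581 / 4194304 : ℝ)⁻¹ ≤ log (4316581 / 4194304) :=
    one_sub_inv_le_log_of_pos (by norm_num)
  have h4 : (0.028327 : ℝ) ≤ 1 - (4316581 / 4194304 : ℝ)⁻¹ := by norm_num
  rw [h1]
  linarith

theorem log_X : log 270500 ≤ 12.50853 := by
  have h1 : log (270500 : ℝ) = 18 * log 2 + log (270500 / 262144) := by
    rw [show (270500 : ℝ) = 2 ^ 18 * (270500 / 262144) from by norm_num,
      log_mul (by norm_num) (by norm_num), log_pow]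
    norm_num
  have h2 := log_two_lt_d9
  have h3 : log (270500 / 262144 : ℝ) ≤ 270500 / 262144 - 1 := log_le_sub_one_of_pos (by norm_num)
  have h4 : (270500 / 262144 - 1 : ℝ) ≤ 0.031876 := by norm_num
  rw [h1]
  linarith

theorem bound {x : ℝ} (hx : 1 < x)
    (h : x * log x = (2 * (4316581 : ℝ) ^ (5 / 2 : ℝ) * log 4316581 / 642984091850095) ^ 2) :
    270500 ≤ x := by
  by_contra hc
  push Not at hc
  have h1 := xlogx_lt hx hc
  have h2 : ((4316581 : ℝ) ^ (5 / 2 : ℝ)) ^ 2 = 4316581 ^ 5 := by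
    rw [← rpow_natCast, ← rpow_mul (by norm_num), ← rpow_natCast]
    norm_num
  have h3 : (2 * (4316581 : ℝ) ^ (5 / 2 : ℝ) * log 4316581 / 642984091850095) ^ 2 =
      4 * 4316581 ^ 5 * (log 4316581) ^ 2 / 642984091850095 ^ 2 := by
    rw [div_pow, mul_pow, mul_pow, h2]
    norm_num
  rw [h3] at h
  have h4 : (15.27756 : ℝ) ^ 2 ≤ (log 4316581) ^ 2 := by
    have := log_n
    exact pow_le_pow_left₀ (by norm_num) this 2
  have h5 : (4 : ℝ) * 4316581 ^ 5 * 15.27756 ^ 2 / 642984091850095 ^ 2 ≤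
      4 * 4316581 ^ 5 * (log 4316581) ^ 2 / 642984091850095 ^ 2 := by
    gcongr
  have h6 : (270500 : ℝ) * log 270500 ≤ 270500 * 12.50853 := by
    have := log_X
    linarith
  have h7 : (270500 : ℝ) * 12.50853 ≤ 4 * 4316581 ^ 5 * 15.27756 ^ 2 / 642984091850095 ^ 2 := by
    norm_num
  linarith

end Pool.Agent.Q236.E1
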