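import Pool.Agent.Q236.E1.Words

/-!
# Soundness of the sieve and of the check of a chunk
-/

namespace Pool.Agent.Q236.E1

theorem pat_succ (q d : ℕ) : pat q (d + 1) = pat q d ||| (pat q d <<< (q * 2 ^ d)) := rfl

theorem pat_testBit {q : ℕ} (d : ℕ) : ∀ i, (pat q d).testBit i = true ↔ ∃ t < 2 ^ d, i = q * t := by
  induction d with
  | zero =>
    intro i
    have e : pat q 0 = 1 := rfl
    rw [e, Nat.testBit_one_eq_true_iff_self_eq_zero]
    constructor
    · rintro rfl
      exact ⟨0, by norm_num, by simp⟩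
    · rintro ⟨t, h1, h2⟩
      have : t = 0 := by omega
      subst this
      simpa using h2
  | succ d ih =>
    intro i
    rw [pat_succ, Nat.testBit_or, Nat.testBit_shiftLeft]
    simp only [Bool.or_eq_true, Bool.and_eq_true, decide_eq_true_eq, ih]
    constructor
    · rintro (⟨t, h1, h2⟩ | ⟨h1, t, h2, h3⟩)
      · exact ⟨t, by rw [pow_succ]; omega, h2⟩
      · refine ⟨2 ^ d + t, by rw [pow_succ]; omega, ?_⟩
        rw [Nat.mul_add, ← h3]
        omega
    · rintro ⟨t, h1, h2⟩
      rcases lt_or_ge t (2 ^ d) with h3 | h3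
      · exact Or.inl ⟨t, h3, h2⟩
      · right
        obtain ⟨u, rfl⟩ := Nat.exists_eq_add_of_le h3
        rw [pow_succ] at h1
        refine ⟨?_, u, by omega, ?_⟩
        · rw [h2]
          exact Nat.mul_le_mul_left _ h3
        · rw [h2, Nat.mul_add, Nat.add_sub_cancel_left]

/-- the first position of a multiple of `q` -/
def rr (A q : ℕ) : ℕ := (q - A % q) * ((q + 1) / 2) % q

theorem orl_cons (A d q : ℕ) (Q : List ℕ) :
    orl A d (q :: Q) = (pat q d <<< rr A q) ||| orl A d Q := rfl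

theorem orl_testBit (A d : ℕ) (Q : List ℕ) (i : ℕ) : (orl A d Q).testBit i = true ↔
    ∃ q ∈ Q, (pat q d <<< rr A q).testBit i = true := by
  induction Q with
  | nil =>
    have e : orl A d [] = 0 := rfl
    simp [e]
  | cons q Q ih =>
    rw [orl_cons, Nat.testBit_or, Bool.or_eq_true, ih]
    simp

/-- the whole sieve -/
noncomputable def sieve (A : ℕ) (G : List (ℕ × List ℕ)) (acc : ℕ) : ℕ :=
  G.foldl (fun acc x => acc ||| orl A x.1 x.2) acc

theorem svs_eq (A : ℕ) (k : ℕ → Bool) (G : List (ℕ × List ℕ)) : ∀ acc,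
    svs A k G acc = k (sieve A G acc) := by
  induction G with
  | nil => intro acc; rfl
  | cons x G ih =>
    intro acc
    have e : svs A k (x :: G) acc = fc (acc ||| orl A x.1 x.2) (svs A k G) := rfl
    rw [e, fc_eq, ih]
    rfl

theorem rr_spec {A q : ℕ} (hq : Odd q) : q ∣ A + 2 * rr A q := by
  obtain ⟨u, hu⟩ := hq
  have hq0 : 0 < q := by omega
  have e1 : (q + 1) / 2 = u + 1 := by omega
  have h1 : (A + 2 * rr A q) % q = 0 := by
    unfold rr
    rw [e1, Nat.add_mod, Nat.mul_mod, Nat.mod_mod, ← Nat.mul_mod, ← Nat.add_mod]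
    have e2 : A + 2 * ((q - A % q) * (u + 1)) = A + (q - A % q) + (q - A % q) * q := by
      have : 2 * ((q - A % q) * (u + 1)) = (q - A % q) * (2 * u + 1 + 1) := by ring
      rw [this, ← hu]
      ring
    rw [e2, Nat.add_mul_mod_self_right]
    have e3 : A + (q - A % q) = q * (A / q) + q := by
      have h2 := Nat.div_add_mod A q
      have h3 : A % q < q := Nat.mod_lt _ hq0
      omega
    rw [e3]
    simp
  exact Nat.dvd_of_mod_eq_zero h1

theorem rr_lt {A q : ℕ} (hq : 0 < q) : rr A q < q := Nat.mod_lt _ hq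

theorem pat_rr {A q d N i : ℕ} (hq : Odd q) (hN : N ≤ q * 2 ^ d) (hi : i < N) :
    (pat q d <<< rr A q).testBit i = true ↔ q ∣ A + 2 * i := by
  have hq0 : 0 < q := hq.pos
  rw [Nat.testBit_shiftLeft]
  simp only [Bool.and_eq_true, decide_eq_true_eq, pat_testBit]
  constructor
  · rintro ⟨h1, t, _, h3⟩
    have e : A + 2 * i = A + 2 * rr A q + q * (2 * t) := by
      have : i = rr A q + q * t := by omega
      rw [this]
      ring
    rw [e]
    exact dvd_add (rr_spec hq) (dvd_mul_right _ _)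
  · intro h
    have h1 : (i : ℤ) ≡ rr A q [ZMOD q] := by
      have h2 : (q : ℤ) ∣ 2 * ((rr A q : ℤ) - i) := by
        have h3 : (q : ℤ) ∣ (A : ℤ) + 2 * i := by exact_mod_cast h
        have h4 : (q : ℤ) ∣ (A : ℤ) + 2 * rr A q := by exact_mod_cast rr_spec (A := A) hq
        have h5 := dvd_sub h4 h3
        have e : (A : ℤ) + 2 * rr A q - (A + 2 * i) = 2 * ((rr A q : ℤ) - i) := by ring
        rwa [e] at h5
      have h6 : IsCoprime (q : ℤ) 2 := by
        have h7 := (Nat.isCoprime_iff_coprime (m := q) (n := 2)).2 (Nat.coprime_two_right.2 hq)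
        exact_mod_cast h7
      exact (Int.modEq_iff_dvd).2 (h6.dvd_of_dvd_mul_left h2)
    have h2 : i % q = rr A q % q := by
      exact_mod_cast h1
    rw [Nat.mod_eq_of_lt (rr_lt hq0)] at h2
    have h3 := Nat.div_add_mod i q
    refine ⟨by omega, i / q, ?_, by omega⟩
    rw [Nat.div_lt_iff_lt_mul hq0]
    calc i < N := hi
      _ ≤ q * 2 ^ d := hN
      _ = 2 ^ d * q := mul_comm _ _

/-- the accumulator marks the multiples of the numbers of `L` -/
def Acc (A N : ℕ) (L : List ℕ) (acc : ℕ) : Prop :=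
  ∀ i < N, (acc.testBit i = true ↔ ∃ q ∈ L, q ∣ A + 2 * i)

/-- all the numbers of the groups -/
def flat (G : List (ℕ × List ℕ)) : List ℕ := G.flatMap fun x => x.2

theorem acc_sieve {A N : ℕ} (G : List (ℕ × List ℕ)) : ∀ (L : List ℕ) (acc : ℕ),
    (∀ x ∈ G, ∀ q ∈ x.2, Odd q ∧ N ≤ q * 2 ^ x.1) → Acc A N L acc →
    Acc A N (L ++ flat G) (sieve A G acc) := by
  induction G with
  | nil => intro L acc _ h; simpa [flat, sieve] using h
  | cons x G ih =>
    intro L acc hG h
    have e1 : flat (x :: G) = x.2 ++ flat G := rfl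
    have e2 : sieve A (x :: G) acc = sieve A G (acc ||| orl A x.1 x.2) := rfl
    rw [e1, e2, ← List.append_assoc]
    apply ih
    · intro y hy
      exact hG y (List.mem_cons_of_mem _ hy)
    · intro i hi
      rw [Nat.testBit_or, Bool.or_eq_true, h i hi, orl_testBit]
      simp only [List.mem_append]
      constructor
      · rintro (⟨q, hq, hq'⟩ | ⟨q, hq, hq'⟩)
        · exact ⟨q, Or.inl hq, hq'⟩
        · obtain ⟨h1, h2⟩ := hG x List.mem_cons_self q hq
          exact ⟨q, Or.inr hq, (pat_rr h1 h2 hi).1 hq'⟩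
      · rintro ⟨q, hq | hq, hq'⟩
        · exact Or.inl ⟨q, hq, hq'⟩
        · obtain ⟨h1, h2⟩ := hG x List.mem_cons_self q hq
          exact Or.inr ⟨q, hq, (pat_rr h1 h2 hi).2 hq'⟩

/-- a list of odd numbers `≤ Ql` containing all the odd primes `≤ Qm` -/
structure Good (G : List (ℕ × List ℕ)) (N Ql Qm : ℕ) : Prop where
  ok : ∀ x ∈ G, ∀ q ∈ x.2, Odd q ∧ N ≤ q * 2 ^ x.1
  le : ∀ q ∈ flat G, 2 ≤ q ∧ q ≤ Ql
  all : ∀ p, p.Prime → p ≠ 2 → p ≤ Qm → p ∈ flat G

theorem chk_sound {P N Ql Qm A S c m A' S' c' m' : ℕ} {G : List (ℕ × List ℕ)} {l : List ℕ}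
    (hG : Good G N Ql Qm) (hA : Ql < A) (h1 : A' ≤ A + 2 * N) (h2 : A' ≤ (Qm + 1) * (Qm + 1))
    (hs : St A S c m) (h : chk P TB PW N G A S c m l A' S' c' m' = true) : St A' S' c' m' := by
  unfold chk at h
  rw [svs_eq, fc_eq] at h
  have g2 := acc_sieve (A := A) (N := N) G [] 0 hG.ok (by intro i _; simp)
  rw [List.nil_append] at g2
  generalize hcomp : sieve A G 0 = comp at g2
  have hcomp' : sieve A G (nat_lit 0) = comp := hcomp
  rw [hcomp'] at h
  obtain ⟨a', S1, c1, m1, r1, r2⟩ := words_sound _ l _ A S c m (by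
    intro i hi
    change ((comp % 2 ^ N) ^^^ (2 ^ N - 1)).testBit i = true ↔ _
    have hiN : i < N := by omega
    rw [Nat.testBit_xor, Nat.testBit_mod_two_pow, Nat.testBit_two_pow_sub_one]
    have e2 : (decide (i < N) && comp.testBit i ^^ decide (i < N)) = !comp.testBit i := by
      simp [hiN]
    rw [e2, Bool.not_eq_true', Bool.eq_false_iff, Ne, g2 i hiN]
    constructor
    · intro hn
      by_contra hp
      have h3 : 2 ≤ A + 2 * i := by have := hs.three; omega
      have h4 : (A + 2 * i).minFac.Prime := Nat.minFac_prime (by omega)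
      have h5 : (A + 2 * i).minFac ^ 2 ≤ A + 2 * i := Nat.minFac_sq_le_self (by omega) hp
      have h6 : (A + 2 * i).minFac ≤ Qm := by
        by_contra hc
        push Not at hc
        have h7 : (Qm + 1) * (Qm + 1) ≤ (A + 2 * i).minFac ^ 2 := by
          rw [pow_two]
          exact Nat.mul_le_mul hc hc
        omega
      have h8 : (A + 2 * i).minFac ≠ 2 := by
        intro h9
        have h10 := Nat.minFac_dvd (A + 2 * i)
        rw [h9] at h10
        obtain ⟨u, hu⟩ := hs.odd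
        omega
      exact hn ⟨_, hG.all _ h4 h8 h6, Nat.minFac_dvd _⟩
    · rintro hp ⟨q, hq, hd⟩
      obtain ⟨h3, h4⟩ := hG.le q hq
      rcases (Nat.dvd_prime hp).1 hd with h5 | h5 <;> omega) hs h
  obtain ⟨b1, b2⟩ := cond_f r2
  obtain ⟨b3, b4⟩ := cond_f b2
  obtain ⟨b5, b6⟩ := cond_f b4
  have c1' := Nat.eq_of_beq_eq_true b1
  have c2' := Nat.eq_of_beq_eq_true b3
  have c3' := Nat.eq_of_beq_eq_true b5
  have c4' := Nat.eq_of_beq_eq_true b6
  rw [← c1', ← c2', ← c3', ← c4']
  exact r1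

end Pool.Agent.Q236.E1
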