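import Pool.Agent.Q236.E1.Loop

/-!
# Soundness of the loop over the words
-/

namespace Pool.Agent.Q236.E1

/-- the state at the odd number `a`: `2 m` primes below `a`, with sum `S`; at most `c` of the `m`
partial sums are prime -/
structure St (a S c m : ℕ) : Prop where
  odd : Odd a
  three : 3 ≤ a
  count : Nat.count Nat.Prime a = 2 * m
  sum : S = SS (2 * m)
  cn : cn m ≤ c

theorem words_cons (P T PW E : ℕ) (fin : ℕ → ℕ → ℕ → ℕ → Bool) (X : ℕ) (l : List ℕ)
    (B a S c m : ℕ) :
    words P T PW E fin (X :: l) B a S c m =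
    fc (X % 4096) fun len =>
    fc ((X >>> 12) % 4096) fun k =>
    fc (X >>> 24) fun F =>
    fc (2 * a) fun C =>
    fc (a + 2 * len) fun a' =>
    cond (Nat.ble a' E) (
    cond (Nat.ble 2049 len) false (
    cond (Nat.ble 18446744073709551616 (S + k * (C + 8192))) false (
    fc (S + 18446744073709551616 * (B % 2 ^ len)) fun Z =>
    pl P T PW C (fun Z' _ c' =>
      cond (Nat.ble 18446744073709551616 Z') false (
      fc (B >>> len) fun B' =>
      fc (m + k) fun m' =>
      fc Z' fun S' => words P T PW E fin l B' a' S' c' m')) k Z F c))) false := rfl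

theorem ble_f {a b : ℕ} (h : Nat.ble a b = false) : b < a := by
  by_contra hc
  push Not at hc
  rw [Nat.ble_eq_true_of_le hc] at h
  exact absurd h (by simp)

theorem words_sound {P E : ℕ} (fin : ℕ → ℕ → ℕ → ℕ → Bool) (l : List ℕ) :
    ∀ B a S c m : ℕ, (∀ i, a + 2 * i < E → (B.testBit i = true ↔ (a + 2 * i).Prime)) →
    St a S c m → words P TB PW E fin l B a S c m = true →
    ∃ a' S' c' m', St a' S' c' m' ∧ fin a' S' c' m' = true := by
  induction l with
  | nil =>
    intro B a S c m _ hs h
    exact ⟨a, S, c, m, hs, h⟩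
  | cons X l ih =>
    intro B a S c m hB hs h
    rw [words_cons] at h
    simp only [fc_eq] at h
    generalize hlen : X % 4096 = len at h
    generalize hk : (X >>> 12) % 4096 = k at h
    obtain ⟨h1, h2⟩ := cond_f h
    obtain ⟨h3, h4⟩ := cond_t h2
    obtain ⟨h5, h6⟩ := cond_t h4
    have hE : a + 2 * len ≤ E := Nat.le_of_ble_eq_true h1
    have hl : len ≤ 2048 := by
      have := ble_f h3
      omega
    have hS : S + k * (2 * a + 8192) < 2 ^ 64 := ble_f h5
    have hw : B % 2 ^ len < 2 ^ 2048 :=
      lt_of_lt_of_le (Nat.mod_lt _ (by positivity)) (Nat.pow_le_pow_right (by norm_num) hl)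
    have hR : Rem a len (2 * m) (B % 2 ^ len) := by
      intro i
      rw [Nat.testBit_mod_two_pow]
      simp only [Bool.and_eq_true, decide_eq_true_eq]
      constructor
      · rintro ⟨h7, h8⟩
        refine ⟨h7, (hB i (by omega)).1 h8, ?_⟩
        rw [← hs.count]
        exact Nat.count_monotone _ (by omega)
      · rintro ⟨h7, h8, _⟩
        exact ⟨h7, (hB i (by omega)).2 h8⟩
    have hZ : S + 18446744073709551616 * (B % 2 ^ len) = 2 ^ 64 * (B % 2 ^ len) + SS (2 * m) := by
      rw [hs.sum]
      ring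
    rw [hZ] at h6
    rw [hs.sum] at hS
    have hc1 : 2 * m ≤ Nat.count Nat.Prime (a + 2 * len) := by
      rw [← hs.count]
      exact Nat.count_monotone _ (by omega)
    obtain ⟨w', F', c', r1, r2, r3, r4, r5⟩ := pl_sound hs.odd hs.three hl rfl _ k _ _ _ _ hw hS hR
      hs.count.le hc1 hs.cn h6
    obtain ⟨h7, h8⟩ := cond_t r5
    have hw' : w' = 0 := by
      have h9 := ble_f h7
      by_contra hne
      have : 1 ≤ w' := Nat.one_le_iff_ne_zero.2 hne
      omega
    subst hw'
    rw [Nat.mul_zero, Nat.zero_add] at h8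
    have hodd : Odd (a + 2 * len) := by
      obtain ⟨u, hu⟩ := hs.odd
      exact ⟨u + len, by omega⟩
    have hcount : Nat.count Nat.Prime (a + 2 * len) = 2 * (m + k) := by
      apply le_antisymm _ r2
      by_contra hc
      push Not at hc
      have h9 : Nat.nth Nat.Prime (2 * (m + k)) < a + 2 * len := Nat.nth_lt_of_lt_count hc
      obtain ⟨i, hi, hi'⟩ := pos_nth hs.odd hs.three (by rw [hs.count]; omega) h9
      have h10 := (r1 i).2 ⟨hi, by rw [← hi']; exact nth_pr _, by rw [← hi', count_nth_prime]⟩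
      simp at h10
    refine ih _ _ _ _ _ ?_ ⟨hodd, by have := hs.three; omega, hcount, rfl, r3⟩ h8
    intro i hi
    rw [Nat.testBit_shiftRight]
    have e1 : a + 2 * len + 2 * i = a + 2 * (len + i) := by ring
    rw [e1] at hi ⊢
    exact hB _ hi

end Pool.Agent.Q236.E1
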